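import Pool.Agent.Zk63.LR.Main

set_option autoImplicit false
set_option linter.all false

/-!
# The local retraction property for virtually free groups
-/

namespace Pool.Agent.Zk63.LR

open scoped Pointwise
open Set

/-- transport of virtual retractions from a finite index subgroup -/
theorem lr_of_finiteIndex {G : Type*} [Group G] (G₂ : Subgroup G) [G₂.FiniteIndex] (H : Subgroup G)
    (hHG : H ≤ G₂)
    (h : ∃ K : Subgroup G₂, K.FiniteIndex ∧ H.subgroupOf G₂ ≤ K ∧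
      ∃ ρ : K →* G₂, (∀ k : K, ρ k ∈ H.subgroupOf G₂) ∧
        ∀ h : G₂, ∀ hk : h ∈ K, h ∈ H.subgroupOf G₂ → ρ ⟨h, hk⟩ = h) :
    ∃ K : Subgroup G, K.FiniteIndex ∧ H ≤ K ∧
      ∃ ρ : K →* G, (∀ k : K, ρ k ∈ H) ∧ ∀ h : G, ∀ hk : h ∈ K, h ∈ H → ρ ⟨h, hk⟩ = h := by
  obtain ⟨K, hK, hHK, ρ, hρ1, hρ2⟩ := h
  have hinj : Function.Injective G₂.subtype := G₂.subtype_injective
  let e : K ≃* K.map G₂.subtype := K.equivMapOfInjective G₂.subtype hinj
  refine ⟨K.map G₂.subtype, ?_, ?_, (G₂.subtype.comp ρ).comp e.symm.toMonoidHom, ?_, ?_⟩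
  · refine ⟨?_⟩
    rw [Subgroup.index_map_subtype]
    exact mul_ne_zero hK.index_ne_zero Subgroup.FiniteIndex.index_ne_zero
  · intro x hx
    exact ⟨⟨x, hHG hx⟩, hHK (Subgroup.mem_subgroupOf.2 hx), rfl⟩
  · intro k
    exact Subgroup.mem_subgroupOf.1 (hρ1 (e.symm k))
  · intro h hk hh
    have hmem : (⟨h, hHG hh⟩ : G₂) ∈ H.subgroupOf G₂ := Subgroup.mem_subgroupOf.2 hh
    have h1 : e.symm ⟨h, hk⟩ = ⟨⟨h, hHG hh⟩, hHK hmem⟩ := by
      rw [MulEquiv.symm_apply_eq]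
      rfl
    show G₂.subtype (ρ (e.symm ⟨h, hk⟩)) = h
    rw [h1, hρ2 _ _ hmem]
    rfl

theorem lr_virtually_free (G : Type*) [Group G] (F : Subgroup G) (hF : F.FiniteIndex)
    (hFfree : IsFreeGroup F) (H : Subgroup G) (hH : H.FG) :
    ∃ K : Subgroup G, K.FiniteIndex ∧ H ≤ K ∧
      ∃ ρ : K →* G, (∀ k : K, ρ k ∈ H) ∧ ∀ h : G, ∀ hk : h ∈ K, h ∈ H → ρ ⟨h, hk⟩ = h := by
  classical
  haveI := hF
  haveI := hFfree
  let F₁ : Subgroup G := F.normalCore
  have hF₁F : F₁ ≤ F := F.normalCore_le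
  haveI : F₁.FiniteIndex := inferInstance
  haveI hF₁free : IsFreeGroup F₁ :=
    isFree_of_injective (Subgroup.inclusion hF₁F) (Subgroup.inclusion_injective hF₁F)
  let e₁ : F₁ ≃* FreeGroup (IsFreeGroup.Generators F₁) := IsFreeGroup.toFreeGroup F₁
  haveI : Group.FG H := (Group.fg_iff_subgroup_fg H).2 hH
  haveI : (F₁.subgroupOf H).FiniteIndex := inferInstance
  haveI : Group.FG (F₁.subgroupOf H) := inferInstance
  let j : F₁.subgroupOf H →* F₁ :=
    { toFun := fun x => ⟨((x : H) : G), Subgroup.mem_subgroupOf.1 x.2⟩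
      map_one' := rfl
      map_mul' := fun _ _ => rfl }
  let ψ : F₁.subgroupOf H →* FreeGroup (IsFreeGroup.Generators F₁) := e₁.toMonoidHom.comp j
  have hψ : ψ.range.FG := by
    rw [← Group.fg_iff_subgroup_fg]
    exact Group.fg_of_surjective ψ.rangeRestrict_surjective
  have hψmem : ∀ x : F₁, e₁ x ∈ ψ.range ↔ (x : G) ∈ H := by
    intro x
    constructor
    · rintro ⟨y, hy⟩
      have : j y = x := e₁.injective hy
      rw [← this]
      exact (y : H).2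
    · intro hx
      exact ⟨⟨⟨(x : G), hx⟩, Subgroup.mem_subgroupOf.2 x.2⟩, rfl⟩
  obtain ⟨F', hF', hle, hwall⟩ := hall ψ.range hψ
  haveI := hF'
  let F₂ : Subgroup G := (F'.comap e₁.toMonoidHom).map F₁.subtype
  have hF₂mem : ∀ x : G, x ∈ F₂ ↔ ∃ h : x ∈ F₁, e₁ ⟨x, h⟩ ∈ F' := by
    intro x
    constructor
    · rintro ⟨y, hy, rfl⟩
      exact ⟨y.2, hy⟩
    · rintro ⟨h, hx⟩
      exact ⟨⟨x, h⟩, hx, rfl⟩
  haveI : F₂.FiniteIndex := by
    refine ⟨?_⟩
    rw [Subgroup.index_map_subtype]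
    refine mul_ne_zero ?_ Subgroup.FiniteIndex.index_ne_zero
    rw [Subgroup.index_comap_of_surjective _ e₁.surjective]
    exact Subgroup.FiniteIndex.index_ne_zero
  let N : Subgroup G := F₂.normalCore
  have hNF₂ : N ≤ F₂ := F₂.normalCore_le
  have hNF₁ : N ≤ F₁ := fun x hx => ((hF₂mem x).1 (hNF₂ hx)).1
  haveI : N.FiniteIndex := inferInstance
  haveI : N.Normal := inferInstance
  let G₂ : Subgroup G := N ⊔ H
  haveI : G₂.FiniteIndex := Subgroup.finiteIndex_of_le (le_sup_left : N ≤ G₂)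
  apply lr_of_finiteIndex G₂ H le_sup_right
  have hιmem : ∀ x : N.subgroupOf G₂, ((x : G₂) : G) ∈ F₁ := fun x =>
    hNF₁ (Subgroup.mem_subgroupOf.1 x.2)
  let k : N.subgroupOf G₂ →* F₁ :=
    { toFun := fun x => ⟨((x : G₂) : G), hιmem x⟩
      map_one' := rfl
      map_mul' := fun _ _ => rfl }
  have hk : Function.Injective k := by
    intro x y hxy
    exact Subtype.ext (Subtype.ext (congrArg (fun z : F₁ => (z : G)) hxy))
  have hkF' : ∀ x : N.subgroupOf G₂, e₁ (k x) ∈ F' := by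
    intro x
    exact ((hF₂mem _).1 (hNF₂ (Subgroup.mem_subgroupOf.1 x.2))).2
  have hkH : ∀ x : N.subgroupOf G₂, e₁ (k x) ∈ ψ.range ↔ (x : G₂) ∈ H.subgroupOf G₂ := by
    intro x
    rw [hψmem, Subgroup.mem_subgroupOf]
    rfl
  refine lr_aux (N.subgroupOf G₂) (H.subgroupOf G₂) ?_ (isFree_of_injective k hk) ?_
    (e₁.toMonoidHom.comp k) (e₁.injective.comp hk) ?_
  · rw [← Group.fg_iff_subgroup_fg]
    exact Group.fg_of_surjective
      (f := (Subgroup.subgroupOfEquivOfLe (le_sup_right : H ≤ G₂)).symm.toMonoidHom)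
      (Subgroup.subgroupOfEquivOfLe (le_sup_right : H ≤ G₂)).symm.surjective
  · rintro ⟨g, hg⟩
    obtain ⟨n, hn, h, hh, rfl⟩ := Subgroup.mem_sup_of_normal_left.1 hg
    exact ⟨⟨n, Subgroup.mem_sup_left hn⟩, Subgroup.mem_subgroupOf.2 hn,
      ⟨h, Subgroup.mem_sup_right hh⟩, Subgroup.mem_subgroupOf.2 hh, rfl⟩
  · intro m hm
    obtain ⟨f, b, h1, h2⟩ := hwall (e₁ (k m)) (hkF' m) (fun h => hm ((hkH m).1 h))
    refine ⟨f, b, ?_, h2⟩
    intro n h hh
    have := h1 (e₁ (k n)) (hkF' n) (e₁ (k h)) ((hkH h).2 hh)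
    rw [map_mul]
    exact this

end Pool.Agent.Zk63.LR

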