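import Mathlib

set_option autoImplicit false
set_option linter.all false

/-!
# Ordered products along a discrete nested family of cuts
-/

namespace Pool.Agent.Zk63.LR

open scoped Pointwise
open Set

variable {V : Type*}

/-- strictly increasing lists of sets with the same members are equal -/
theorem list_unique {L L' : List (Set V)} (h : L.Pairwise (· ⊂ ·)) (h' : L'.Pairwise (· ⊂ ·))
    (hm : ∀ A, A ∈ L ↔ A ∈ L') : L = L' := by
  have n1 : L.Nodup := h.imp (fun hab => hab.ne)
  have n2 : L'.Nodup := h'.imp (fun hab => hab.ne)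
  have hp : L.Perm L' := (List.perm_ext_iff_of_nodup n1 n2).2 hm
  refine List.Perm.eq_of_pairwise (le := (· ⊆ ·)) ?_ (h.imp fun hab => hab.1)
    (h'.imp fun hab => hab.1) hp
  intro a b _ _ h1 h2
  exact Set.Subset.antisymm h1 h2

open Classical in
theorem list_split {L : List (Set V)} (h : L.Pairwise (· ⊂ ·)) {P : Set V → Prop}
    (hP : ∀ A B, A ⊆ B → P A → P B) :
    L = L.filter (fun A => ¬ P A) ++ L.filter (fun A => P A) := by
  induction L with
  | nil => rfl
  | cons a L ih =>
    rw [List.pairwise_cons] at h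
    by_cases ha : P a
    · have h1 : (a :: L).filter (fun A => ¬ P A) = [] := by
        rw [List.filter_eq_nil_iff]
        intro b hb
        rw [List.mem_cons] at hb
        rcases hb with rfl | hb
        · simpa using ha
        · simpa using hP a b (h.1 b hb).1 ha
      have h2 : (a :: L).filter (fun A => P A) = a :: L := by
        rw [List.filter_eq_self]
        intro b hb
        rw [List.mem_cons] at hb
        rcases hb with rfl | hb
        · simpa using ha
        · simpa using hP a b (h.1 b hb).1 ha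
      rw [h1, h2]
      rfl
    · have h1 : (a :: L).filter (fun A => ¬ P A) = a :: L.filter (fun A => ¬ P A) := by
        rw [List.filter_cons_of_pos]
        simpa using ha
      have h2 : (a :: L).filter (fun A => P A) = L.filter (fun A => P A) := by
        rw [List.filter_cons_of_neg]
        simpa using ha
      rw [h1, h2, List.cons_append, ← ih h.2]

open Classical in
theorem exists_list {S : Set (Set V)} (hfin : S.Finite)
    (hchain : ∀ A ∈ S, ∀ B ∈ S, A ⊆ B ∨ B ⊆ A) :
    ∃ L : List (Set V), L.Pairwise (· ⊂ ·) ∧ ∀ A, A ∈ L ↔ A ∈ S := by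
  induction S, hfin using Set.Finite.induction_on with
  | empty => exact ⟨[], List.Pairwise.nil, by simp⟩
  | @insert A S hA hfin ih =>
    obtain ⟨L, h1, h2⟩ := ih (fun B hB C hC => hchain B (Set.mem_insert_of_mem _ hB) C
      (Set.mem_insert_of_mem _ hC))
    refine ⟨L.filter (fun B => B ⊂ A) ++ A :: L.filter (fun B => A ⊂ B), ?_, ?_⟩
    · rw [List.pairwise_append, List.pairwise_cons]
      refine ⟨h1.filter _, ⟨?_, h1.filter _⟩, ?_⟩
      · intro B hB
        have := (List.mem_filter.1 hB).2
        simpa using this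
      · intro B hB C hC
        have hB' : B ⊂ A := by simpa using (List.mem_filter.1 hB).2
        rw [List.mem_cons] at hC
        rcases hC with rfl | hC
        · exact hB'
        · have hC' : A ⊂ C := by simpa using (List.mem_filter.1 hC).2
          exact hB'.trans hC'
    · intro B
      rw [List.mem_append, List.mem_cons, List.mem_filter, List.mem_filter, Set.mem_insert_iff,
        h2 B]
      constructor
      · rintro (h | h | h)
        · exact Or.inr h.1
        · exact Or.inl h
        · exact Or.inr h.1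
      · rintro (h | h)
        · exact Or.inr (Or.inl h)
        · have hne : B ≠ A := fun h' => hA (h' ▸ h)
          rcases hchain B (Set.mem_insert_of_mem _ h) A (Set.mem_insert _ _) with h' | h'
          · left
            exact ⟨h, by simpa using HasSubset.Subset.ssubset_of_ne h' hne⟩
          · right; right
            exact ⟨h, by simpa using HasSubset.Subset.ssubset_of_ne h' hne.symm⟩

/-- a discrete nested family of cuts -/
structure Nest (E : Set (Set V)) : Prop where
  compl : ∀ A ∈ E, Aᶜ ∈ E
  nested : ∀ A ∈ E, ∀ B ∈ E, A ⊆ B ∨ B ⊆ A ∨ A ⊆ Bᶜ ∨ Aᶜ ⊆ B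
  disc : ∀ x y : V, {A | A ∈ E ∧ x ∈ A ∧ y ∉ A}.Finite

variable {E : Set (Set V)}

theorem Nest.chain (hE : Nest E) {x y : V} {A B : Set V} (hA : A ∈ E ∧ x ∈ A ∧ y ∉ A)
    (hB : B ∈ E ∧ x ∈ B ∧ y ∉ B) : A ⊆ B ∨ B ⊆ A := by
  obtain ⟨hA, hxA, hyA⟩ := hA
  obtain ⟨hB, hxB, hyB⟩ := hB
  rcases hE.nested A hA B hB with h | h | h | h
  · exact Or.inl h
  · exact Or.inr h
  · exact absurd hxB (h hxA)
  · exact absurd (h hyA) hyB

theorem Nest.exists_path (hE : Nest E) (x y : V) :
    ∃ L : List (Set V), L.Pairwise (· ⊂ ·) ∧ ∀ A, A ∈ L ↔ A ∈ E ∧ x ∈ A ∧ y ∉ A :=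
  exists_list (hE.disc x y) (fun A hA B hB => hE.chain hA hB)

/-- the increasing list of the cuts separating `x` from `y` -/
noncomputable def Nest.path (hE : Nest E) (x y : V) : List (Set V) := (hE.exists_path x y).choose

theorem Nest.path_sorted (hE : Nest E) (x y : V) : (hE.path x y).Pairwise (· ⊂ ·) :=
  (hE.exists_path x y).choose_spec.1

theorem Nest.mem_path (hE : Nest E) {x y : V} {A : Set V} :
    A ∈ hE.path x y ↔ A ∈ E ∧ x ∈ A ∧ y ∉ A :=
  (hE.exists_path x y).choose_spec.2 A

theorem Nest.path_eq (hE : Nest E) {x y : V} {L : List (Set V)} (h : L.Pairwise (· ⊂ ·))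
    (hm : ∀ A, A ∈ L ↔ A ∈ E ∧ x ∈ A ∧ y ∉ A) : hE.path x y = L :=
  list_unique (hE.path_sorted x y) h (fun A => by rw [hE.mem_path, hm])

/-- the ordered product -/
noncomputable def Nest.tp {W : Type*} [Group W] (hE : Nest E) (d : Set V → W) (x y : V) : W :=
  ((hE.path x y).map d).prod

open Classical in
theorem Nest.path_decomp (hE : Nest E) (x y z : V) :
    ∃ a b e : List (Set V), hE.path x y = a ++ b ∧
      hE.path y z = (b.map (fun B => Bᶜ)).reverse ++ e ∧ hE.path x z = a ++ e := by
  refine ⟨(hE.path x y).filter (fun A => ¬ z ∈ A), (hE.path x y).filter (fun A => z ∈ A),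
    (hE.path y z).filter (fun A => x ∈ A), ?_, ?_, ?_⟩
  · exact list_split (hE.path_sorted x y) (P := fun A => z ∈ A) (fun A B h h' => h h')
  · have h1 := list_split (hE.path_sorted y z) (P := fun A => x ∈ A) (fun A B h h' => h h')
    conv_lhs => rw [h1]
    congr 1
    refine list_unique ((hE.path_sorted y z).filter _) ?_ ?_
    · rw [List.pairwise_reverse, List.pairwise_map]
      refine ((hE.path_sorted x y).filter _).imp ?_
      intro A B hAB
      exact compl_lt_compl_iff_lt.2 hAB
    · intro A
      rw [List.mem_filter, hE.mem_path, List.mem_reverse, List.mem_map]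
      constructor
      · rintro ⟨⟨h2, h3, h4⟩, h5⟩
        have h5' : x ∉ A := by simpa using h5
        refine ⟨Aᶜ, ?_, compl_compl A⟩
        rw [List.mem_filter, hE.mem_path]
        exact ⟨⟨hE.compl A h2, h5', not_not.2 h3⟩, by simpa using h4⟩
      · rintro ⟨B, hB, rfl⟩
        rw [List.mem_filter, hE.mem_path] at hB
        obtain ⟨⟨h2, h3, h4⟩, h5⟩ := hB
        have h5' : z ∈ B := by simpa using h5
        exact ⟨⟨hE.compl B h2, h4, not_not.2 h5'⟩, by simpa using h3⟩
  · refine hE.path_eq ?_ ?_
    · rw [List.pairwise_append]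
      refine ⟨(hE.path_sorted x y).filter _, (hE.path_sorted y z).filter _, ?_⟩
      intro A hA B hB
      rw [List.mem_filter, hE.mem_path] at hA hB
      obtain ⟨⟨a1, a2, a3⟩, a4⟩ := hA
      obtain ⟨⟨b1, b2, b3⟩, b4⟩ := hB
      have a4' : z ∉ A := by simpa using a4
      have b4' : x ∈ B := by simpa using b4
      have hne : A ≠ B := fun h => a3 (h ▸ b2)
      rcases hE.chain ⟨a1, a2, a4'⟩ ⟨b1, b4', b3⟩ with h | h
      · exact HasSubset.Subset.ssubset_of_ne h hne
      · exact absurd (h b2) a3
    · intro A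
      rw [List.mem_append, List.mem_filter, List.mem_filter, hE.mem_path, hE.mem_path]
      constructor
      · rintro (⟨⟨h1, h2, h3⟩, h4⟩ | ⟨⟨h1, h2, h3⟩, h4⟩)
        · exact ⟨h1, h2, by simpa using h4⟩
        · exact ⟨h1, by simpa using h4, h3⟩
      · rintro ⟨h1, h2, h3⟩
        by_cases hy : y ∈ A
        · right; exact ⟨⟨h1, hy, h3⟩, by simpa using h2⟩
        · left; exact ⟨⟨h1, h2, hy⟩, by simpa using h3⟩

theorem Nest.tp_mul {W : Type*} [Group W] (hE : Nest E) (d : Set V → W)
    (hd : ∀ A ∈ E, d Aᶜ = (d A)⁻¹) (x y z : V) :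
    hE.tp d x y * hE.tp d y z = hE.tp d x z := by
  obtain ⟨a, b, e, h1, h2, h3⟩ := hE.path_decomp x y z
  have hb : ∀ B ∈ b, B ∈ E := by
    intro B hB
    have : B ∈ hE.path x y := by rw [h1]; exact List.mem_append_right _ hB
    exact (hE.mem_path.1 this).1
  have h4 : ((b.map (fun B => Bᶜ)).reverse.map d).prod = ((b.map d).prod)⁻¹ := by
    rw [List.prod_inv_reverse, List.map_reverse, List.map_map, List.map_map]
    congr 2
    apply List.map_congr_left
    intro B hB
    exact hd B (hb B hB)
  unfold Nest.tp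
  rw [h1, h2, h3, List.map_append, List.map_append, List.map_append, List.prod_append,
    List.prod_append, List.prod_append, h4]
  group

theorem Nest.tp_self {W : Type*} [Group W] (hE : Nest E) (d : Set V → W) (x : V) :
    hE.tp d x x = 1 := by
  have : hE.path x x = [] := by
    refine hE.path_eq List.Pairwise.nil ?_
    intro A
    constructor
    · intro h; exact absurd h (by simp)
    · rintro ⟨_, h1, h2⟩; exact absurd h1 h2
  unfold Nest.tp
  rw [this]
  rfl

theorem Nest.path_smul {G : Type*} [Group G] [MulAction G V] (hE : Nest E)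
    (hinv : ∀ (g : G), ∀ A ∈ E, g • A ∈ E) (g : G) (x y : V) :
    hE.path (g • x) (g • y) = (hE.path x y).map (fun A => g • A) := by
  refine hE.path_eq ?_ ?_
  · rw [List.pairwise_map]
    refine (hE.path_sorted x y).imp ?_
    intro A B hAB
    refine ⟨Set.smul_set_mono hAB.1, fun h => hAB.2 ?_⟩
    have := Set.smul_set_mono (a := g⁻¹) h
    simpa using this
  · intro A
    rw [List.mem_map]
    constructor
    · rintro ⟨B, hB, rfl⟩
      rw [hE.mem_path] at hB
      refine ⟨hinv g B hB.1, Set.smul_mem_smul_set hB.2.1, ?_⟩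
      rw [Set.smul_mem_smul_set_iff]
      exact hB.2.2
    · rintro ⟨h1, h2, h3⟩
      refine ⟨g⁻¹ • A, ?_, by simp⟩
      rw [hE.mem_path]
      refine ⟨hinv g⁻¹ A h1, ?_, ?_⟩
      · rwa [Set.mem_inv_smul_set_iff]
      · rwa [Set.mem_inv_smul_set_iff]

end Pool.Agent.Zk63.LR
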