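import Pool.Agent.Zk63.LR.RelCuts

set_option autoImplicit false
set_option linter.all false

/-!
# Weights, and the nested family attached to a family of walls
-/

namespace Pool.Agent.Zk63.LR

open scoped ENNReal Topology Pointwise
open Set Filter

theorem sum_le_one {P O : Type*} (mk : P → O) (S : Set P) (M : O → ℕ)
    (hM : ∀ o, ({q | mk q = o} ∩ S).encard ≤ M o) (δ : O → NNReal)
    (hδ : ∑' o, ((M o : ℝ≥0∞) * δ o) < 1) :
    ∑' p, S.indicator (fun p => (δ (mk p) : ℝ≥0∞)) p ≤ 1 := by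
  rw [← (Equiv.sigmaFiberEquiv mk).tsum_eq, ENNReal.tsum_sigma']
  refine le_trans (ENNReal.tsum_le_tsum fun o => ?_) hδ.le
  have e1 : ∀ q : {p // mk p = o},
      S.indicator (fun p => (δ (mk p) : ℝ≥0∞)) ((Equiv.sigmaFiberEquiv mk) ⟨o, q⟩) =
        S.indicator (fun _ => (δ o : ℝ≥0∞)) q.1 := by
    rintro ⟨q, rfl⟩
    rfl
  simp only [e1]
  have e2 : (∑' q : {p // mk p = o}, S.indicator (fun _ => (δ o : ℝ≥0∞)) q.1) =
      ∑' p, ({q | mk q = o} : Set P).indicator (S.indicator (fun _ => (δ o : ℝ≥0∞))) p :=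
    tsum_subtype ({q | mk q = o} : Set P) _
  rw [e2]
  have e3 : ∀ p, ({q | mk q = o} : Set P).indicator (S.indicator (fun _ => (δ o : ℝ≥0∞))) p =
      (({q | mk q = o} ∩ S : Set P)).indicator (fun _ => (δ o : ℝ≥0∞)) p := by
    intro p
    rw [Set.indicator_indicator]
  simp only [e3]
  rw [← tsum_subtype, ENNReal.tsum_set_const]
  gcongr
  have := hM o
  exact_mod_cast (ENat.toENNReal_le.2 this)

theorem exists_weight {G V : Type*} [Group G] [MulAction G V] [Countable V] (W : Set (Set V))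
    (hfin : ∀ p : V × V, ∃ M : ℕ, ∀ A ∈ W,
      {q | q ∈ MulAction.orbit G p ∧ ¬ (q.1 ∈ A ↔ q.2 ∈ A)}.encard ≤ M) :
    ∃ c : V → V → ℝ≥0∞, (∀ u v, c u v = c v u) ∧ (∀ u v, c u v ≠ 0) ∧
      (∀ (g : G) u v, c (g • u) (g • v) = c u v) ∧ ∀ A ∈ W, cap c A ≤ 2 := by
  classical
  choose M hM using fun o : MulAction.orbitRel.Quotient G (V × V) => hfin o.out
  have hM' : ∀ o : MulAction.orbitRel.Quotient G (V × V), ∀ A ∈ W,
      {q : V × V | (Quotient.mk _ q : MulAction.orbitRel.Quotient G (V × V)) = o ∧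
        ¬ (q.1 ∈ A ↔ q.2 ∈ A)}.encard ≤ M o := by
    intro o A hA
    refine le_trans (Set.encard_le_encard ?_) (hM o A hA)
    rintro q ⟨hq, hq'⟩
    refine ⟨?_, hq'⟩
    rw [← MulAction.orbitRel_apply]
    apply Quotient.exact
    rw [hq, Quotient.out_eq]
  have : Countable (MulAction.orbitRel.Quotient G (V × V)) := Quotient.countable
  obtain ⟨δ, hδ, hsum⟩ := ENNReal.exists_pos_tsum_mul_lt_of_countable (one_ne_zero)
    (fun o : MulAction.orbitRel.Quotient G (V × V) => (M o : ℝ≥0∞)) (fun o => by simp)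
  set mk : V × V → MulAction.orbitRel.Quotient G (V × V) := fun q => Quotient.mk _ q with hmk
  have hinv : ∀ (g : G) (u v : V), mk (g • u, g • v) = mk (u, v) := by
    intro g u v
    exact MulAction.orbitRel.Quotient.quotient_smul_eq (g := g) (a := (u, v))
  refine ⟨fun u v => (δ (mk (u, v)) : ℝ≥0∞) + δ (mk (v, u)), ?_, ?_, ?_, ?_⟩
  · intro u v
    exact add_comm _ _
  · intro u v h
    have h1 : (δ (mk (u, v)) : ℝ≥0∞) = 0 := (add_eq_zero.1 h).1
    have h2 := hδ (mk (u, v))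
    rw [ENNReal.coe_eq_zero] at h1
    exact h2.ne' h1
  · intro g u v
    simp only [hinv]
  · intro A hA
    have hb1 : ∑' p, (A ×ˢ Aᶜ).indicator (fun p => (δ (mk p) : ℝ≥0∞)) p ≤ 1 := by
      refine sum_le_one mk _ M (fun o => ?_) δ hsum
      refine le_trans (Set.encard_le_encard ?_) (hM' o A hA)
      rintro q ⟨h1, h2⟩
      refine ⟨h1, fun h => h2.2 (h.1 h2.1)⟩
    have hb2 : ∑' p, (Aᶜ ×ˢ A).indicator (fun p => (δ (mk p) : ℝ≥0∞)) p ≤ 1 := by
      refine sum_le_one mk _ M (fun o => ?_) δ hsum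
      refine le_trans (Set.encard_le_encard ?_) (hM' o A hA)
      rintro q ⟨h1, h2⟩
      refine ⟨h1, fun h => h2.1 (h.2 h2.2)⟩
    rw [← (Equiv.prodComm V V).tsum_eq] at hb2
    have e : cap (fun u v => (δ (mk (u, v)) : ℝ≥0∞) + δ (mk (v, u))) A =
        ∑' p, (A ×ˢ Aᶜ).indicator (fun p => (δ (mk p) : ℝ≥0∞)) p +
        ∑' p, (Aᶜ ×ˢ A).indicator (fun p => (δ (mk p) : ℝ≥0∞)) ((Equiv.prodComm V V) p) := by
      unfold cap I
      rw [← ENNReal.tsum_add]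
      refine tsum_congr fun p => ?_
      by_cases h : p ∈ A ×ˢ Aᶜ
      · rw [Set.indicator_of_mem h, Set.indicator_of_mem h,
          Set.indicator_of_mem (show (Equiv.prodComm V V) p ∈ Aᶜ ×ˢ A from ⟨h.2, h.1⟩)]
        rfl
      · rw [Set.indicator_of_notMem h, Set.indicator_of_notMem h, Set.indicator_of_notMem
          (show (Equiv.prodComm V V) p ∉ Aᶜ ×ˢ A from fun h' => h ⟨h'.2, h'.1⟩)]
        simp
    rw [e]
    calc _ ≤ (1 : ℝ≥0∞) + 1 := add_le_add hb1 hb2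
      _ = 2 := by norm_num

/-- finiteness of the coboundary of a set of finite capacity -/
theorem finite_cut {G V : Type*} [Group G] [MulAction G V] {c : V → V → ℝ≥0∞}
    (hpos : ∀ u v, c u v ≠ 0) (hinv : ∀ (g : G) u v, c (g • u) (g • v) = c u v)
    {A : Set V} (hA : cap c A ≠ ∞) (p : V × V) :
    {q | q ∈ MulAction.orbit G p ∧ q.1 ∈ A ∧ q.2 ∉ A}.Finite := by
  by_contra hinf
  set S := {q : V × V | q ∈ MulAction.orbit G p ∧ q.1 ∈ A ∧ q.2 ∉ A} with hS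
  have hinf' : S.Infinite := hinf
  apply hA
  rw [← top_le_iff]
  have hconst : ∀ q ∈ S, c q.1 q.2 = c p.1 p.2 := by
    rintro q ⟨⟨g, hg⟩, -⟩
    have : g • p = q := hg
    rw [← this]
    exact hinv g _ _
  have : Infinite S := hinf'.to_subtype
  calc (∞ : ℝ≥0∞) = ∑' _ : S, c p.1 p.2 :=
        (ENNReal.tsum_const_eq_top_of_ne_zero (hpos _ _)).symm
    _ = ∑' q : S, c q.1.1 q.1.2 := by
        refine tsum_congr fun q => ?_
        exact (hconst q.1 q.2).symm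
    _ = ∑' q, S.indicator (fun q => c q.1 q.2) q := tsum_subtype S (fun q => c q.1 q.2)
    _ ≤ cap c A := by
        unfold cap I
        refine ENNReal.tsum_le_tsum fun q => ?_
        refine Set.indicator_le_indicator_of_subset ?_ (fun _ => bot_le) q
        rintro r ⟨-, h1, h2⟩
        exact ⟨h1, h2⟩

/-- **The relative theorem**: an invariant, complement closed, nested and discrete family of cuts
separating the points. -/
theorem rel_cuts {G V : Type*} [Group G] [MulAction G V] [Countable V] (W : Set (Set V))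
    (hsep : ∀ u v : V, u ≠ v → ∃ A ∈ W, u ∈ A ∧ v ∉ A)
    (hfin : ∀ p : V × V, ∃ M : ℕ, ∀ A ∈ W,
      {q | q ∈ MulAction.orbit G p ∧ ¬ (q.1 ∈ A ↔ q.2 ∈ A)}.encard ≤ M) :
    ∃ E : Set (Set V), (∀ (g : G), ∀ A ∈ E, g • A ∈ E) ∧ (∀ A ∈ E, Aᶜ ∈ E) ∧
      (∀ A ∈ E, ∀ B ∈ E, A ⊆ B ∨ B ⊆ A ∨ A ⊆ Bᶜ ∨ Aᶜ ⊆ B) ∧
      (∀ x y : V, {A | A ∈ E ∧ x ∈ A ∧ y ∉ A}.Finite) ∧
      (∀ u v : V, u ≠ v → ∃ A ∈ E, u ∈ A ∧ v ∉ A) ∧
      (∀ A ∈ E, A.Nonempty ∧ Aᶜ.Nonempty) ∧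
      (∀ A ∈ E, ∀ p : V × V, {q | q ∈ MulAction.orbit G p ∧ q.1 ∈ A ∧ q.2 ∉ A}.Finite) := by
  obtain ⟨c, hc, hpos, hinv, hcap⟩ := exists_weight (G := G) W hfin
  have hCt : (2 : ℝ≥0∞) ≠ ∞ := by norm_num
  have hW : ∀ u v, u ≠ v → ∃ A : Set V, u ∈ A ∧ v ∉ A ∧ cap c A ≤ 2 := by
    intro u v huv
    obtain ⟨A, hA, h1, h2⟩ := hsep u v huv
    exact ⟨A, h1, h2, hcap A hA⟩
  refine ⟨EE c, fun g A hA => EE_smul hinv g hA, fun A hA => EE_compl hc hCt hW hA,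
    fun A hA B hB => EE_nested hc hCt hW hpos hA hB, fun x y => EE_discrete hc hCt hW hpos x y,
    ?_, ?_, ?_⟩
  · intro u v huv
    have := mem_Mc.1 (Amin_mem hc (Mc_nonempty hc hCt hW huv))
    exact ⟨Amin c u v, ⟨u, v, huv, Or.inl rfl⟩, this.1, this.2.1⟩
  · intro A hA
    obtain ⟨u, v, huv, hM, -, -⟩ := EE_spec hc hCt hW hA
    exact ⟨⟨u, (mem_Mc.1 hM).1⟩, ⟨v, (mem_Mc.1 hM).2.1⟩⟩
  · intro A hA p
    obtain ⟨u, v, huv, hM, -, -⟩ := EE_spec hc hCt hW hA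
    exact finite_cut hpos hinv (mem_Mc.1 hM).2.2.1 p

end Pool.Agent.Zk63.LR
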