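import Mathlib

set_option autoImplicit false

/-!
# Contiguous subwords of reduced words are reduced
-/

namespace Pool.Agent.Zk63.LR

theorem red_sub {α : Type*} {L q : List (α × Bool)} (h : FreeGroup.IsReduced L)
    (h' : q <:+: L) : FreeGroup.IsReduced q := by
  obtain ⟨p, s, rfl⟩ := h'
  exact List.IsChain.right_of_append (List.IsChain.left_of_append h)

end Pool.Agent.Zk63.LR
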