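import Pool.Agent.Zk63.LR.Tele

set_option autoImplicit false
set_option linter.all false

/-!
# From a nested family to a crossed homomorphism into a free group
-/

namespace Pool.Agent.Zk63.LR

open scoped Pointwise
open Set

section vertex
variable {V : Type*} {E : Set (Set V)}

/-- the vertex at the `D`-side of the edge `D` -/
def iota (E : Set (Set V)) (D : Set V) : Set (Set V) := {C | C ∈ E ∧ (D ⊆ C ∨ Dᶜ ⊂ C)}

theorem iota_sub (hE : Nest E) (hne : ∀ A ∈ E, A.Nonempty ∧ Aᶜ.Nonempty) {A B : Set V} (hA : A ∈ E)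
    (hB : B ∈ E) (hAB : A ⊂ B) (hcon : ∀ C ∈ E, A ⊂ C → C ⊂ B → False) :
    iota E Aᶜ ⊆ iota E B := by
  rintro C ⟨hC, h | h⟩
  · refine ⟨hC, Or.inr ?_⟩
    exact lt_of_lt_of_le (compl_lt_compl_iff_lt.2 hAB) h
  · rw [compl_compl] at h
    refine ⟨hC, ?_⟩
    rcases hE.nested B hB C hC with h1 | h1 | h1 | h1
    · exact Or.inl h1
    · left
      by_contra h2
      exact hcon C hC h ⟨h1, h2⟩
    · exfalso
      obtain ⟨x, hx⟩ := (hne A hA).1
      exact h1 (hAB.1 hx) (h.1 hx)
    · right
      refine ⟨h1, fun h2 => ?_⟩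
      obtain ⟨x, hx⟩ := (hne A hA).1
      exact h2 (h.1 hx) (hAB.1 hx)

theorem iota_eq (hE : Nest E) (hne : ∀ A ∈ E, A.Nonempty ∧ Aᶜ.Nonempty) {A B : Set V} (hA : A ∈ E)
    (hB : B ∈ E) (hAB : A ⊂ B) (hcon : ∀ C ∈ E, A ⊂ C → C ⊂ B → False) :
    iota E Aᶜ = iota E B := by
  apply Set.Subset.antisymm (iota_sub hE hne hA hB hAB hcon)
  have h1 : Bᶜ ⊂ Aᶜ := compl_lt_compl_iff_lt.2 hAB
  have := iota_sub hE hne (hE.compl B hB) (hE.compl A hA) h1 (by
    intro C hC h2 h3
    refine hcon Cᶜ (hE.compl C hC) ?_ ?_
    · have := compl_lt_compl_iff_lt.2 h3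
      rwa [compl_compl] at this
    · have := compl_lt_compl_iff_lt.2 h2
      rwa [compl_compl] at this)
  rwa [compl_compl] at this

theorem iota_or (hE : Nest E) {B C : Set V} (hB : B ∈ E) (hC : C ∈ E) :
    C ∈ iota E B ∨ Cᶜ ∈ iota E B := by
  rcases hE.nested B hB C hC with h | h | h | h
  · exact Or.inl ⟨hC, Or.inl h⟩
  · by_cases h2 : B ⊆ C
    · exact Or.inl ⟨hC, Or.inl h2⟩
    · right
      exact ⟨hE.compl C hC, Or.inr (compl_lt_compl_iff_lt.2 ⟨h, h2⟩)⟩
  · exact Or.inr ⟨hE.compl C hC, Or.inl h⟩
  · by_cases h2 : C ⊆ Bᶜ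
    · right
      exact ⟨hE.compl C hC, Or.inl (fun x hx hxC => h2 hxC hx)⟩
    · left
      exact ⟨hC, Or.inr ⟨h, h2⟩⟩

theorem iota_smul {G : Type*} [Group G] [MulAction G V] (hinv : ∀ (g : G), ∀ A ∈ E, g • A ∈ E)
    (g : G) {D C : Set V} (h : C ∈ iota E D) : g • C ∈ iota E (g • D) := by
  obtain ⟨h1, h2⟩ := h
  refine ⟨hinv g C h1, ?_⟩
  rcases h2 with h2 | h2
  · exact Or.inl (Set.smul_set_mono h2)
  · right
    rw [← Set.smul_set_compl]
    refine ⟨Set.smul_set_mono h2.1, fun h => h2.2 ?_⟩
    have := Set.smul_set_mono (a := g⁻¹) h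
    simpa using this

end vertex

section base
universe u v
variable {H : Type u} {Q : Type v} [Group H] [Group Q]

/-- labels: the orbits of the kernel -/
def Lab (π : H →* Q) : Type u := MulAction.orbitRel.Quotient π.ker (Set H)

def lab (π : H →* Q) (A : Set H) : Lab π := Quotient.mk _ A

theorem lab_eq_iff {π : H →* Q} {A B : Set H} : lab π A = lab π B ↔ ∃ f ∈ π.ker, f • B = A := by
  unfold lab
  constructor
  · intro h
    obtain ⟨f, hf⟩ := Quotient.exact h
    exact ⟨f, f.2, hf⟩
  · rintro ⟨f, hf, h⟩
    exact Quotient.sound ⟨⟨f, hf⟩, h⟩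

theorem lab_smul {π : H →* Q} {g g' : H} (hg : π g = π g') {A B : Set H} (h : lab π A = lab π B) :
    lab π (g • A) = lab π (g' • B) := by
  rw [lab_eq_iff] at *
  obtain ⟨f, hf, rfl⟩ := h
  refine ⟨g * f * g'⁻¹, ?_, ?_⟩
  · rw [MonoidHom.mem_ker] at *
    rw [map_mul, map_mul, map_inv, hf, hg]
    simp
  · rw [mul_smul, inv_smul_smul, mul_smul]

/-- the action on labels -/
@[reducible] noncomputable def labAct (π : H →* Q) (hπ : Function.Surjective π) : MulAction Q (Lab π) where
  smul q l := Quotient.liftOn l (fun A => lab π ((hπ q).choose • A))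
    (fun A B h => lab_smul rfl (show lab π A = lab π B from Quotient.sound h))
  one_smul := by
    intro l
    induction l using Quotient.inductionOn with
    | h A =>
      show lab π ((hπ 1).choose • A) = lab π A
      have := lab_smul (π := π) (g := (hπ 1).choose) (g' := 1)
        (by rw [(hπ 1).choose_spec, map_one]) (A := A) (B := A) rfl
      rwa [one_smul] at this
  mul_smul := by
    intro q q' l
    induction l using Quotient.inductionOn with
    | h A =>
      show lab π ((hπ (q * q')).choose • A) = lab π ((hπ q).choose • ((hπ q').choose • A))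
      rw [← mul_smul]
      exact lab_smul (by rw [(hπ (q * q')).choose_spec, map_mul, (hπ q).choose_spec,
        (hπ q').choose_spec]) rfl

theorem labAct_apply (π : H →* Q) (hπ : Function.Surjective π) (g : H) (A : Set H) :
    (labAct π hπ).smul (π g) (lab π A) = lab π (g • A) := by
  show lab π ((hπ (π g)).choose • A) = _
  exact lab_smul (hπ (π g)).choose_spec rfl

/-- the list of letters of a path -/
def letters (π : H →* Q) (L : List (Set H)) : List (Lab π × Bool) :=
  L.flatMap (fun A => [(lab π A, true), (lab π Aᶜ, false)])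

theorem mk_letters (π : H →* Q) (L : List (Set H)) :
    FreeGroup.mk (letters π L) =
      (L.map (fun A => FreeGroup.of (lab π A) * (FreeGroup.of (lab π Aᶜ))⁻¹)).prod := by
  induction L with
  | nil => rfl
  | cons A L ih =>
    rw [List.map_cons, List.prod_cons, ← ih]
    have h1 : letters π (A :: L) = [(lab π A, true)] ++ [(lab π Aᶜ, false)] ++ letters π L := rfl
    rw [h1, ← FreeGroup.mul_mk, ← FreeGroup.mul_mk]
    rfl

theorem letters_reduced (π : H →* Q) (L : List (Set H)) (h1 : ∀ A ∈ L, lab π A ≠ lab π Aᶜ)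
    (h2 : L.IsChain (fun A B => lab π Aᶜ ≠ lab π B)) : FreeGroup.IsReduced (letters π L) := by
  induction L with
  | nil => exact FreeGroup.IsReduced.nil
  | cons A L ih =>
    cases L with
    | nil =>
      show FreeGroup.IsReduced [(lab π A, true), (lab π Aᶜ, false)]
      rw [FreeGroup.isReduced_cons_cons]
      exact ⟨fun h => absurd h (h1 A (by simp)), FreeGroup.IsReduced.singleton⟩
    | cons B L =>
      rw [List.isChain_cons_cons] at h2
      have := ih (fun C hC => h1 C (List.mem_cons_of_mem _ hC)) h2.2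
      show FreeGroup.IsReduced ((lab π A, true) :: (lab π Aᶜ, false) :: (lab π B, true) ::
        (lab π Bᶜ, false) :: letters π L)
      rw [FreeGroup.isReduced_cons_cons, FreeGroup.isReduced_cons_cons]
      exact ⟨fun h => absurd h (h1 A (by simp)), fun h => absurd h h2.1, this⟩

theorem base_hom (π : H →* Q) (hπ : Function.Surjective π) {E : Set (Set H)} (hE : Nest E)
    (hinv : ∀ g : H, ∀ A ∈ E, g • A ∈ E) (hne : ∀ A ∈ E, A.Nonempty ∧ Aᶜ.Nonempty)
    (hst : ∀ A ∈ E, ∀ g ∈ π.ker, g • A = A → g = 1)
    (hhyp : ∀ f ∈ π.ker, f ≠ 1 → ∃ A ∈ E, ∃ K : ℕ, ∀ n ≥ K, f ^ n ∈ A ∧ (f ^ n)⁻¹ ∉ A) :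
    ∃ (L : Type u) (_ : MulAction Q L) (z : H → FreeGroup L),
      (∀ g h, z (g * h) = z g * FreeGroup.map (fun l => π g • l) (z h)) ∧
      ∀ h ∈ π.ker, z h = 1 → h = 1 := by
  classical
  letI := labAct π hπ
  have hact : ∀ (g : H) (A : Set H), π g • lab π A = lab π (g • A) := labAct_apply π hπ
  set d : Set H → FreeGroup (Lab π) := fun A => FreeGroup.of (lab π A) * (FreeGroup.of (lab π Aᶜ))⁻¹
    with hd
  have hdc : ∀ A ∈ E, d Aᶜ = (d A)⁻¹ := by
    intro A _
    simp only [hd, compl_compl, mul_inv_rev, inv_inv]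
  -- torsion-freeness
  have htf : ∀ f ∈ π.ker, ∀ m : ℕ, 0 < m → f ^ m = 1 → f = 1 := by
    intro f hf m hm hfm
    by_contra hne1
    obtain ⟨A, -, K, hK⟩ := hhyp f hf hne1
    have h1 := hK (m * K) (Nat.le_mul_of_pos_left K hm)
    rw [pow_mul, hfm, one_pow, inv_one] at h1
    exact h1.2 h1.1
  have hpath : ∀ (g x y : H), hE.tp d (g * x) (g * y) =
      FreeGroup.map (fun l : Lab π => π g • l) (hE.tp d x y) := by
    intro g x y
    unfold Nest.tp
    have h1 : hE.path (g * x) (g * y) = (hE.path x y).map (fun A => g • A) :=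
      hE.path_smul hinv g x y
    rw [h1, map_list_prod, List.map_map, List.map_map]
    congr 1
    apply List.map_congr_left
    intro A _
    simp only [Function.comp, hd, map_mul, map_inv, FreeGroup.map.of, hact, Set.smul_set_compl]
  refine ⟨Lab π, inferInstance, fun h => hE.tp d 1 h, ?_, ?_⟩
  · intro g h
    have h1 := hpath g 1 h
    rw [mul_one] at h1
    simp only
    rw [← h1, hE.tp_mul d hdc]
  · intro h hh hz
    by_contra hne1
    -- key: no turning back
    have hK1 : ∀ A ∈ E, lab π A ≠ lab π Aᶜ := by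
      intro A hA heq
      obtain ⟨f, hf, hfA⟩ := lab_eq_iff.1 heq
      have h1 : f • A = Aᶜ := by
        have := congrArg compl hfA
        rw [← Set.smul_set_compl, compl_compl] at this
        exact this
      have h2 : (f * f) • A = A := by rw [mul_smul, h1, hfA]
      have h3 := hst A hA (f * f) (π.ker.mul_mem hf hf) h2
      have h4 := htf f hf 2 (by norm_num) (by rw [pow_two, h3])
      rw [h4, one_smul] at h1
      obtain ⟨x, hx⟩ := (hne A hA).1
      have : x ∈ Aᶜ := h1 ▸ hx
      exact this hx
    have hK2 : ∀ (l : List (Set H)) A B (l' : List (Set H)), hE.path 1 h = l ++ A :: B :: l' →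
        lab π Aᶜ ≠ lab π B := by
      intro l A B l' hl heq
      have hA : A ∈ hE.path 1 h := by rw [hl]; simp
      have hB : B ∈ hE.path 1 h := by rw [hl]; simp
      rw [hE.mem_path] at hA hB
      have hs := hE.path_sorted 1 h
      rw [hl, List.pairwise_append, List.pairwise_cons, List.pairwise_cons] at hs
      have hAB : A ⊂ B := hs.2.1.1 B (by simp)
      obtain ⟨f, hf, hfB⟩ := lab_eq_iff.1 heq.symm
      -- `f • Aᶜ = B`
      have hf1 : f ≠ 1 := by
        rintro rfl
        rw [one_smul] at hfB
        have h1 : (1 : H) ∈ Aᶜ := by rw [hfB]; exact hB.2.1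
        exact h1 hA.2.1
      set w := iota E Aᶜ with hw
      have hwB : w = iota E B := iota_eq hE hne hA.1 hB.1 hAB (fun C hC h1 h2 => consec hE hl hC h1 h2)
      have hfw : ∀ C ∈ w, f • C ∈ w := by
        intro C hC
        have := iota_smul hinv f hC
        rwa [hfB, ← hwB] at this
      have hfw' : ∀ C ∈ w, f⁻¹ • C ∈ w := by
        intro C hC
        rw [hwB] at hC
        have := iota_smul hinv f⁻¹ hC
        rwa [← hfB, inv_smul_smul] at this
      have hwfin : {C | C ∈ w ∧ (1 : H) ∉ C}.Finite := by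
        refine (hE.disc h 1).subset ?_
        rintro C ⟨⟨hC, h1 | h1⟩, h2⟩
        · exact ⟨hC, h1 (fun h3 => hA.2.2 h3), h2⟩
        · rw [compl_compl] at h1
          exact absurd (h1.1 hA.2.1) h2
      obtain ⟨C, hC, K, hK⟩ := hhyp f hf hf1
      have hinj : ∀ D ∈ E, Function.Injective (fun n : ℕ => f ^ n • D) := by
        have aux : ∀ D ∈ E, ∀ m n : ℕ, m < n → f ^ m • D = f ^ n • D → False := by
          intro D hD m n hmn heq
          have h1 : f ^ (n - m) • D = D := by
            have : f ^ n = f ^ m * f ^ (n - m) := by rw [← pow_add]; congr 1; omega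
            rw [this, mul_smul] at heq
            exact (smul_left_cancel _ heq).symm
          have h2 := hst D hD _ (π.ker.pow_mem hf _) h1
          exact hf1 (htf f hf (n - m) (by omega) h2)
        intro D hD m n heq
        rcases lt_trichotomy m n with h1 | h1 | h1
        · exact absurd (aux D hD m n h1 heq) (fun h => h)
        · exact h1
        · exact absurd (aux D hD n m h1 heq.symm) (fun h => h)
      have hinj' : ∀ D ∈ E, Function.Injective (fun n : ℕ => (f ^ n)⁻¹ • D) := by
        intro D hD m n heq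
        have h1 : (f ^ m)⁻¹ • D = (f ^ n)⁻¹ • D := heq
        have h2 : f ^ n • D = f ^ m • D := by
          have := congrArg (fun S => (f ^ m * f ^ n) • S) h1
          rw [smul_smul, smul_smul] at this
          have e1 : f ^ m * f ^ n * (f ^ m)⁻¹ = f ^ n := by
            rw [← pow_add, add_comm, pow_add, mul_inv_cancel_right]
          rw [e1, mul_inv_cancel_right] at this
          exact this
        exact (hinj D hD h2).symm
      rcases iota_or hE hB.1 hC with h1 | h1
      · -- C ∈ w
        rw [← hwB] at h1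
        have h2 : ∀ n, f ^ n • C ∈ w := by
          intro n
          induction n with
          | zero => rw [pow_zero, one_smul]; exact h1
          | succ n ih => rw [pow_succ', mul_smul]; exact hfw _ ih
        have h3 : (Set.range (fun n : ℕ => f ^ (n + K) • C)).Infinite := by
          apply Set.infinite_range_of_injective
          intro m n hmn
          have := hinj C hC hmn
          omega
        apply h3
        refine hwfin.subset ?_
        rintro _ ⟨n, rfl⟩
        refine ⟨h2 _, ?_⟩
        have h4 := (hK (n + K) (by omega)).2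
        intro h5
        apply h4
        have : (f ^ (n + K))⁻¹ • (1 : H) ∈ C := by
          rw [← Set.mem_smul_set_iff_inv_smul_mem]
          exact h5
        simpa using this
      · rw [← hwB] at h1
        have h2 : ∀ n, (f ^ n)⁻¹ • Cᶜ ∈ w := by
          intro n
          induction n with
          | zero => rw [pow_zero, inv_one, one_smul]; exact h1
          | succ n ih =>
            rw [pow_succ, mul_inv_rev, mul_smul]; exact hfw' _ ih
        have h3 : (Set.range (fun n : ℕ => (f ^ (n + K))⁻¹ • Cᶜ)).Infinite := by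
          apply Set.infinite_range_of_injective
          intro m n hmn
          have := hinj' Cᶜ (hE.compl C hC) hmn
          omega
        apply h3
        refine hwfin.subset ?_
        rintro _ ⟨n, rfl⟩
        refine ⟨h2 _, ?_⟩
        have h4 := (hK (n + K) (by omega)).1
        intro h5
        have h6 : f ^ (n + K) • (1 : H) ∈ Cᶜ := by
          have := (Set.mem_inv_smul_set_iff).1 h5
          exact this
        apply h6
        simpa using h4
    have hred : FreeGroup.IsReduced (letters π (hE.path 1 h)) := by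
      apply letters_reduced
      · intro A hA
        exact hK1 A (hE.mem_path.1 hA).1
      · exact isChain_of hK2
    have hz' : FreeGroup.mk (letters π (hE.path 1 h)) = 1 := by
      rw [mk_letters]; exact hz
    have hnil : letters π (hE.path 1 h) = [] := by
      have := congrArg FreeGroup.toWord hz'
      rw [FreeGroup.toWord_mk, hred.reduce_eq, FreeGroup.toWord_one] at this
      exact this
    have hpnil : hE.path 1 h = [] := by
      rcases hp : hE.path 1 h with _ | ⟨A, l⟩
      · rfl
      · rw [hp] at hnil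
        simp [letters] at hnil
    -- but the powers of `h` are separated
    obtain ⟨C, hC, K, hK⟩ := hhyp h hh hne1
    have hno : ∀ A ∈ E, ((1 : H) ∈ A ↔ h ∈ A) := by
      have aux : ∀ A ∈ E, (1 : H) ∈ A → h ∈ A := by
        intro A hA h1
        by_contra h2
        have : A ∈ hE.path 1 h := hE.mem_path.2 ⟨hA, h1, h2⟩
        rw [hpnil] at this
        simp at this
      intro A hA
      refine ⟨aux A hA, fun h2 => ?_⟩
      by_contra h1
      exact aux Aᶜ (hE.compl A hA) h1 h2
    have hall : ∀ (n : ℤ), (h ^ n ∈ C ↔ h ^ (n + 1) ∈ C) := by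
      intro n
      have := hno ((h ^ n)⁻¹ • C) (hinv _ C hC)
      rw [Set.mem_inv_smul_set_iff, Set.mem_inv_smul_set_iff] at this
      have e1 : h ^ n • (1 : H) = h ^ n := by simp
      have e2 : h ^ n • h = h ^ (n + 1) := by rw [smul_eq_mul, zpow_add_one]
      rwa [e1, e2] at this
    have hconst : ∀ (n : ℕ) (m : ℤ), (h ^ m ∈ C ↔ h ^ (m + n) ∈ C) := by
      intro n
      induction n with
      | zero => intro m; simp
      | succ n ih =>
        intro m
        rw [ih m, hall (m + n)]
        push_cast
        rw [add_assoc]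
    have h1 := hK K le_rfl
    have h2 := hconst (2 * K) (-(K : ℤ))
    have e1 : h ^ (-(K : ℤ)) = (h ^ K)⁻¹ := by rw [zpow_neg, zpow_natCast]
    have e2 : (-(K : ℤ) + ((2 * K : ℕ) : ℤ)) = (K : ℤ) := by push_cast; ring
    rw [e2, e1, zpow_natCast] at h2
    exact h1.2 (h2.2 h1.1)

end base

end Pool.Agent.Zk63.LR
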