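import Mathlib

set_option autoImplicit false
set_option linter.all false

/-!
# Minimal cuts for strictly positive weights are nested

`I c A B` is the total weight between `A` and `B`, `cap c A` the capacity of the cut `A`.
As the weight of every pair is positive, the capacity is strictly submodular on crossing cuts,
so that cuts of minimal capacity, each for its own pair of ultrafilters, are nested.
-/

namespace Pool.Agent.Zk63.LR

open scoped ENNReal
open Set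

variable {V : Type*}

/-- total weight between two sets -/
noncomputable def I (c : V → V → ℝ≥0∞) (A B : Set V) : ℝ≥0∞ :=
  ∑' p : V × V, (A ×ˢ B).indicator (fun p => c p.1 p.2) p

/-- the capacity of a cut -/
noncomputable def cap (c : V → V → ℝ≥0∞) (A : Set V) : ℝ≥0∞ := I c A Aᶜ

theorem I_mono {c : V → V → ℝ≥0∞} {A A' B B' : Set V} (hA : A ⊆ A') (hB : B ⊆ B') :
    I c A B ≤ I c A' B' := by
  refine ENNReal.tsum_le_tsum fun p => ?_
  exact Set.indicator_le_indicator_of_subset (Set.prod_mono hA hB) (fun _ => bot_le) p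

theorem I_union_left (c : V → V → ℝ≥0∞) {A A' : Set V} (B : Set V) (h : Disjoint A A') :
    I c (A ∪ A') B = I c A B + I c A' B := by
  unfold I
  rw [← ENNReal.tsum_add]
  refine tsum_congr fun p => ?_
  have hd : Disjoint (A ×ˢ B) (A' ×ˢ B) := by
    rw [Set.disjoint_left]
    rintro ⟨a, b⟩ h1 h2
    exact Set.disjoint_left.1 h h1.1 h2.1
  rw [Set.union_prod, Set.indicator_union_of_disjoint hd]

theorem I_union_right (c : V → V → ℝ≥0∞) (A : Set V) {B B' : Set V} (h : Disjoint B B') :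
    I c A (B ∪ B') = I c A B + I c A B' := by
  unfold I
  rw [← ENNReal.tsum_add]
  refine tsum_congr fun p => ?_
  have hd : Disjoint (A ×ˢ B) (A ×ˢ B') := by
    rw [Set.disjoint_left]
    rintro ⟨a, b⟩ h1 h2
    exact Set.disjoint_left.1 h h1.2 h2.2
  rw [Set.prod_union, Set.indicator_union_of_disjoint hd]

theorem I_symm {c : V → V → ℝ≥0∞} (hc : ∀ u v, c u v = c v u) (A B : Set V) :
    I c A B = I c B A := by
  unfold I
  rw [← (Equiv.prodComm V V).tsum_eq]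
  refine tsum_congr fun p => ?_
  obtain ⟨a, b⟩ := p
  by_cases h : a ∈ B ∧ b ∈ A
  · rw [Set.indicator_of_mem (by exact ⟨h.2, h.1⟩), Set.indicator_of_mem (by exact ⟨h.1, h.2⟩)]
    exact hc _ _
  · rw [Set.indicator_of_notMem (by intro h'; exact h ⟨h'.2, h'.1⟩),
      Set.indicator_of_notMem (by intro h'; exact h ⟨h'.1, h'.2⟩)]

theorem le_I {c : V → V → ℝ≥0∞} {A B : Set V} {x y : V} (hx : x ∈ A) (hy : y ∈ B) :
    c x y ≤ I c A B := by
  unfold I
  refine le_trans ?_ (ENNReal.le_tsum (x, y))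
  rw [Set.indicator_of_mem (show (x, y) ∈ A ×ˢ B from ⟨hx, hy⟩)]

theorem cap_compl {c : V → V → ℝ≥0∞} (hc : ∀ u v, c u v = c v u) (A : Set V) :
    cap c Aᶜ = cap c A := by
  unfold cap
  rw [compl_compl, I_symm hc]

theorem cap_empty (c : V → V → ℝ≥0∞) : cap c (∅ : Set V) = 0 := by
  unfold cap I
  simp

theorem le_cap {c : V → V → ℝ≥0∞} {A : Set V} {x y : V} (hx : x ∈ A) (hy : y ∉ A) :
    c x y ≤ cap c A := le_I hx hy

/-- the four parts -/
theorem submod {c : V → V → ℝ≥0∞} (hc : ∀ u v, c u v = c v u) (A B : Set V) :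
    cap c (A ∩ B) + cap c (A ∪ B) + 2 * I c (A \ B) (B \ A) = cap c A + cap c B := by
  set P := A ∩ B
  set Q := A \ B
  set R := B \ A
  set S := (A ∪ B)ᶜ
  have hPQ : Disjoint P Q := by
    rw [Set.disjoint_left]; rintro x h1 h2; exact h2.2 h1.2
  have hPR : Disjoint P R := by
    rw [Set.disjoint_left]; rintro x h1 h2; exact h2.2 h1.1
  have hQR : Disjoint Q R := by
    rw [Set.disjoint_left]; rintro x h1 h2; exact h2.2 h1.1
  have hQS : Disjoint Q S := by
    rw [Set.disjoint_left]; rintro x h1 h2; exact h2 (Or.inl h1.1)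
  have hRS : Disjoint R S := by
    rw [Set.disjoint_left]; rintro x h1 h2; exact h2 (Or.inr h1.1)
  have hPS : Disjoint P S := by
    rw [Set.disjoint_left]; rintro x h1 h2; exact h2 (Or.inl h1.1)
  have eA : A = P ∪ Q := by ext x; simp only [P, Q, mem_union, mem_inter_iff, mem_sdiff]; tauto
  have eB : B = P ∪ R := by ext x; simp only [P, R, mem_union, mem_inter_iff, mem_sdiff]; tauto
  have eAc : Aᶜ = R ∪ S := by
    ext x; simp only [R, S, mem_union, mem_sdiff, mem_compl_iff]; tauto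
  have eBc : Bᶜ = Q ∪ S := by
    ext x; simp only [Q, S, mem_union, mem_sdiff, mem_compl_iff]; tauto
  have ePc : Pᶜ = (Q ∪ R) ∪ S := by
    ext x; simp only [P, Q, R, S, mem_union, mem_sdiff, mem_compl_iff, mem_inter_iff]; tauto
  have eU : A ∪ B = (P ∪ Q) ∪ R := by
    ext x; simp only [P, Q, R, mem_union, mem_sdiff, mem_inter_iff]; tauto
  have dQR_S : Disjoint (Q ∪ R) S := by
    rw [Set.disjoint_union_left]; exact ⟨hQS, hRS⟩
  have dPQ_R : Disjoint (P ∪ Q) R := by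
    rw [Set.disjoint_union_left]; exact ⟨hPR, hQR⟩
  have h1 : cap c P = I c P Q + I c P R + I c P S := by
    unfold cap
    rw [ePc, I_union_right c P dQR_S, I_union_right c P hQR]
  have h2 : cap c (A ∪ B) = I c P S + I c Q S + I c R S := by
    unfold cap
    rw [show (A ∪ B)ᶜ = S from rfl, eU, I_union_left c S dPQ_R, I_union_left c S hPQ]
  have h3 : cap c A = I c P R + I c P S + (I c Q R + I c Q S) := by
    unfold cap
    rw [eAc]
    conv_lhs => rw [eA]
    rw [I_union_left c _ hPQ, I_union_right c P hRS, I_union_right c Q hRS]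
  have h4 : cap c B = I c P Q + I c P S + (I c R Q + I c R S) := by
    unfold cap
    rw [eBc]
    conv_lhs => rw [eB]
    rw [I_union_left c _ hPR, I_union_right c P hQS, I_union_right c R hQS]
  rw [h1, h2, h3, h4, I_symm hc R Q]
  ring

theorem submod_lt {c : V → V → ℝ≥0∞} (hc : ∀ u v, c u v = c v u)
    (hpos : ∀ u v, c u v ≠ 0) {A B : Set V} (hA : cap c A ≠ ∞) (hB : cap c B ≠ ∞)
    (h1 : (A \ B).Nonempty) (h2 : (B \ A).Nonempty) :
    cap c (A ∩ B) + cap c (A ∪ B) < cap c A + cap c B := by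
  obtain ⟨x, hx⟩ := h1
  obtain ⟨y, hy⟩ := h2
  have hI : I c (A \ B) (B \ A) ≠ 0 := by
    intro h0
    have := le_I (c := c) hx hy
    rw [h0] at this
    exact hpos x y (le_antisymm this bot_le)
  rw [← submod hc A B]
  have hfin : cap c (A ∩ B) + cap c (A ∪ B) ≠ ∞ := by
    have hs := submod hc A B
    have : cap c (A ∩ B) + cap c (A ∪ B) ≤ cap c A + cap c B := by
      rw [← hs]; exact le_self_add
    exact ne_top_of_le_ne_top (ENNReal.add_ne_top.2 ⟨hA, hB⟩) this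
  refine ENNReal.lt_add_right hfin ?_
  exact mul_ne_zero (by norm_num) hI

theorem submod_lt' {c : V → V → ℝ≥0∞} (hc : ∀ u v, c u v = c v u)
    (hpos : ∀ u v, c u v ≠ 0) {A B : Set V} (hA : cap c A ≠ ∞) (hB : cap c B ≠ ∞)
    (h1 : (A ∩ B).Nonempty) (h2 : ((A ∪ B)ᶜ).Nonempty) :
    cap c (A \ B) + cap c (B \ A) < cap c A + cap c B := by
  have e1 : A \ Bᶜ = A ∩ B := by ext x; simp
  have e2 : Bᶜ \ A = (A ∪ B)ᶜ := by
    ext x; simp only [mem_sdiff, mem_compl_iff, mem_union]; tauto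
  have e3 : A ∩ Bᶜ = A \ B := rfl
  have e4 : A ∪ Bᶜ = (B \ A)ᶜ := by
    ext x; simp only [mem_union, mem_compl_iff, mem_sdiff]; tauto
  have := submod_lt hc hpos (A := A) (B := Bᶜ) hA (by rwa [cap_compl hc])
    (by rwa [e1]) (by rwa [e2])
  rwa [e3, e4, cap_compl hc, cap_compl hc] at this

/-- `A` has minimal capacity among the sets separating `p` and `q` -/
structure IsMin (c : V → V → ℝ≥0∞) (p q : Ultrafilter V) (A : Set V) : Prop where
  mem : A ∈ p
  notMem : A ∉ q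
  fin : cap c A ≠ ∞
  le : ∀ X : Set V, X ∈ p → X ∉ q → cap c A ≤ cap c X

theorem IsMin.le' {c : V → V → ℝ≥0∞} (hc : ∀ u v, c u v = c v u) {p q : Ultrafilter V}
    {A : Set V} (h : IsMin c p q A) {X : Set V} (hX : X ∉ p) (hX' : X ∈ q) :
    cap c A ≤ cap c X := by
  rw [← cap_compl hc X]
  refine h.le _ (Ultrafilter.compl_mem_iff_notMem.2 hX) ?_
  rw [Ultrafilter.compl_mem_iff_notMem]
  exact not_not.2 hX'

theorem IsMin.compl {c : V → V → ℝ≥0∞} (hc : ∀ u v, c u v = c v u) {p q : Ultrafilter V}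
    {A : Set V} (h : IsMin c p q A) : IsMin c q p Aᶜ where
  mem := Ultrafilter.compl_mem_iff_notMem.2 h.notMem
  notMem := by
    rw [Ultrafilter.compl_mem_iff_notMem]
    exact not_not.2 h.mem
  fin := by rw [cap_compl hc]; exact h.fin
  le := by
    intro X hX hX'
    rw [cap_compl hc]
    exact h.le' hc hX' hX

/-- the key lemma: minimal cuts are nested -/
theorem IsMin.nested {c : V → V → ℝ≥0∞} (hc : ∀ u v, c u v = c v u)
    (hpos : ∀ u v, c u v ≠ 0) {p q p' q' : Ultrafilter V} {A B : Set V}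
    (hA : IsMin c p q A) (hB : IsMin c p' q' B) :
    A ⊆ B ∨ B ⊆ A ∨ A ⊆ Bᶜ ∨ Aᶜ ⊆ B := by
  by_contra hcon
  push Not at hcon
  obtain ⟨n1, n2, n3, n4⟩ := hcon
  have x1 : (A \ B).Nonempty := Set.sdiff_nonempty.2 n1
  have x2 : (B \ A).Nonempty := Set.sdiff_nonempty.2 n2
  have x3 : (A ∩ B).Nonempty := by
    by_contra h
    rw [Set.not_nonempty_iff_eq_empty] at h
    exact n3 (Set.subset_compl_iff_disjoint_right.2 (Set.disjoint_iff_inter_eq_empty.2 h))
  have x4 : ((A ∪ B)ᶜ).Nonempty := by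
    by_contra h
    rw [Set.not_nonempty_iff_eq_empty, Set.compl_empty_iff] at h
    apply n4
    intro x hx
    have : x ∈ A ∪ B := by rw [h]; trivial
    exact this.resolve_left hx
  have s1 := submod_lt hc hpos hA.fin hB.fin x1 x2
  have s2 := submod_lt' hc hpos hA.fin hB.fin x3 x4
  set a := cap c A
  set b := cap c B
  -- combinations that give a contradiction
  have k1 : a ≤ cap c (A ∩ B) → b ≤ cap c (A ∪ B) → False := fun h h' =>
    absurd (lt_of_le_of_lt (add_le_add h h') s1) (lt_irrefl _)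
  have k2 : b ≤ cap c (A ∩ B) → a ≤ cap c (A ∪ B) → False := fun h h' =>
    absurd (lt_of_le_of_lt (add_le_add h h') (by rw [add_comm b a]; exact s1)) (lt_irrefl _)
  have k3 : a ≤ cap c (A \ B) → b ≤ cap c (B \ A) → False := fun h h' =>
    absurd (lt_of_le_of_lt (add_le_add h h') s2) (lt_irrefl _)
  have k4 : b ≤ cap c (A \ B) → a ≤ cap c (B \ A) → False := fun h h' =>
    absurd (lt_of_le_of_lt (add_le_add h h') (by rw [add_comm b a]; exact s2)) (lt_irrefl _)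
  have mI : ∀ r : Ultrafilter V, A ∩ B ∈ r ↔ A ∈ r ∧ B ∈ r := fun r => Filter.inter_mem_iff
  have mU : ∀ r : Ultrafilter V, A ∪ B ∈ r ↔ A ∈ r ∨ B ∈ r := fun r => Ultrafilter.union_mem_iff
  have mD : ∀ r : Ultrafilter V, A \ B ∈ r ↔ A ∈ r ∧ B ∉ r := fun r => by
    have e : A \ B = A ∩ Bᶜ := rfl
    rw [e, ← Ultrafilter.compl_mem_iff_notMem]
    exact Filter.inter_mem_iff
  have mE : ∀ r : Ultrafilter V, B \ A ∈ r ↔ B ∈ r ∧ A ∉ r := fun r => by
    have e : B \ A = B ∩ Aᶜ := rfl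
    rw [e, ← Ultrafilter.compl_mem_iff_notMem]
    exact Filter.inter_mem_iff
  have pA := hA.mem
  have qA := hA.notMem
  have pB := hB.mem
  have qB := hB.notMem
  have sa := hA.le
  have sa' := fun X (h : X ∉ p) h' => hA.le' hc (X := X) h h'
  have sb := hB.le
  have sb' := fun X (h : X ∉ p') h' => hB.le' hc (X := X) h h'
  by_cases c1 : B ∈ p <;> by_cases c2 : B ∈ q <;> by_cases c3 : A ∈ p' <;> by_cases c4 : A ∈ q'
  · exact k4 (sb' _ (by rw [mD]; simp [pA, qA, pB, qB, c1, c2, c3, c4]) (by rw [mD]; simp [pA, qA, pB, qB, c1, c2, c3, c4])) (sa' _ (by rw [mE]; simp [pA, qA, pB, qB, c1, c2, c3, c4]) (by rw [mE]; simp [pA, qA, pB, qB, c1, c2, c3, c4]))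
  · exact k1 (sa _ (by rw [mI]; simp [pA, qA, pB, qB, c1, c2, c3, c4]) (by rw [mI]; simp [pA, qA, pB, qB, c1, c2, c3, c4])) (sb _ (by rw [mU]; simp [pA, qA, pB, qB, c1, c2, c3, c4]) (by rw [mU]; simp [pA, qA, pB, qB, c1, c2, c3, c4]))
  · exact k4 (sb' _ (by rw [mD]; simp [pA, qA, pB, qB, c1, c2, c3, c4]) (by rw [mD]; simp [pA, qA, pB, qB, c1, c2, c3, c4])) (sa' _ (by rw [mE]; simp [pA, qA, pB, qB, c1, c2, c3, c4]) (by rw [mE]; simp [pA, qA, pB, qB, c1, c2, c3, c4]))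
  · exact k1 (sa _ (by rw [mI]; simp [pA, qA, pB, qB, c1, c2, c3, c4]) (by rw [mI]; simp [pA, qA, pB, qB, c1, c2, c3, c4])) (sb _ (by rw [mU]; simp [pA, qA, pB, qB, c1, c2, c3, c4]) (by rw [mU]; simp [pA, qA, pB, qB, c1, c2, c3, c4]))
  · exact k2 (sb _ (by rw [mI]; simp [pA, qA, pB, qB, c1, c2, c3, c4]) (by rw [mI]; simp [pA, qA, pB, qB, c1, c2, c3, c4])) (sa _ (by rw [mU]; simp [pA, qA, pB, qB, c1, c2, c3, c4]) (by rw [mU]; simp [pA, qA, pB, qB, c1, c2, c3, c4]))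
  · exact k2 (sb _ (by rw [mI]; simp [pA, qA, pB, qB, c1, c2, c3, c4]) (by rw [mI]; simp [pA, qA, pB, qB, c1, c2, c3, c4])) (sa _ (by rw [mU]; simp [pA, qA, pB, qB, c1, c2, c3, c4]) (by rw [mU]; simp [pA, qA, pB, qB, c1, c2, c3, c4]))
  · exact k1 (sa _ (by rw [mI]; simp [pA, qA, pB, qB, c1, c2, c3, c4]) (by rw [mI]; simp [pA, qA, pB, qB, c1, c2, c3, c4]))
      (le_trans (sb' A c3 c4) (sa _ (by rw [mU]; simp [pA, qA, pB, qB, c1, c2, c3, c4]) (by rw [mU]; simp [pA, qA, pB, qB, c1, c2, c3, c4])))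
  · exact k1 (sa _ (by rw [mI]; simp [pA, qA, pB, qB, c1, c2, c3, c4]) (by rw [mI]; simp [pA, qA, pB, qB, c1, c2, c3, c4])) (sb _ (by rw [mU]; simp [pA, qA, pB, qB, c1, c2, c3, c4]) (by rw [mU]; simp [pA, qA, pB, qB, c1, c2, c3, c4]))
  · exact k4 (sb' _ (by rw [mD]; simp [pA, qA, pB, qB, c1, c2, c3, c4]) (by rw [mD]; simp [pA, qA, pB, qB, c1, c2, c3, c4])) (sa' _ (by rw [mE]; simp [pA, qA, pB, qB, c1, c2, c3, c4]) (by rw [mE]; simp [pA, qA, pB, qB, c1, c2, c3, c4]))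
  · exact k3 (sa _ (by rw [mD]; simp [pA, qA, pB, qB, c1, c2, c3, c4]) (by rw [mD]; simp [pA, qA, pB, qB, c1, c2, c3, c4]))
      (le_trans (sb A c3 c4) (sa' _ (by rw [mE]; simp [pA, qA, pB, qB, c1, c2, c3, c4]) (by rw [mE]; simp [pA, qA, pB, qB, c1, c2, c3, c4])))
  · exact k3 (sa _ (by rw [mD]; simp [pA, qA, pB, qB, c1, c2, c3, c4]) (by rw [mD]; simp [pA, qA, pB, qB, c1, c2, c3, c4])) (sb _ (by rw [mE]; simp [pA, qA, pB, qB, c1, c2, c3, c4]) (by rw [mE]; simp [pA, qA, pB, qB, c1, c2, c3, c4]))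
  · exact k3 (sa _ (by rw [mD]; simp [pA, qA, pB, qB, c1, c2, c3, c4]) (by rw [mD]; simp [pA, qA, pB, qB, c1, c2, c3, c4])) (sb _ (by rw [mE]; simp [pA, qA, pB, qB, c1, c2, c3, c4]) (by rw [mE]; simp [pA, qA, pB, qB, c1, c2, c3, c4]))
  · exact k2 (sb _ (by rw [mI]; simp [pA, qA, pB, qB, c1, c2, c3, c4]) (by rw [mI]; simp [pA, qA, pB, qB, c1, c2, c3, c4])) (sa _ (by rw [mU]; simp [pA, qA, pB, qB, c1, c2, c3, c4]) (by rw [mU]; simp [pA, qA, pB, qB, c1, c2, c3, c4]))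
  · exact k2 (sb _ (by rw [mI]; simp [pA, qA, pB, qB, c1, c2, c3, c4]) (by rw [mI]; simp [pA, qA, pB, qB, c1, c2, c3, c4])) (sa _ (by rw [mU]; simp [pA, qA, pB, qB, c1, c2, c3, c4]) (by rw [mU]; simp [pA, qA, pB, qB, c1, c2, c3, c4]))
  · exact k3 (sa _ (by rw [mD]; simp [pA, qA, pB, qB, c1, c2, c3, c4]) (by rw [mD]; simp [pA, qA, pB, qB, c1, c2, c3, c4])) (sb _ (by rw [mE]; simp [pA, qA, pB, qB, c1, c2, c3, c4]) (by rw [mE]; simp [pA, qA, pB, qB, c1, c2, c3, c4]))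
  · exact k3 (sa _ (by rw [mD]; simp [pA, qA, pB, qB, c1, c2, c3, c4]) (by rw [mD]; simp [pA, qA, pB, qB, c1, c2, c3, c4])) (sb _ (by rw [mE]; simp [pA, qA, pB, qB, c1, c2, c3, c4]) (by rw [mE]; simp [pA, qA, pB, qB, c1, c2, c3, c4]))

end Pool.Agent.Zk63.LR
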