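import Pool.Agent.Zk63.LR.Rel

set_option autoImplicit false
set_option linter.all false

/-!
# Monotone sequences of minimal cuts
-/

namespace Pool.Agent.Zk63.LR

open scoped ENNReal Topology
open Set Filter

variable {V : Type*}

section
variable {c : V → V → ℝ≥0∞} {A : ℕ → Set V}

theorem cap_iUnion_le (hmono : Monotone A) {C : ℝ≥0∞} (hC : ∀ i, cap c (A i) ≤ C) :
    cap c (⋃ i, A i) ≤ C := by
  classical
  unfold cap I
  rw [ENNReal.tsum_eq_iSup_sum]
  refine iSup_le fun s => ?_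
  have : ∃ N, ∀ p ∈ s, p.1 ∈ (⋃ i, A i) → p.1 ∈ A N := by
    induction s using Finset.induction_on with
    | empty => exact ⟨0, by simp⟩
    | insert a s ha ih =>
      obtain ⟨N, hN⟩ := ih
      by_cases h : a.1 ∈ (⋃ i, A i)
      · obtain ⟨M, hM⟩ := Set.mem_iUnion.1 h
        refine ⟨max N M, ?_⟩
        intro p hp hpU
        rw [Finset.mem_insert] at hp
        rcases hp with rfl | hp
        · exact hmono (le_max_right _ _) hM
        · exact hmono (le_max_left _ _) (hN p hp hpU)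
      · refine ⟨N, ?_⟩
        intro p hp hpU
        rw [Finset.mem_insert] at hp
        rcases hp with rfl | hp
        · exact absurd hpU h
        · exact hN p hp hpU
  obtain ⟨N, hN⟩ := this
  refine le_trans ?_ (hC N)
  unfold cap I
  refine le_trans ?_ (ENNReal.sum_le_tsum s)
  refine Finset.sum_le_sum fun p hp => ?_
  by_cases h : p ∈ (⋃ i, A i) ×ˢ (⋃ i, A i)ᶜ
  · rw [Set.indicator_of_mem h, Set.indicator_of_mem]
    exact ⟨hN p hp h.1, fun h' => h.2 (Set.mem_iUnion.2 ⟨N, h'⟩)⟩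
  · rw [Set.indicator_of_notMem h]
    exact bot_le

theorem tail_small (hmono : Monotone A) (hfin : cap c (⋃ i, A i) ≠ ∞) {ε : ℝ≥0∞} (hε : ε ≠ 0) :
    ∃ N, ∀ i, N ≤ i → I c ((⋃ i, A i) \ A i) (⋃ i, A i)ᶜ ≤ ε := by
  classical
  set T := ⋃ i, A i with hT
  have h1 := ENNReal.tendsto_tsum_compl_atTop_zero hfin
  have h2 := (ENNReal.tendsto_nhds_zero.1 h1 ε (pos_iff_ne_zero.2 hε)).exists
  obtain ⟨s, hs⟩ := h2
  have : ∃ N, ∀ p ∈ s, p.1 ∈ T → p.1 ∈ A N := by
    clear hs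
    induction s using Finset.induction_on with
    | empty => exact ⟨0, by simp⟩
    | insert a s ha ih =>
      obtain ⟨N, hN⟩ := ih
      by_cases h : a.1 ∈ T
      · obtain ⟨M, hM⟩ := Set.mem_iUnion.1 h
        refine ⟨max N M, ?_⟩
        intro p hp hpU
        rw [Finset.mem_insert] at hp
        rcases hp with rfl | hp
        · exact hmono (le_max_right _ _) hM
        · exact hmono (le_max_left _ _) (hN p hp hpU)
      · refine ⟨N, ?_⟩
        intro p hp hpU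
        rw [Finset.mem_insert] at hp
        rcases hp with rfl | hp
        · exact absurd hpU h
        · exact hN p hp hpU
  obtain ⟨N, hN⟩ := this
  refine ⟨N, fun i hi => le_trans ?_ hs⟩
  have e : (∑' b : { x // x ∉ s }, (T ×ˢ Tᶜ).indicator (fun p => c p.1 p.2) b.1) =
      ∑' p, ({x | x ∉ s} : Set (V × V)).indicator ((T ×ˢ Tᶜ).indicator (fun p => c p.1 p.2)) p :=
    tsum_subtype ({x | x ∉ s} : Set (V × V)) _
  rw [e]
  unfold I
  refine ENNReal.tsum_le_tsum fun p => ?_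
  by_cases h : p ∈ (T \ A i) ×ˢ Tᶜ
  · have h3 : p ∉ s := by
      intro hp
      exact h.1.2 (hmono hi (hN p hp h.1.1))
    rw [Set.indicator_of_mem h, Set.indicator_of_mem (by exact h3),
      Set.indicator_of_mem (show p ∈ T ×ˢ Tᶜ from ⟨h.1.1, h.2⟩)]
  · rw [Set.indicator_of_notMem h]
    exact bot_le

variable (hc : ∀ u v, c u v = c v u)
include hc

theorem cap_decomp (hmono : Monotone A) (i : ℕ) :
    cap c (A i) = I c (A i) ((⋃ i, A i) \ A i) + I c (A i) (⋃ i, A i)ᶜ ∧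
    cap c ((⋃ i, A i) \ A i) =
      I c (A i) ((⋃ i, A i) \ A i) + I c ((⋃ i, A i) \ A i) (⋃ i, A i)ᶜ ∧
    cap c (⋃ i, A i) = I c (A i) (⋃ i, A i)ᶜ + I c ((⋃ i, A i) \ A i) (⋃ i, A i)ᶜ := by
  set T := ⋃ i, A i with hT
  have hsub : A i ⊆ T := Set.subset_iUnion A i
  have e1 : (A i)ᶜ = (T \ A i) ∪ Tᶜ := by
    ext z
    have := @hsub z
    simp only [mem_compl_iff, mem_union, Set.mem_sdiff]
    tauto
  have e2 : (T \ A i)ᶜ = A i ∪ Tᶜ := by
    ext z
    have := @hsub z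
    simp only [mem_compl_iff, mem_union, Set.mem_sdiff]
    tauto
  have e3 : T = A i ∪ (T \ A i) := by
    ext z
    have := @hsub z
    simp only [mem_union, Set.mem_sdiff]
    tauto
  have d1 : Disjoint (T \ A i) Tᶜ := by
    rw [Set.disjoint_left]; rintro z h1 h2; exact h2 h1.1
  have d2 : Disjoint (A i) Tᶜ := by
    rw [Set.disjoint_left]; rintro z h1 h2; exact h2 (hsub h1)
  have d3 : Disjoint (A i) (T \ A i) := by
    rw [Set.disjoint_left]; rintro z h1 h2; exact h2.2 h1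
  refine ⟨?_, ?_, ?_⟩
  · show I c (A i) (A i)ᶜ = _
    rw [e1, I_union_right c _ d1]
  · show I c (T \ A i) (T \ A i)ᶜ = _
    rw [e2, I_union_right c _ d2, I_symm hc (T \ A i) (A i)]
  · show I c T Tᶜ = _
    rw [← I_union_left c _ d3, ← e3]

theorem limit_cut (hpos : ∀ u v, c u v ≠ 0) (hmono : Monotone A) {p q : ℕ → Ultrafilter V}
    (hmin : ∀ i, IsMin c (p i) (q i) (A i)) {C : ℝ≥0∞} (hCt : C ≠ ∞) (hC : ∀ i, cap c (A i) ≤ C)
    {x y : V} (hx : x ∈ A 0) (hy : ∀ i, y ∉ A i) {ε : ℝ≥0∞} (hε : ε ≠ 0) :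
    ∃ N, ∀ i, N ≤ i → (⋃ i, A i) ∉ q i ∧ cap c ((⋃ i, A i) \ A i) ≤ ε := by
  set T := ⋃ i, A i with hT
  have hTfin : cap c T ≠ ∞ := ne_top_of_le_ne_top hCt (cap_iUnion_le hmono hC)
  have hxy : c x y ≠ ∞ := ne_top_of_le_ne_top (ne_top_of_le_ne_top hCt (hC 0)) (le_cap hx (hy 0))
  have hxy2 : c x y / 2 ≠ 0 := (ENNReal.half_pos (hpos x y)).ne'
  have hε2 : ε / 2 ≠ 0 := (ENNReal.half_pos hε).ne'
  obtain ⟨N1, hN1⟩ := tail_small hmono hTfin hxy2
  obtain ⟨N2, hN2⟩ := tail_small hmono hTfin hε2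
  refine ⟨max N1 N2, fun i hi => ?_⟩
  obtain ⟨d1, d2, d3⟩ := cap_decomp hc hmono i
  rw [← hT] at d1 d2 d3
  have hAi : cap c (A i) ≠ ∞ := (hmin i).fin
  have hID : I c (A i) (T \ A i) ≠ ∞ := by
    refine ne_top_of_le_ne_top hAi ?_
    rw [d1]; exact le_self_add
  have hIT : I c (A i) Tᶜ ≠ ∞ := by
    refine ne_top_of_le_ne_top hAi ?_
    rw [d1]; exact le_add_self
  have hq : T ∉ q i := by
    intro hTq
    have h1 : T \ A i ∈ q i := by
      have : T ∩ (A i)ᶜ ∈ q i :=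
        Filter.inter_mem hTq (Ultrafilter.compl_mem_iff_notMem.2 (hmin i).notMem)
      exact this
    have h2 : T \ A i ∉ p i := by
      intro h
      have h3 := Filter.inter_mem h (hmin i).mem
      have h4 : (T \ A i) ∩ A i = ∅ := by ext z; simp
      rw [h4] at h3
      exact (p i).neBot.ne (Filter.empty_mem_iff_bot.1 h3)
    have h3 := (hmin i).le' hc h2 h1
    rw [d1, d2] at h3
    have h4 : I c (A i) Tᶜ ≤ I c (T \ A i) Tᶜ := (ENNReal.add_le_add_iff_left hID).1 h3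
    have h5 : c x y ≤ I c (A i) Tᶜ := by
      refine le_I (hmono (Nat.zero_le i) hx) ?_
      intro hyT
      obtain ⟨j, hj⟩ := Set.mem_iUnion.1 hyT
      exact hy j hj
    have h6 := hN1 i ((le_max_left _ _).trans hi)
    have h7 : c x y ≤ c x y / 2 := h5.trans (h4.trans h6)
    exact absurd (lt_of_le_of_lt h7 (ENNReal.half_lt_self (hpos x y) hxy)) (lt_irrefl _)
  refine ⟨hq, ?_⟩
  have hTp : T ∈ p i := Filter.mem_of_superset (hmin i).mem (Set.subset_iUnion A i)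
  have h3 := (hmin i).le T hTp hq
  rw [d1, d3, add_comm (I c (A i) Tᶜ)] at h3
  have h4 : I c (A i) (T \ A i) ≤ I c (T \ A i) Tᶜ := (ENNReal.add_le_add_iff_right hIT).1 h3
  have h5 := hN2 i ((le_max_right _ _).trans hi)
  rw [d2]
  calc I c (A i) (T \ A i) + I c (T \ A i) Tᶜ ≤ ε / 2 + ε / 2 := add_le_add (h4.trans h5) h5
    _ = ε := ENNReal.add_halves ε

end

end Pool.Agent.Zk63.LR
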