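import Pool.Agent.Zk63.LR.Tele

set_option autoImplicit false
set_option linter.all false

/-!
# Extension of crossed homomorphisms from the stabilizer of a point
-/

namespace Pool.Agent.Zk63.LR

open scoped Pointwise
open Set

variable {V G W : Type*} [Group G] [MulAction G V] [Group W]

theorem ext_crossed {E : Set (Set V)} (hE : Nest E) (hinv : ∀ (g : G), ∀ A ∈ E, g • A ∈ E)
    (hsep : ∀ u v : V, u ≠ v → ∃ A ∈ E, u ∈ A ∧ v ∉ A) (φ : G →* MulAut W)
    (hH1 : ∀ A ∈ E, ∀ δ : G → W,
      (∀ g ∈ MulAction.stabilizer G A, ∀ h ∈ MulAction.stabilizer G A, δ (g * h) = δ g * φ g (δ h)) →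
      ∃ r : W, ∀ g ∈ MulAction.stabilizer G A, δ g * φ g r = r)
    (u₁ : V) (htr : ∀ v : V, ∃ g : G, g • u₁ = v) (z₁ : G → W)
    (hz₁ : ∀ g ∈ MulAction.stabilizer G u₁, ∀ h ∈ MulAction.stabilizer G u₁,
      z₁ (g * h) = z₁ g * φ g (z₁ h)) :
    ∃ z : G → W, (∀ g h, z (g * h) = z g * φ g (z h)) ∧
      ∀ g ∈ MulAction.stabilizer G u₁, z g = z₁ g := by
  classical
  haveI : Nonempty V := ⟨u₁⟩
  have hφ : ∀ (g h : G) (w : W), φ (g * h) w = φ g (φ h w) := by
    intro g h w; rw [map_mul]; rfl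
  have hφ1 : ∀ w : W, φ 1 w = w := by intro w; rw [map_one]; rfl
  -- section
  obtain ⟨σ, hσ, hσ1⟩ : ∃ σ : V → G, (∀ v, σ v • u₁ = v) ∧ σ u₁ = 1 := by
    choose σ hσ using htr
    refine ⟨fun v => if v = u₁ then 1 else σ v, ?_, by simp⟩
    intro v
    by_cases h : v = u₁
    · simp [h]
    · simp [h, hσ]
  set ζ : G → V → W := fun g x => φ (σ (g • x)) (z₁ ((σ (g • x))⁻¹ * g * σ x)) with hζ
  have hmem : ∀ (g : G) (x : V), (σ (g • x))⁻¹ * g * σ x ∈ MulAction.stabilizer G u₁ := by
    intro g x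
    rw [MulAction.mem_stabilizer_iff, mul_smul, mul_smul, hσ, inv_smul_eq_iff, hσ]
  have hcoc : ∀ (g g' : G) (x : V), ζ (g * g') x = ζ g (g' • x) * φ g (ζ g' x) := by
    intro g g' x
    simp only [hζ]
    have e1 : (σ ((g * g') • x))⁻¹ * (g * g') * σ x =
        ((σ (g • g' • x))⁻¹ * g * σ (g' • x)) * ((σ (g' • x))⁻¹ * g' * σ x) := by
      rw [mul_smul]; group
    rw [e1, hz₁ _ (hmem g (g' • x)) _ (hmem g' x), map_mul, mul_smul, ← hφ, ← hφ]
    congr 3
    group
  have hζ1 : ∀ g ∈ MulAction.stabilizer G u₁, ζ g u₁ = z₁ g := by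
    intro g hg
    have : g • u₁ = u₁ := hg
    simp only [hζ, this, hσ1, hφ1]
    congr 1
    group
  -- the points r
  have hfix : ∀ (A : Set V) (v : V), At E v A → ∃ r : W, ∀ g ∈ MulAction.stabilizer G A,
      ζ g v * φ g r = r := by
    intro A v hv
    refine hH1 A hv.1 (fun g => ζ g v) ?_
    intro g hg h hh
    have hhv : h • v = v := by
      have h1 := hv.smul hinv h
      rw [show h • A = A from hh] at h1
      exact h1.unique hE hsep hv
    show ζ (g * h) v = ζ g v * φ g (ζ h v)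
    rw [hcoc, hhv]
  have hwd : ∀ (B : Set V) (v : V) (r : W), At E v B →
      (∀ g ∈ MulAction.stabilizer G B, ζ g v * φ g r = r) → ∀ g g' : G, g • B = g' • B →
      ζ g v * φ g r = ζ g' v * φ g' r := by
    intro B v r hv hr g g' hgg
    have hs : g'⁻¹ * g ∈ MulAction.stabilizer G B := by
      rw [MulAction.mem_stabilizer_iff, mul_smul, hgg, inv_smul_smul]
    have h1 := hr _ hs
    have hsv : (g'⁻¹ * g) • v = v := by
      have h1 := hv.smul hinv (g'⁻¹ * g)
      rw [show (g'⁻¹ * g) • B = B from hs] at h1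
      exact h1.unique hE hsep hv
    have e : g = g' * (g'⁻¹ * g) := by group
    conv_lhs => rw [e, hcoc, hsv, hφ, mul_assoc, ← map_mul, h1]
  obtain ⟨r, hr1, hr2⟩ : ∃ r : Set V → W, (∀ (g : G) (A : Set V) (v : V), At E v A →
      r (g • A) = ζ g v * φ g (r A)) ∧ (∀ A, (¬ ∃ v, At E v A) → r A = 1) := by
    -- representatives of orbits
    let rep : Set V → Set V := fun A => (Quotient.out (Quotient.mk (MulAction.orbitRel G (Set V)) A))
    have hrep : ∀ A, ∃ g : G, g • rep A = A := by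
      intro A
      have h1 : Quotient.mk (MulAction.orbitRel G (Set V)) A =
        Quotient.mk (MulAction.orbitRel G (Set V)) (rep A) := (Quotient.out_eq _).symm
      have h2 := Quotient.exact h1
      exact h2
    have hrep2 : ∀ (g : G) A, rep (g • A) = rep A := by
      intro g A
      simp only [rep]
      congr 1
      exact Quotient.sound ⟨g, rfl⟩
    choose γ hγ using hrep
    choose! v₀ hv₀ using fun (A : Set V) (h : ∃ v, At E v A) => h
    choose! r₀ hr₀ using fun (A : Set V) (h : ∃ v, At E v A) => hfix A (v₀ A) (hv₀ A h)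
    refine ⟨fun A => if ∃ v, At E v (rep A) then ζ (γ A) (v₀ (rep A)) * φ (γ A) (r₀ (rep A)) else 1,
      ?_, ?_⟩
    · intro g A v hv
      have h1 : ∃ v, At E v (rep A) := by
        refine ⟨(γ A)⁻¹ • v, ?_⟩
        have := hv.smul hinv (γ A)⁻¹
        rwa [show (γ A)⁻¹ • A = rep A by rw [inv_smul_eq_iff]; exact (hγ A).symm] at this
      simp only [hrep2, if_pos h1]
      have hv' : γ A • v₀ (rep A) = v := by
        have h2 := (hv₀ _ h1).smul hinv (γ A)
        rw [hγ A] at h2
        exact h2.unique hE hsep hv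
      rw [map_mul, ← mul_assoc, ← hφ g (γ A), ← hv', ← hcoc]
      refine hwd (rep A) _ _ (hv₀ _ h1) (hr₀ _ h1) _ _ ?_
      rw [mul_smul, hγ A]
      have := hγ (g • A)
      rwa [hrep2] at this
    · intro A hA
      have h1 : ¬ ∃ v, At E v (rep A) := by
        rintro ⟨v, hv⟩
        apply hA
        refine ⟨γ A • v, ?_⟩
        have := hv.smul hinv (γ A)
        rwa [hγ A] at this
      simp only [if_neg h1]
  set d : Set V → W := fun A => r A * (r Aᶜ)⁻¹ with hd
  have hdc : ∀ A ∈ E, d Aᶜ = (d A)⁻¹ := by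
    intro A _
    simp only [hd, compl_compl, mul_inv_rev, inv_inv]
  have hgauge : ∀ (g : G) (x y : V), hE.tp d (g • x) (g • y) =
      ζ g x * φ g (hE.tp d x y) * (ζ g y)⁻¹ := by
    intro g x y
    set k : Set V → W := fun A => if h : ∃ v, At E v A then ζ g h.choose else 1 with hk
    have hkat : ∀ v A, At E v A → k A = ζ g v := by
      intro v A hv
      have h : ∃ v, At E v A := ⟨v, hv⟩
      simp only [hk, dif_pos h]
      rw [h.choose_spec.unique hE hsep hv]
    have hkno : ∀ A, (¬ ∃ v, At E v A) → k A = 1 := by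
      intro A h
      simp only [hk, dif_neg h]
    have hrk : ∀ A, r (g • A) = k A * φ g (r A) := by
      intro A
      by_cases h : ∃ v, At E v A
      · obtain ⟨v, hv⟩ := h
        rw [hr1 g A v hv, hkat v A hv]
      · rw [hkno A h, hr2 A h, map_one, one_mul]
        apply hr2
        rintro ⟨v, hv⟩
        apply h
        refine ⟨g⁻¹ • v, ?_⟩
        have := hv.smul hinv g⁻¹
        rwa [inv_smul_smul] at this
    have h1 : hE.tp d (g • x) (g • y) = ((hE.path x y).map (fun A => d (g • A))).prod := by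
      unfold Nest.tp
      rw [hE.path_smul hinv, List.map_map]
      rfl
    rw [h1]
    refine hE.tp_gauge (φ g : W ≃* W).toMonoidHom d (fun A => d (g • A)) k (ζ g) ?_ ?_ hkat hsep x y
    · intro A _
      simp only [hd]
      rw [← Set.smul_set_compl, hrk A, hrk Aᶜ]
      show _ = k A * φ g (r A * (r Aᶜ)⁻¹) * (k Aᶜ)⁻¹
      rw [map_mul, map_inv]
      group
    · intro A hA B hB h
      by_cases hAv : ∃ v, At E v A
      · obtain ⟨v, hv⟩ := hAv
        rw [hkat v A hv, hkat v B ((h v).1 hv)]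
      · have hBv : ¬ ∃ v, At E v B := by
          rintro ⟨v, hv⟩
          exact hAv ⟨v, (h v).2 hv⟩
        rw [hkno A hAv, hkno B hBv]
  refine ⟨fun g => hE.tp d u₁ (g • u₁) * ζ g u₁, ?_, ?_⟩
  · intro g h
    simp only
    rw [← hE.tp_mul d hdc u₁ (g • u₁) ((g * h) • u₁), mul_smul, hgauge g u₁ (h • u₁), hcoc,
      map_mul]
    group
  · intro g hg
    have : g • u₁ = u₁ := hg
    simp only [this]
    rw [hE.tp_self, one_mul, hζ1 g hg]

end Pool.Agent.Zk63.LR
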