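import Mathlib

set_option autoImplicit false
set_option linter.all false

/-!
# Half spaces of a free group
-/

namespace Pool.Agent.Zk63.LR

open Set

variable {B : Type*}

open Classical in
/-- the reduced word of `z` ends with the letter `b` -/
def Ends (b : B) (z : FreeGroup B) : Prop := z.toWord.getLast? = some (b, true)

open Classical in
theorem letter_mul (c : B × Bool) (z : FreeGroup B) :
    (∃ t, z.toWord = (c.1, !c.2) :: t ∧ (FreeGroup.mk [c] * z).toWord = t) ∨
    ((FreeGroup.mk [c] * z).toWord = c :: z.toWord ∧ ∀ t, z.toWord ≠ (c.1, !c.2) :: t) := by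
  have h1 : (FreeGroup.mk [c] * z).toWord = FreeGroup.reduce (c :: z.toWord) := by
    rw [FreeGroup.toWord_mul]
    have : (FreeGroup.mk [c]).toWord = [c] := by
      rw [FreeGroup.toWord_mk]
      simp
    rw [this]
    rfl
  rw [FreeGroup.reduce.cons, FreeGroup.reduce_toWord] at h1
  rcases hz : z.toWord with _ | ⟨d, t⟩
  · right
    rw [hz] at h1
    exact ⟨h1, fun t => by simp⟩
  · rw [hz] at h1
    simp only at h1
    by_cases h : c.1 = d.1 ∧ c.2 = !d.2
    · left
      rw [if_pos h] at h1
      refine ⟨t, ?_, h1⟩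
      have : d = (c.1, !c.2) := by
        apply Prod.ext
        · exact h.1.symm
        · simp [h.2]
      rw [this]
    · right
      rw [if_neg h] at h1
      refine ⟨h1, fun t' ht' => h ?_⟩
      rw [List.cons.injEq] at ht'
      rw [ht'.1]
      simp

theorem ends_change {b : B} {c : B × Bool} {z : FreeGroup B}
    (h : ¬ (Ends b z ↔ Ends b (FreeGroup.mk [c] * z))) :
    (z = 1 ∧ c = (b, true)) ∨ (z = FreeGroup.of b ∧ c = (b, false)) := by
  classical
  unfold Ends at h
  rcases letter_mul c z with ⟨t, h1, h2⟩ | ⟨h1, h2⟩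
  · rw [h1, h2] at h
    rcases t with _ | ⟨e, t⟩
    · right
      simp only [List.getLast?_singleton, Option.some.injEq, List.getLast?_nil, reduceCtorEq,
        iff_false, not_not] at h
      have hc : c = (b, false) := by
        obtain ⟨c1, c2⟩ := c
        simp only [Prod.mk.injEq, Bool.not_eq_eq_eq_not, Bool.not_true] at h ⊢
        exact h
      refine ⟨?_, hc⟩
      apply FreeGroup.toWord_injective
      rw [h1, FreeGroup.toWord_of, h]
    · exfalso
      apply h
      rw [List.getLast?_cons_cons]
  · rw [h1] at h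
    rcases hz : z.toWord with _ | ⟨e, t⟩
    · left
      rw [hz] at h
      simp only [List.getLast?_nil, reduceCtorEq, List.getLast?_singleton, Option.some.injEq,
        false_iff, not_not] at h
      refine ⟨?_, h⟩
      apply FreeGroup.toWord_injective
      rw [hz, FreeGroup.toWord_one]
    · exfalso
      apply h
      rw [hz, List.getLast?_cons_cons]

theorem ends_finite (w : FreeGroup B) :
    ∃ M : ℕ, ∀ b, {z : FreeGroup B | ¬ (Ends b z ↔ Ends b (w * z))}.encard ≤ M := by
  classical
  obtain ⟨L, rfl⟩ : ∃ L, w = FreeGroup.mk L := ⟨w.toWord, FreeGroup.mk_toWord.symm⟩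
  induction L with
  | nil =>
    refine ⟨0, fun b => ?_⟩
    have : {z : FreeGroup B | ¬ (Ends b z ↔ Ends b (FreeGroup.mk [] * z))} = ∅ := by
      ext z
      simp [← FreeGroup.one_eq_mk]
    rw [this]
    simp
  | cons c L ih =>
    obtain ⟨M, hM⟩ := ih
    refine ⟨M + 2, fun b => ?_⟩
    have hsub : {z : FreeGroup B | ¬ (Ends b z ↔ Ends b (FreeGroup.mk (c :: L) * z))} ⊆
        {z : FreeGroup B | ¬ (Ends b z ↔ Ends b (FreeGroup.mk L * z))} ∪
        {(FreeGroup.mk L)⁻¹, (FreeGroup.mk L)⁻¹ * FreeGroup.of b} := by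
      intro z hz
      have e : FreeGroup.mk (c :: L) * z = FreeGroup.mk [c] * (FreeGroup.mk L * z) := by
        rw [← mul_assoc, FreeGroup.mul_mk]
        rfl
      by_cases h : Ends b z ↔ Ends b (FreeGroup.mk L * z)
      · right
        have h2 : ¬ (Ends b (FreeGroup.mk L * z) ↔ Ends b (FreeGroup.mk [c] * (FreeGroup.mk L * z))) := by
          intro h3
          apply hz
          rw [e]
          exact h.trans h3
        rcases ends_change h2 with ⟨h4, -⟩ | ⟨h4, -⟩
        · left
          exact (eq_inv_of_mul_eq_one_right h4)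
        · right
          rw [Set.mem_singleton_iff, ← h4]
          group
      · left; exact h
    refine le_trans (Set.encard_le_encard hsub) (le_trans (Set.encard_union_le _ _) ?_)
    have h2 : ({(FreeGroup.mk L)⁻¹, (FreeGroup.mk L)⁻¹ * FreeGroup.of b} : Set (FreeGroup B)).encard ≤ 2 := (by
      refine le_trans (Set.encard_insert_le _ _) ?_
      rw [Set.encard_singleton]
      norm_num)
    push_cast
    exact add_le_add (hM b) h2

/-- torsion free -/
theorem free_torsionfree {x : FreeGroup B} (hx : x ≠ 1) {i j : ℤ} (h : x ^ i = x ^ j) : i = j := by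
  by_contra hij
  have h1 : x ^ (i - j) = 1 := by rw [zpow_sub, h]; simp
  have h2 : x ^ (i - j).natAbs = 1 := by
    rcases Int.natAbs_eq (i - j) with h3 | h3
    · rw [h3, zpow_natCast] at h1
      exact h1
    · rw [h3, zpow_neg, zpow_natCast, inv_eq_one] at h1
      exact h1
  have h3 : (i - j).natAbs ≠ 0 := by
    rw [Int.natAbs_ne_zero]
    exact sub_ne_zero.2 hij
  apply hx
  have h4 := IsMulTorsionFree.pow_left_injective (M := FreeGroup B) h3
  apply h4
  simp only [h2, one_pow]

end Pool.Agent.Zk63.LR
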