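import Pool.Agent.Zk63.LR.FWall
import Pool.Agent.Zk63.LR.Red

set_option autoImplicit false
set_option linter.all false

/-!
# Marshall Hall's theorem in terms of half spaces
-/

namespace Pool.Agent.Zk63.LR

open Set

section
variable {F : Type*} [Group F] {B Y : Type*} [MulAction (FreeGroup B) Y]

open Classical in
/-- every finite subset `X` of a `FreeGroup B`-set carries an action which agrees with the given
one as long as the latter stays in `X` -/
theorem exists_completion (X : Set Y) (hX : X.Finite) :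
    ∃ ρ : FreeGroup B →* Equiv.Perm X, ∀ (c : B × Bool) (y : X),
      FreeGroup.mk [c] • (y : Y) ∈ X → ((ρ (FreeGroup.mk [c]) y : X) : Y) = FreeGroup.mk [c] • (y : Y) := by
  haveI : Fintype X := hX.fintype
  let e : ∀ b : B, {x : X // FreeGroup.of b • (x : Y) ∈ X} ≃ {x : X // (FreeGroup.of b)⁻¹ • (x : Y) ∈ X} :=
    fun b =>
    { toFun := fun x => ⟨⟨FreeGroup.of b • (x.1 : Y), x.2⟩, by simp⟩
      invFun := fun x => ⟨⟨(FreeGroup.of b)⁻¹ • (x.1 : Y), x.2⟩, by simp⟩
      left_inv := by intro x; ext; simp
      right_inv := by intro x; ext; simp }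
  let ρ : FreeGroup B →* Equiv.Perm X := FreeGroup.lift (fun b => (e b).extendSubtype)
  have h1 : ∀ (b : B) (y : X) (h : FreeGroup.of b • (y : Y) ∈ X),
      ρ (FreeGroup.of b) y = ⟨FreeGroup.of b • (y : Y), h⟩ := by
    intro b y h
    simp only [ρ, FreeGroup.lift_apply_of]
    rw [Equiv.extendSubtype_apply_of_mem (e b) y h]
    rfl
  refine ⟨ρ, ?_⟩
  rintro ⟨b, ε⟩ y h
  cases ε with
  | true =>
    have : FreeGroup.mk [(b, true)] = FreeGroup.of b := rfl
    rw [this] at h ⊢
    rw [h1 b y h]
  | false =>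
    have : FreeGroup.mk [(b, false)] = (FreeGroup.of b)⁻¹ := rfl
    rw [this] at h ⊢
    have h2 : FreeGroup.of b • (((⟨(FreeGroup.of b)⁻¹ • (y : Y), h⟩ : X)) : Y) ∈ X := by
      simp
    have h3 := h1 b ⟨(FreeGroup.of b)⁻¹ • (y : Y), h⟩ h2
    have h4 : ρ (FreeGroup.of b) ⟨(FreeGroup.of b)⁻¹ • (y : Y), h⟩ = y := by
      rw [h3]
      apply Subtype.ext
      simp
    rw [map_inv]
    have h5 : (ρ (FreeGroup.of b))⁻¹ y = ⟨(FreeGroup.of b)⁻¹ • (y : Y), h⟩ := by
      rw [Equiv.Perm.inv_eq_iff_eq]
      exact h4.symm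
    rw [h5]

theorem walk {X : Set Y} {ρ : FreeGroup B →* Equiv.Perm X}
    (hρ : ∀ (c : B × Bool) (y : X), FreeGroup.mk [c] • (y : Y) ∈ X →
      ((ρ (FreeGroup.mk [c]) y : X) : Y) = FreeGroup.mk [c] • (y : Y)) (L : List (B × Bool)) (y : X)
    (h : ∀ s, s <:+ L → FreeGroup.mk s • (y : Y) ∈ X) :
    ((ρ (FreeGroup.mk L) y : X) : Y) = FreeGroup.mk L • (y : Y) := by
  induction L with
  | nil =>
    have : (FreeGroup.mk [] : FreeGroup B) = 1 := rfl
    rw [this, map_one, one_smul]
    rfl
  | cons c L ih =>
    have h1 := ih (fun s hs => h s (hs.trans (List.suffix_cons c L)))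
    have e : FreeGroup.mk (c :: L) = FreeGroup.mk [c] * FreeGroup.mk L := by
      rw [FreeGroup.mul_mk]; rfl
    have h2 : FreeGroup.mk [c] • ((ρ (FreeGroup.mk L) y : X) : Y) ∈ X := by
      rw [h1, ← mul_smul, ← e]
      exact h _ (List.suffix_refl _)
    rw [e, map_mul, Equiv.Perm.mul_apply, hρ c _ h2, h1, mul_smul]

end

open Classical in
theorem hall {B : Type*} (H₀ : Subgroup (FreeGroup B)) (hfg : H₀.FG) :
    ∃ F' : Subgroup (FreeGroup B), F'.FiniteIndex ∧ H₀ ≤ F' ∧ ∀ m ∈ F', m ∉ H₀ →
      ∃ (f : FreeGroup B) (b : B),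
        (∀ n ∈ F', ∀ h ∈ H₀, (Ends b (n⁻¹ * f) ↔ Ends b ((n * h)⁻¹ * f))) ∧
        ¬ (Ends b f ↔ Ends b (m⁻¹ * f)) := by
  obtain ⟨S, hS⟩ := hfg
  let y₀ : FreeGroup B ⧸ H₀ := ((1 : FreeGroup B) : FreeGroup B ⧸ H₀)
  let X : Set (FreeGroup B ⧸ H₀) := {y₀} ∪ ⋃ h ∈ S, (fun s => FreeGroup.mk s • y₀) ''
    {s | s <:+ (h⁻¹).toWord}
  have hX : X.Finite := by
    refine (Set.finite_singleton _).union ?_
    refine Set.Finite.biUnion S.finite_toSet fun h _ => ?_
    refine Set.Finite.image _ ?_
    have : {s | s <:+ (h⁻¹).toWord} = {s | s ∈ (h⁻¹).toWord.tails} := by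
      ext s; simp [List.mem_tails]
    rw [this]
    exact List.finite_toSet _
  obtain ⟨ρ, hρ⟩ := exists_completion (B := B) X hX
  have hy₀ : y₀ ∈ X := Or.inl rfl
  set x₀ : X := ⟨y₀, hy₀⟩ with hx₀
  have hsuf : ∀ h ∈ S, ∀ s, s <:+ (h⁻¹).toWord → FreeGroup.mk s • (x₀ : FreeGroup B ⧸ H₀) ∈ X := by
    intro h hh s hs
    right
    rw [Set.mem_iUnion₂]
    exact ⟨h, hh, s, hs, rfl⟩
  have hst : ∀ g : FreeGroup B, g • y₀ = y₀ ↔ g ∈ H₀ := by
    intro g
    show ((g * 1 : FreeGroup B) : FreeGroup B ⧸ H₀) = _ ↔ _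
    rw [mul_one, eq_comm, QuotientGroup.eq]
    simp
  let F' : Subgroup (FreeGroup B) := (MulAction.stabilizer (Equiv.Perm X) x₀).comap ρ
  have hF' : ∀ g, g ∈ F' ↔ ρ g x₀ = x₀ := fun g => Iff.rfl
  have hle : H₀ ≤ F' := by
    rw [← hS, Subgroup.closure_le]
    intro h hh
    have h1 := walk hρ (h⁻¹).toWord x₀ (hsuf h hh)
    rw [FreeGroup.mk_toWord] at h1
    have h2 : h⁻¹ ∈ H₀ := by
      rw [← hS]
      exact Subgroup.inv_mem _ (Subgroup.subset_closure hh)
    have h3 : ρ h⁻¹ x₀ = x₀ := by
      apply Subtype.ext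
      rw [h1]
      exact (hst _).2 h2
    have h4 : h⁻¹ ∈ F' := h3
    have := F'.inv_mem h4
    rwa [inv_inv] at this
  refine ⟨F', ?_, hle, ?_⟩
  · haveI : Finite X := hX
    have hk : ρ.ker ≤ F' := by
      intro g hg
      rw [hF', MonoidHom.mem_ker.1 hg]
      rfl
    exact Subgroup.finiteIndex_of_le hk
  -- non-separation across non-core edges
  have hNC : ∀ (f : FreeGroup B) (b : B),
      FreeGroup.of b • ((ρ f⁻¹ x₀ : X) : FreeGroup B ⧸ H₀) ∉ X →
      ∀ n ∈ F', ∀ h ∈ H₀, (Ends b (n⁻¹ * f) ↔ Ends b ((n * h)⁻¹ * f)) := by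
    intro f b hcore
    have aux : ∀ (L : List (B × Bool)) (z : FreeGroup B),
        ρ z⁻¹ x₀ = ρ f⁻¹ x₀ → (∀ s, s <:+ L → FreeGroup.mk s • (x₀ : FreeGroup B ⧸ H₀) ∈ X) →
        (Ends b z ↔ Ends b (FreeGroup.mk L * z)) := by
      intro L z hz hL
      induction L with
      | nil =>
        have : (FreeGroup.mk [] : FreeGroup B) = 1 := rfl
        rw [this, one_mul]
      | cons c L ih =>
        have hL' : ∀ s, s <:+ L → FreeGroup.mk s • (x₀ : FreeGroup B ⧸ H₀) ∈ X :=
          fun s hs => hL s (hs.trans (List.suffix_cons c L))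
        have e : FreeGroup.mk (c :: L) = FreeGroup.mk [c] * FreeGroup.mk L := by
          rw [FreeGroup.mul_mk]; rfl
        rw [ih hL', e, mul_assoc]
        by_contra hne
        rcases ends_change hne with ⟨h1, h2⟩ | ⟨h1, h2⟩
        · apply hcore
          have hz' : z⁻¹ = FreeGroup.mk L := (eq_inv_of_mul_eq_one_left h1).symm
          rw [← hz, hz', walk hρ L x₀ hL', ← mul_smul]
          have := hL _ (List.suffix_refl _)
          rw [h2] at this
          convert this using 2
          rw [FreeGroup.of, FreeGroup.mul_mk]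
          rfl
        · apply hcore
          have hz' : z⁻¹ = FreeGroup.mk (c :: L) := by
            have h3 : z = (FreeGroup.mk L)⁻¹ * FreeGroup.of b := by rw [← h1]; group
            rw [h3, e, h2]
            have : FreeGroup.mk [(b, false)] = (FreeGroup.of b)⁻¹ := rfl
            rw [this]
            group
          rw [← hz, hz', walk hρ (c :: L) x₀ hL, ← mul_smul, e, h2]
          have : FreeGroup.mk [(b, false)] = (FreeGroup.of b)⁻¹ := rfl
          rw [this, mul_inv_cancel_left]
          exact hL' _ (List.suffix_refl _)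
    intro n hn h hh
    -- closure induction over `h`
    have key : ∀ h ∈ Subgroup.closure (S : Set (FreeGroup B)), ∀ n ∈ F',
        (Ends b (n⁻¹ * f) ↔ Ends b ((n * h)⁻¹ * f)) := by
      intro h hh
      induction hh using Subgroup.closure_induction with
      | mem h hh =>
        intro n hn
        have h1 := aux (h⁻¹).toWord (n⁻¹ * f) (by
          rw [mul_inv_rev, inv_inv, map_mul, Equiv.Perm.mul_apply, (hF' n).1 hn]) (hsuf h hh)
        rw [FreeGroup.mk_toWord] at h1
        rw [h1]
        have : h⁻¹ * (n⁻¹ * f) = (n * h)⁻¹ * f := by group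
        rw [this]
      | one => intro n hn; rw [mul_one]
      | mul h h' hh hh' ih ih' =>
        intro n hn
        have hh1 : h ∈ F' := hle (by rw [← hS]; exact hh)
        rw [ih n hn, ih' (n * h) (F'.mul_mem hn hh1), mul_assoc]
      | inv h hh ih =>
        intro n hn
        have hh1 : h⁻¹ ∈ F' := F'.inv_mem (hle (by rw [← hS]; exact hh))
        have := ih (n * h⁻¹) (F'.mul_mem hn hh1)
        rw [inv_mul_cancel_right] at this
        exact this.symm
    exact key h (by rw [hS]; exact hh) n hn
  intro m hm hmH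
  -- find the first exit
  have hex : ∃ (pre s : List (B × Bool)) (c : B × Bool), (m⁻¹).toWord = pre ++ c :: s ∧
      (∀ t, t <:+ s → FreeGroup.mk t • (x₀ : FreeGroup B ⧸ H₀) ∈ X) ∧
      FreeGroup.mk (c :: s) • (x₀ : FreeGroup B ⧸ H₀) ∉ X := by
    by_contra hno
    push Not at hno
    have hall : ∀ s, s <:+ (m⁻¹).toWord → FreeGroup.mk s • (x₀ : FreeGroup B ⧸ H₀) ∈ X := by
      intro s
      induction s with
      | nil =>
        intro _
        have : (FreeGroup.mk [] : FreeGroup B) = 1 := rfl
        rw [this, one_smul]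
        exact hy₀
      | cons c s ih =>
        intro hs
        obtain ⟨pre, hpre⟩ := hs
        refine hno pre s c hpre.symm ?_
        -- all suffixes of `s` are fine: induct again
        have hsuff : ∀ t, t <:+ s → FreeGroup.mk t • (x₀ : FreeGroup B ⧸ H₀) ∈ X := by
          intro t
          induction t with
          | nil =>
            intro _
            have : (FreeGroup.mk [] : FreeGroup B) = 1 := rfl
            rw [this, one_smul]
            exact hy₀
          | cons d t ih' =>
            intro ht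
            obtain ⟨pre', hpre'⟩ := ht
            refine hno (pre ++ c :: pre') t d ?_ ?_
            · rw [← hpre, ← hpre']; simp
            · intro r hr
              -- strong induction is needed
              have : ∀ n : ℕ, ∀ r : List (B × Bool), r.length ≤ n → r <:+ (m⁻¹).toWord →
                  FreeGroup.mk r • (x₀ : FreeGroup B ⧸ H₀) ∈ X := by
                intro n
                induction n with
                | zero =>
                  intro r hr _
                  have : r = [] := List.length_eq_zero_iff.1 (Nat.le_zero.1 hr)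
                  rw [this]
                  have : (FreeGroup.mk [] : FreeGroup B) = 1 := rfl
                  rw [this, one_smul]
                  exact hy₀
                | succ n ihn =>
                  intro r hr hrs
                  rcases r with _ | ⟨a, r⟩
                  · have : (FreeGroup.mk [] : FreeGroup B) = 1 := rfl
                    rw [this, one_smul]
                    exact hy₀
                  · obtain ⟨q, hq⟩ := hrs
                    refine hno q r a hq.symm ?_
                    intro u hu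
                    refine ihn u ?_ ?_
                    · have h1 := hu.length_le
                      simp only [List.length_cons] at hr
                      omega
                    · exact hu.trans ((List.suffix_cons a r).trans ⟨q, hq⟩)
              refine this r.length r le_rfl ?_
              have h2 : s <:+ (m⁻¹).toWord := ⟨pre ++ [c], by rw [← hpre]; simp⟩
              exact (hr.trans ((List.suffix_cons d t).trans ⟨pre', hpre'⟩)).trans h2
        exact hsuff
    have h1 := walk hρ (m⁻¹).toWord x₀ hall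
    rw [FreeGroup.mk_toWord] at h1
    have h2 : ρ m⁻¹ x₀ = x₀ := (hF' _).1 (F'.inv_mem hm)
    rw [h2] at h1
    apply hmH
    have h3 := (hst m⁻¹).1 h1.symm
    have := H₀.inv_mem h3
    rwa [inv_inv] at this
  obtain ⟨pre, s, c, hword, hin, hout⟩ := hex
  have hred : FreeGroup.IsReduced (pre ++ c :: s) := by
    rw [← hword]; exact FreeGroup.isReduced_toWord
  have hredcs : FreeGroup.IsReduced (c :: s) := Pool.Agent.Zk63.LR.red_sub hred ⟨pre, [], by simp⟩
  have hreds : FreeGroup.IsReduced s := Pool.Agent.Zk63.LR.red_sub hred ⟨pre ++ [c], [], by simp⟩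
  have hredpc : FreeGroup.IsReduced (pre ++ [c]) := Pool.Agent.Zk63.LR.red_sub hred ⟨[], s, by simp⟩
  have hredp : FreeGroup.IsReduced pre := Pool.Agent.Zk63.LR.red_sub hred ⟨[], c :: s, by simp⟩
  have tw : ∀ L : List (B × Bool), FreeGroup.IsReduced L → (FreeGroup.mk L).toWord = L := by
    intro L hL
    rw [FreeGroup.toWord_mk, hL.reduce_eq]
  have hm1 : m⁻¹ = FreeGroup.mk (pre ++ c :: s) := by rw [← hword, FreeGroup.mk_toWord]
  obtain ⟨b, ε⟩ := c
  cases ε with
  | true =>
    refine ⟨(FreeGroup.mk s)⁻¹, b, hNC _ b ?_, ?_⟩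
    · rw [inv_inv, walk hρ s x₀ hin, ← mul_smul]
      convert hout using 2
      rw [FreeGroup.of, FreeGroup.mul_mk]
      rfl
    · have e1 : ¬ Ends b (FreeGroup.mk s)⁻¹ := by
        unfold Ends
        rw [FreeGroup.toWord_inv, tw s hreds]
        rcases s with _ | ⟨d, s⟩
        · simp [FreeGroup.invRev]
        · intro h
          rw [FreeGroup.invRev_cons] at h
          have h2 : (FreeGroup.invRev s ++ FreeGroup.invRev [d]).getLast? = some (d.1, !d.2) := by
            simp [FreeGroup.invRev]
          rw [h2] at h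
          have h3 := (FreeGroup.isReduced_cons_cons.1 hredcs).1
          simp only [Option.some.injEq, Prod.mk.injEq] at h
          have := h3 h.1.symm
          rw [← this] at h
          simp at h
      have e2 : Ends b (m⁻¹ * (FreeGroup.mk s)⁻¹) := by
        have : m⁻¹ * (FreeGroup.mk s)⁻¹ = FreeGroup.mk (pre ++ [(b, true)]) := by
          rw [hm1, mul_inv_eq_iff_eq_mul, FreeGroup.mul_mk]
          congr 1
          simp
        unfold Ends
        rw [this, tw _ hredpc]
        simp
      exact fun h => e1 (h.2 e2)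
  | false =>
    have hof : FreeGroup.mk [(b, false)] = (FreeGroup.of b)⁻¹ := rfl
    have hcs : FreeGroup.mk ((b, false) :: s) = (FreeGroup.of b)⁻¹ * FreeGroup.mk s := by
      rw [← hof, FreeGroup.mul_mk]; rfl
    refine ⟨(FreeGroup.mk ((b, false) :: s))⁻¹, b, hNC _ b ?_, ?_⟩
    · rw [inv_inv]
      intro hcon
      apply hout
      have h1 : ((ρ (FreeGroup.mk [(b, true)]) (ρ (FreeGroup.mk ((b, false) :: s)) x₀) : X) :
          FreeGroup B ⧸ H₀) = FreeGroup.mk [(b, true)] •
            ((ρ (FreeGroup.mk ((b, false) :: s)) x₀ : X) : FreeGroup B ⧸ H₀) := hρ (b, true) _ hcon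
      have h2 : ρ (FreeGroup.mk [(b, true)]) (ρ (FreeGroup.mk ((b, false) :: s)) x₀) =
          ρ (FreeGroup.mk s) x₀ := by
        rw [← Equiv.Perm.mul_apply, ← map_mul, hcs]
        have : FreeGroup.mk [(b, true)] = FreeGroup.of b := rfl
        rw [this, mul_inv_cancel_left]
      rw [h2, walk hρ s x₀ hin] at h1
      have h3 : FreeGroup.mk [(b, true)] = FreeGroup.of b := rfl
      rw [h3, ← inv_smul_eq_iff, ← mul_smul, ← hcs] at h1
      rw [h1]
      exact Subtype.mem _
    · have e1 : Ends b (FreeGroup.mk ((b, false) :: s))⁻¹ := by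
        unfold Ends
        rw [FreeGroup.toWord_inv, tw _ hredcs, FreeGroup.invRev_cons]
        simp [FreeGroup.invRev]
      have e2 : ¬ Ends b (m⁻¹ * (FreeGroup.mk ((b, false) :: s))⁻¹) := by
        have : m⁻¹ * (FreeGroup.mk ((b, false) :: s))⁻¹ = FreeGroup.mk pre := by
          rw [hm1, mul_inv_eq_iff_eq_mul, FreeGroup.mul_mk]
        unfold Ends
        rw [this, tw _ hredp]
        intro h
        obtain ⟨pre', hpre'⟩ : ∃ pre', pre = pre' ++ [(b, true)] := by
          rcases List.eq_nil_or_concat pre with h1 | ⟨p', a, h1⟩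
          · rw [h1] at h; simp at h
          · rw [h1] at h
            simp only [List.concat_eq_append, List.getLast?_append, List.getLast?_singleton,
              Option.some_or, Option.some.injEq] at h
            exact ⟨p', by rw [h1, h]; simp⟩
        have h4 : FreeGroup.IsReduced [(b, true), (b, false)] := Pool.Agent.Zk63.LR.red_sub hred ⟨pre', s, by
          rw [hpre']; simp⟩
        have := (FreeGroup.isReduced_cons_cons.1 h4).1 rfl
        simp at this
      exact fun h => e2 (h.1 e1)

end Pool.Agent.Zk63.LR
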