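import Pool.Agent.Zk63.LR.ZornB
import Pool.Agent.Zk63.LR.Base
import Pool.Agent.Zk63.LR.Hall
import Pool.Agent.Zk63.L43.Abs
import Pool.Agent.Zk63.L43.LRA

set_option autoImplicit false
set_option linter.all false

/-!
# Finitely generated subgroups of virtually free groups are virtual retracts
-/

namespace Pool.Agent.Zk63.LR

open scoped Pointwise
open Set

/-- the automorphisms of a free group given by permutations of the generators -/
def permAut (Q L : Type*) [Group Q] [MulAction Q L] : Q →* MulAut (FreeGroup L) where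
  toFun q := FreeGroup.freeGroupCongr (MulAction.toPerm q)
  map_one' := by
    ext x
    show FreeGroup.map _ x = x
    have : ((MulAction.toPerm (1 : Q) : Equiv.Perm L) : L → L) = id := by
      funext l; simp
    rw [this, FreeGroup.map.id]
  map_mul' := by
    intro q q'
    ext x
    show FreeGroup.map _ x = FreeGroup.map _ (FreeGroup.map _ x)
    rw [FreeGroup.map.comp]
    congr 1
    congr 1
    funext l
    simp [mul_smul]

theorem permAut_apply {Q L : Type*} [Group Q] [MulAction Q L] (q : Q) (x : FreeGroup L) :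
    permAut Q L q x = FreeGroup.map (fun l => q • l) x := rfl

/-- freeness passes to subgroups along injections -/
theorem isFree_of_injective {A B : Type*} [Group A] [Group B] [IsFreeGroup B] (f : A →* B)
    (hf : Function.Injective f) : IsFreeGroup A := by
  haveI : IsFreeGroup f.range := inferInstance
  exact IsFreeGroup.ofMulEquiv (MonoidHom.ofInjective hf).symm

theorem lr_aux {G B : Type*} [Group G] (N : Subgroup G) [N.Normal] [N.FiniteIndex]
    (H : Subgroup G) (hH : H.FG) (hNfree : IsFreeGroup N)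
    (hgen : ∀ g : G, ∃ n ∈ N, ∃ h ∈ H, g = n * h) (ι : N →* FreeGroup B)
    (hι : Function.Injective ι)
    (hS : ∀ m : N, (m : G) ∉ H → ∃ (f : FreeGroup B) (b : B),
      (∀ n h : N, (h : G) ∈ H → (Ends b ((ι n)⁻¹ * f) ↔ Ends b ((ι (n * h))⁻¹ * f))) ∧
      ¬ (Ends b f ↔ Ends b ((ι m)⁻¹ * f))) :
    ∃ K : Subgroup G, K.FiniteIndex ∧ H ≤ K ∧
      ∃ ρ : K →* G, (∀ k : K, ρ k ∈ H) ∧ ∀ h : G, ∀ hk : h ∈ K, h ∈ H → ρ ⟨h, hk⟩ = h := by
  classical
  let π : G →* G ⧸ N := QuotientGroup.mk' N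
  have hπ : ∀ g : G, π g = 1 ↔ g ∈ N := fun g => QuotientGroup.eq_one_iff g
  let πH : H →* G ⧸ N := π.comp H.subtype
  have hπH : Function.Surjective πH := by
    intro q
    obtain ⟨g, rfl⟩ := QuotientGroup.mk'_surjective N q
    obtain ⟨n, hn, h, hh, rfl⟩ := hgen g
    refine ⟨⟨h, hh⟩, ?_⟩
    show π h = π (n * h)
    rw [map_mul, (hπ n).2 hn, one_mul]
  haveI : Group.FG H := (Group.fg_iff_subgroup_fg H).2 hH
  haveI hcH : Countable H := Pool.Agent.Zk63.L43.Abs.countable_of_fg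
  haveI : Finite (G ⧸ N) := inferInstance
  have hker : ∀ h : H, h ∈ πH.ker ↔ (h : G) ∈ N := by
    intro h
    rw [MonoidHom.mem_ker]
    exact hπ h
  haveI : πH.ker.FiniteIndex := by
    have : πH.ker = N.subgroupOf H := by
      ext h; rw [hker, Subgroup.mem_subgroupOf]
    rw [this]; infer_instance
  have hfree : IsFreeGroup πH.ker := by
    let j : πH.ker →* N :=
      { toFun := fun x => ⟨((x : H) : G), (hker x).1 x.2⟩
        map_one' := rfl
        map_mul' := fun _ _ => rfl }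
    refine isFree_of_injective j ?_
    intro x y hxy
    have := congrArg (fun z : N => (z : G)) hxy
    exact Subtype.ext (Subtype.ext this)
  obtain ⟨E, hE1, hE2, hE3, hE4, hE5, -⟩ := Pool.Agent.Zk63.L43.Abs.abs_cuts πH.ker hfree
  obtain ⟨L, hL, zH, hzH1, hzH2⟩ := base_hom πH hπH hE2 hE1 hE3 hE4 hE5
  let φ : G →* MulAut (FreeGroup L) := (permAut (G ⧸ N) L).comp π
  have hφ : ∀ g x, φ g x = FreeGroup.map (fun l => π g • l) x := fun g x => rfl
  have hφN : ∀ n ∈ N, φ n = 1 := by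
    intro n hn
    show permAut (G ⧸ N) L (π n) = 1
    rw [(hπ n).2 hn, map_one]
  let z₁ : G → FreeGroup L := fun g => if h : g ∈ H then zH ⟨g, h⟩ else 1
  have hz₁H : ∀ h : H, z₁ h = zH h := by
    intro h
    simp only [z₁, dif_pos h.2]
  have hz₁ : ∀ g ∈ H, ∀ h ∈ H, z₁ (g * h) = z₁ g * φ g (z₁ h) := by
    intro g hg h hh
    have := hzH1 ⟨g, hg⟩ ⟨h, hh⟩
    have e1 := hz₁H (⟨g, hg⟩ * ⟨h, hh⟩)
    have e2 := hz₁H ⟨g, hg⟩
    have e3 := hz₁H ⟨h, hh⟩
    simp only at e1 e2 e3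
    rw [e2, e3, hφ]
    exact e1.trans this
  have hH1 : ∀ D : Subgroup G, Finite D → ∀ δ : G → FreeGroup L,
      (∀ g ∈ D, ∀ h ∈ D, δ (g * h) = δ g * φ g (δ h)) →
        ∃ r : FreeGroup L, ∀ g ∈ D, δ g * φ g r = r := by
    intro D hD δ hδ
    haveI := hD
    exact Pool.Agent.Zk63.L43.Fix.fin_coboundary π D δ hδ
  let e : N ≃* FreeGroup (IsFreeGroup.Generators N) := IsFreeGroup.toFreeGroup N
  -- a countable invariant set of basis elements
  let C₁ : Set (IsFreeGroup.Generators N) := ⋃ h : πH.ker, {b | ∃ a ∈ (e ⟨((h : H) : G), (hker h).1 h.2⟩).toWord, a.1 = b}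
  have hC₁ : C₁.Countable := by
    refine Set.countable_iUnion fun h => ?_
    refine Set.Countable.mono (s₂ := (fun a => a.1) '' {a | a ∈ (e ⟨((h : H) : G), (hker h).1 h.2⟩).toWord}) ?_ ?_
    · rintro b ⟨a, ha, rfl⟩
      exact ⟨a, ha, rfl⟩
    · exact (List.finite_toSet _).countable.image _
  obtain ⟨C, hC1, hC2, hC3⟩ := exists_countable_cl (N := N) (H := H) (e := e) hC₁
  have hinf : ∀ x ∈ N, x ∈ H → x ∈ NN N e C := by
    intro x hx hx'
    refine mem_NN.2 ⟨hx, ?_⟩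
    rw [mem_closure_iff_letters]
    intro a ha
    apply hC1
    refine Set.mem_iUnion.2 ⟨⟨⟨x, hx'⟩, (hker ⟨x, hx'⟩).2 hx⟩, a, ha, rfl⟩
  have hext : ∃ z : G → FreeGroup L, (∀ g ∈ GG hC3, ∀ h ∈ GG hC3, z (g * h) = z g * φ g (z h)) ∧
      ∀ g ∈ H, z g = z₁ g := by
    refine rel_ext_sub (B := B) (GG hC3) (NN N e C) H (GG_countable hC2 hC3) (NN_le_GG hC3)
      (H_le_GG hC3) ?_ ?_ ?_
      (ι.comp (Subgroup.inclusion (NN_le (N := N) (e := e) (C := C)))) ?_ ?_ φ hH1 z₁ hz₁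
    · rintro _ ⟨n, hn, h, hh, rfl⟩ x hx
      have h1 := hC3.conj hh hx
      have h2 : n * h * x * (n * h)⁻¹ = n * (h * x * h⁻¹) * n⁻¹ := by group
      rw [h2]
      exact Subgroup.mul_mem _ (Subgroup.mul_mem _ hn h1) (Subgroup.inv_mem _ hn)
    · have : (NN N e C).subgroupOf (GG hC3) = N.subgroupOf (GG hC3) := by
        ext x
        rw [Subgroup.mem_subgroupOf, Subgroup.mem_subgroupOf]
        exact ⟨fun h => NN_le h, fun h => GG_inf hC3 hinf h x.2⟩
      rw [this]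
      infer_instance
    · rintro _ ⟨n, hn, h, hh, rfl⟩
      exact ⟨n, hn, h, hh, rfl⟩
    · exact hι.comp (Subgroup.inclusion_injective _)
    · intro m hm
      obtain ⟨f, b, h1, h2⟩ := hS ⟨(m : G), NN_le m.2⟩ hm
      refine ⟨f, b, ?_, h2⟩
      intro n h hh
      exact h1 ⟨(n : G), NN_le n.2⟩ ⟨(h : G), NN_le h.2⟩ hh
  obtain ⟨z, hz, hz'⟩ := hext
  have hact : ∀ n ∈ N, ∀ w : FreeGroup L, φ n w = w := by
    intro n hn w; rw [hφN n hn]; rfl
  have hzmul : ∀ x ∈ NN N e C, ∀ y ∈ GG hC3, z (x * y) = z x * z y := by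
    intro x hx y hy
    rw [hz x (NN_le_GG hC3 hx) y hy, hact x (NN_le hx)]
  have hz1 : z 1 = 1 := by
    have := hzmul 1 (Subgroup.one_mem _) 1 (Subgroup.one_mem _)
    rw [mul_one] at this
    exact mul_eq_left.1 this.symm
  have hzinv : ∀ x ∈ NN N e C, z x⁻¹ = (z x)⁻¹ := by
    intro x hx
    have := hzmul x⁻¹ (Subgroup.inv_mem _ hx) x (NN_le_GG hC3 hx)
    rw [inv_mul_cancel, hz1] at this
    exact eq_inv_of_mul_eq_one_left this.symm
  let f₀ : IsFreeGroup.Generators N → FreeGroup L := fun c => z (be N e c)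
  have hTh : ∀ x ∈ NN N e C, Th N e f₀ x = z x := by
    intro x hx
    refine NN_induction (P := fun x => Th N e f₀ x = z x) ?_ ?_ ?_ ?_ hx
    · rw [Th_one, hz1]
    · intro c hc; rw [Th_be]
    · intro x hx y hy h1 h2
      rw [Th_mul f₀ (NN_le hx) (NN_le hy), h1, h2, hzmul x hx y (NN_le_GG hC3 hy)]
    · intro x hx h1
      rw [Th_inv f₀ (NN_le hx), h1, hzinv x hx]
  have hgood : Good N H e φ z₁ C f₀ := by
    refine ⟨hC3, hinf, ?_, ?_⟩
    · intro c hc h hh
      rw [hTh _ (hC3 c hc h hh)]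
      have hbc := be_mem_NN (N := N) (e := e) hc
      have h1 : z (h * be N e c) = z h * φ h (z (be N e c)) :=
        hz h (H_le_GG hC3 hh) _ (NN_le_GG hC3 hbc)
      have h2 : z (h * be N e c * h⁻¹ * h) = z (h * be N e c * h⁻¹) * z h :=
        hzmul _ (hC3 c hc h hh) h (H_le_GG hC3 hh)
      rw [inv_mul_cancel_right, h1, hz' h hh] at h2
      rw [← mul_inv_eq_iff_eq_mul.2 h2]
    · intro x hx hx'
      rw [hTh _ (hinf x hx hx')]
      exact hz' x hx'
  obtain ⟨f, hf⟩ := hgood.univ hφN hz₁ hH1 hC2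
  obtain ⟨y, hy1, hy2, -⟩ := hf.crossed hφN hz₁
  have htop : ∀ g : G, g ∈ GG hf.cl := by
    intro g
    obtain ⟨n, hn, h, hh, rfl⟩ := hgen g
    refine ⟨n, ?_, h, hh, rfl⟩
    refine mem_NN.2 ⟨hn, ?_⟩
    rw [mem_closure_iff_letters]
    intro a _
    exact Set.mem_univ _
  refine Pool.Agent.Zk63.L43.LRA.lr_crossed π y (fun g h => hy1 g (htop g) h (htop h)) H hH ?_
  intro h hh h1 h2
  have h3 := hzH2 ⟨h, hh⟩ ((hker ⟨h, hh⟩).2 ((hπ h).1 h1)) (by
    rw [← hz₁H]
    show z₁ h = 1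
    rw [← hy2 h hh, h2])
  exact congrArg Subtype.val h3

end Pool.Agent.Zk63.LR

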