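import Pool.Agent.Zk63.LR.Cap

set_option autoImplicit false
set_option linter.all false

/-!
# Existence of minimal cuts
-/

namespace Pool.Agent.Zk63.LR

open scoped ENNReal Topology
open Set Filter

variable {V : Type*}

/-- the cut defined by a Boolean function -/
def tr (f : V → Bool) : Set V := {v | f v = true}

open Classical in
theorem exists_tr (A : Set V) : ∃ f : V → Bool, tr f = A :=
  ⟨fun v => decide (v ∈ A), by ext v; simp [tr]⟩

theorem lsc_cap (c : V → V → ℝ≥0∞) : LowerSemicontinuous (fun f : V → Bool => cap c (tr f)) := by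
  unfold cap I
  refine lowerSemicontinuous_tsum fun p => ?_
  have : (fun f : V → Bool => (tr f ×ˢ (tr f)ᶜ).indicator (fun p => c p.1 p.2) p) =
      (fun b : Bool × Bool => if b.1 = true ∧ ¬ b.2 = true then c p.1 p.2 else 0) ∘
        (fun f : V → Bool => (f p.1, f p.2)) := by
    funext f
    by_cases h : f p.1 = true ∧ ¬ f p.2 = true
    · rw [Set.indicator_of_mem (show p ∈ tr f ×ˢ (tr f)ᶜ from ⟨h.1, h.2⟩)]
      simp only [Function.comp, if_pos h]
    · rw [Set.indicator_of_notMem (by intro h'; exact h ⟨h'.1, h'.2⟩)]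
      simp only [Function.comp, if_neg h]
  rw [this]
  exact (continuous_of_discreteTopology.comp (by fun_prop)).lowerSemicontinuous

/-- existence of minimal cuts under closed conditions -/
theorem exists_min (c : V → V → ℝ≥0∞) {K : Set (V → Bool)} (hK : IsClosed K) (hne : K.Nonempty) :
    ∃ f ∈ K, ∀ g ∈ K, cap c (tr f) ≤ cap c (tr g) := by
  obtain ⟨f, hf, h⟩ := LowerSemicontinuousOn.exists_isMinOn hne hK.isCompact
    ((lsc_cap c).lowerSemicontinuousOn K)
  exact ⟨f, hf, fun g hg => h hg⟩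

theorem isClosed_coord (u : V) (b : Bool) : IsClosed {f : V → Bool | f u = b} := by
  have hc : Continuous (fun f : V → Bool => f u) := continuous_apply u
  exact (isClosed_discrete ({b} : Set Bool)).preimage hc

theorem isClosed_sep (u v : V) : IsClosed {f : V → Bool | u ∈ tr f ∧ v ∉ tr f} := by
  have h1 : IsClosed {f : V → Bool | f u = true} := isClosed_coord u true
  have h2 : IsClosed {f : V → Bool | f v = false} := isClosed_coord v false
  convert h1.inter h2 using 1
  ext f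
  simp [tr]

theorem exists_isMin (c : V → V → ℝ≥0∞) {u v : V} {W : Set V} (hu : u ∈ W) (hv : v ∉ W)
    (hW : cap c W ≠ ∞) : ∃ A, IsMin c (pure u) (pure v) A := by
  obtain ⟨w, rfl⟩ := exists_tr W
  obtain ⟨f, hf, h⟩ := exists_min c (isClosed_sep u v) ⟨w, hu, hv⟩
  refine ⟨tr f, ⟨?_, ?_, ?_, ?_⟩⟩
  · simpa using hf.1
  · simpa using hf.2
  · exact ne_top_of_le_ne_top hW (h w ⟨hu, hv⟩)
  · intro X h1 h2
    obtain ⟨g, rfl⟩ := exists_tr X
    exact h g ⟨by simpa using h1, by simpa using h2⟩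

/-- minimal cuts between points -/
def Mc (c : V → V → ℝ≥0∞) (u v : V) : Set (Set V) := {A | IsMin c (pure u) (pure v) A}

theorem mem_Mc {c : V → V → ℝ≥0∞} {u v : V} {A : Set V} :
    A ∈ Mc c u v ↔ u ∈ A ∧ v ∉ A ∧ cap c A ≠ ∞ ∧ ∀ X : Set V, u ∈ X → v ∉ X → cap c A ≤ cap c X := by
  constructor
  · intro h
    exact ⟨by simpa using h.mem, by simpa using h.notMem, h.fin,
      fun X h1 h2 => h.le X (by simpa using h1) (by simpa using h2)⟩
  · rintro ⟨h1, h2, h3, h4⟩
    exact ⟨by simpa using h1, by simpa using h2, h3,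
      fun X h5 h6 => h4 X (by simpa using h5) (by simpa using h6)⟩

theorem Mc_inter {c : V → V → ℝ≥0∞} (hc : ∀ u v, c u v = c v u) {u v : V} {A B : Set V}
    (hA : A ∈ Mc c u v) (hB : B ∈ Mc c u v) : A ∩ B ∈ Mc c u v := by
  rw [mem_Mc] at *
  obtain ⟨a1, a2, a3, a4⟩ := hA
  obtain ⟨b1, b2, b3, b4⟩ := hB
  have hs : cap c (A ∩ B) + cap c (A ∪ B) ≤ cap c A + cap c B := by
    rw [← submod hc A B]; exact le_self_add
  have hU : cap c B ≤ cap c (A ∪ B) := b4 _ (Or.inl a1) (by rintro (h | h); exacts [a2 h, b2 h])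
  have hle : cap c (A ∩ B) ≤ cap c A := by
    have : cap c (A ∩ B) + cap c B ≤ cap c A + cap c B :=
      le_trans (by gcongr) hs
    exact (ENNReal.add_le_add_iff_right b3).1 this
  refine ⟨⟨a1, b1⟩, fun h => a2 h.1, ne_top_of_le_ne_top a3 hle, fun X h1 h2 => hle.trans (a4 X h1 h2)⟩

theorem Mc_compl {c : V → V → ℝ≥0∞} (hc : ∀ u v, c u v = c v u) {u v : V} {A : Set V}
    (hA : A ∈ Mc c u v) : Aᶜ ∈ Mc c v u := IsMin.compl hc hA

theorem Mc_cap_eq {c : V → V → ℝ≥0∞} {u v : V} {A B : Set V}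
    (hA : A ∈ Mc c u v) (hB : B ∈ Mc c u v) : cap c A = cap c B := by
  rw [mem_Mc] at *
  exact le_antisymm (hA.2.2.2 B hB.1 hB.2.1) (hB.2.2.2 A hA.1 hA.2.1)

theorem Mc_of_le {c : V → V → ℝ≥0∞} {u v : V} {A B : Set V}
    (hA : A ∈ Mc c u v) (h1 : u ∈ B) (h2 : v ∉ B) (h : cap c B ≤ cap c A) : B ∈ Mc c u v := by
  rw [mem_Mc] at *
  exact ⟨h1, h2, ne_top_of_le_ne_top hA.2.2.1 h, fun X h3 h4 => h.trans (hA.2.2.2 X h3 h4)⟩

/-- the smallest minimal cut -/
def Amin (c : V → V → ℝ≥0∞) (u v : V) : Set V := ⋂₀ Mc c u v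

theorem Amin_mem {c : V → V → ℝ≥0∞} (hc : ∀ u v, c u v = c v u) {u v : V}
    (hne : (Mc c u v).Nonempty) : Amin c u v ∈ Mc c u v := by
  classical
  obtain ⟨A₀, hA₀⟩ := hne
  set κ := cap c A₀ with hκ
  have key : ∀ f : V → Bool, tr f ∈ Mc c u v ↔ f ∈ ({f | u ∈ tr f ∧ v ∉ tr f} ∩
      (fun f : V → Bool => cap c (tr f)) ⁻¹' Iic κ) := by
    intro f
    constructor
    · intro h
      have h' := mem_Mc.1 h
      exact ⟨⟨h'.1, h'.2.1⟩, (Mc_cap_eq h hA₀).le⟩
    · rintro ⟨⟨h1, h2⟩, h3⟩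
      exact Mc_of_le hA₀ h1 h2 h3
  have hcl : IsClosed {f : V → Bool | tr f ∈ Mc c u v} := by
    have : {f : V → Bool | tr f ∈ Mc c u v} = ({f | u ∈ tr f ∧ v ∉ tr f} ∩
      (fun f : V → Bool => cap c (tr f)) ⁻¹' Iic κ) := by
      ext f; exact key f
    rw [this]
    exact (isClosed_sep u v).inter ((lsc_cap c).isClosed_preimage κ)
  -- compactness
  have hcomp : ({f : V → Bool | tr f ∈ Mc c u v} ∩
      ⋂ z : ((Amin c u v)ᶜ : Set V), {f : V → Bool | f z = false}).Nonempty := by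
    refine hcl.isCompact.inter_iInter_nonempty _ ?_ ?_
    · intro z
      exact isClosed_coord (z : V) false
    · intro Z
      have : ∀ Z : Finset ((Amin c u v)ᶜ : Set V), ∃ A ∈ Mc c u v, ∀ z ∈ Z, (z : V) ∉ A := by
        intro Z
        induction Z using Finset.induction_on with
        | empty => exact ⟨A₀, hA₀, by simp⟩
        | insert z Z hz ih =>
          obtain ⟨A, hA, h⟩ := ih
          have hz' : (z : V) ∉ Amin c u v := z.2
          unfold Amin at hz'
          rw [Set.mem_sInter] at hz'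
          push Not at hz'
          obtain ⟨B, hB, hzB⟩ := hz'
          refine ⟨A ∩ B, Mc_inter hc hA hB, ?_⟩
          intro y hy
          rw [Finset.mem_insert] at hy
          rcases hy with rfl | hy
          · exact fun h' => hzB h'.2
          · exact fun h' => h y hy h'.1
      obtain ⟨A, hA, h⟩ := this Z
      obtain ⟨f, rfl⟩ := exists_tr A
      refine ⟨f, hA, ?_⟩
      rw [Set.mem_iInter₂]
      intro z hz
      have := h z hz
      simpa [tr] using this
  obtain ⟨f, hf, hf'⟩ := hcomp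
  rw [Set.mem_iInter] at hf'
  have e : Amin c u v = tr f := by
    apply Set.Subset.antisymm
    · exact Set.sInter_subset_of_mem hf
    · intro z hz
      by_contra hz'
      have := hf' ⟨z, hz'⟩
      simp only [mem_setOf_eq] at this
      rw [show z ∈ tr f ↔ f z = true from Iff.rfl, this] at hz
      exact absurd hz (by simp)
  rw [e]
  exact hf

theorem Amin_subset {c : V → V → ℝ≥0∞} {u v : V} {A : Set V} (hA : A ∈ Mc c u v) :
    Amin c u v ⊆ A := Set.sInter_subset_of_mem hA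

end Pool.Agent.Zk63.LR
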