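import Pool.Agent.Zk63.LR.Disc

set_option autoImplicit false
set_option linter.all false

/-!
# The canonical discrete nested family of cuts separating the points of a countable `G`-set
-/

namespace Pool.Agent.Zk63.LR

open scoped ENNReal Topology Pointwise
open Set Filter

variable {V : Type*}

/-- the canonical family -/
def EE (c : V → V → ℝ≥0∞) : Set (Set V) :=
  {A | ∃ u v, u ≠ v ∧ (A = Amin c u v ∨ A = (Amin c v u)ᶜ)}

section
variable {c : V → V → ℝ≥0∞} (hc : ∀ u v, c u v = c v u) {C : ℝ≥0∞} (hCt : C ≠ ∞)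
  (hW : ∀ u v, u ≠ v → ∃ W : Set V, u ∈ W ∧ v ∉ W ∧ cap c W ≤ C)
include hc hCt hW

theorem Mc_nonempty {u v : V} (h : u ≠ v) : (Mc c u v).Nonempty := by
  obtain ⟨W, h1, h2, h3⟩ := hW u v h
  exact exists_isMin c h1 h2 (ne_top_of_le_ne_top hCt h3)

theorem EE_spec {A : Set V} (hA : A ∈ EE c) :
    ∃ u v, u ≠ v ∧ A ∈ Mc c u v ∧ (A = Amin c u v ∨ A = (Amin c v u)ᶜ) ∧ cap c A ≤ C := by
  obtain ⟨u, v, huv, h⟩ := hA
  have h1 : A ∈ Mc c u v := by
    rcases h with rfl | rfl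
    · exact Amin_mem hc (Mc_nonempty hc hCt hW huv)
    · exact Mc_compl hc (Amin_mem hc (Mc_nonempty hc hCt hW huv.symm))
  refine ⟨u, v, huv, h1, h, ?_⟩
  obtain ⟨W, h2, h3, h4⟩ := hW u v huv
  exact ((mem_Mc.1 h1).2.2.2 W h2 h3).trans h4

theorem EE_no_chain (hpos : ∀ u v, c u v ≠ 0) {A : ℕ → Set V} (hA : ∀ i, A i ∈ EE c)
    (hlt : ∀ i j, i < j → A i ⊂ A j) {x y : V} (hx : ∀ i, x ∈ A i) (hy : ∀ i, y ∉ A i) : False := by
  choose u v huv hM hE hcap using fun i => EE_spec hc hCt hW (hA i)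
  have hmono : Monotone A := by
    intro i j hij
    rcases hij.eq_or_lt with rfl | h
    · exact le_refl _
    · exact (hlt i j h).1
  have hxy : c x y ≠ ∞ :=
    ne_top_of_le_ne_top (ne_top_of_le_ne_top hCt (hcap 0)) (le_cap (hx 0) (hy 0))
  obtain ⟨N, hN⟩ := limit_cut hc hpos hmono (p := fun i => pure (u i)) (q := fun i => pure (v i))
    (fun i => hM i) hCt hcap (hx 0) hy (ε := c x y / 2) (ENNReal.half_pos (hpos x y)).ne'
  set T := ⋃ i, A i with hT
  have hsub : ∀ i, A i ⊆ T := fun i => Set.subset_iUnion A i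
  have hv : ∀ i, N ≤ i → v i ∉ T := fun i hi => by simpa using (hN i hi).1
  have hu : ∀ i j, N ≤ i → i < j → u j ∈ A i := by
    intro i j hi hij
    by_contra hcon
    have h1 : u j ∈ T \ A i := ⟨hsub j (mem_Mc.1 (hM j)).1, hcon⟩
    have h2 : v j ∉ T \ A i := fun h => hv j (hi.trans hij.le) h.1
    have h3 := (mem_Mc.1 (hM j)).2.2.2 _ h1 h2
    have h4 : c x y ≤ cap c (A j) := le_cap (hx j) (hy j)
    have h5 := h4.trans (h3.trans (hN i hi).2)
    exact absurd (lt_of_le_of_lt h5 (ENNReal.half_lt_self (hpos x y) hxy)) (lt_irrefl _)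
  have hle : ∀ i j, N ≤ i → i < j → cap c (A j) ≤ cap c (A i) := by
    intro i j hi hij
    exact (mem_Mc.1 (hM j)).2.2.2 _ (hu i j hi hij)
      (fun h => hv j (hi.trans hij.le) (hsub i h))
  have hge : ∀ i j, N ≤ i → i < j → cap c (A i) ≤ cap c (A j) := by
    intro i j hi hij
    exact (mem_Mc.1 (hM i)).2.2.2 _ ((hlt i j hij).1 (mem_Mc.1 (hM i)).1)
      (fun h => hv i hi (hsub j h))
  have m1 : A N ∈ Mc c (u (N+1)) (v (N+1)) :=
    Mc_of_le (hM (N+1)) (hu N (N+1) le_rfl (Nat.lt_succ_self N))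
      (fun h => hv (N+1) (Nat.le_succ N) (hsub N h)) (hge N (N+1) le_rfl (Nat.lt_succ_self N))
  have m2 : A (N+2) ∈ Mc c (u (N+1)) (v (N+1)) :=
    Mc_of_le (hM (N+1)) ((hlt (N+1) (N+2) (by omega)).1 (mem_Mc.1 (hM (N+1))).1)
      (fun h => hv (N+1) (Nat.le_succ N) (hsub (N+2) h)) (hle (N+1) (N+2) (by omega) (by omega))
  rcases hE (N+1) with h | h
  · have h1 : A (N+1) ⊆ A N := by rw [h]; exact Amin_subset m1
    exact (hlt N (N+1) (Nat.lt_succ_self N)).2 h1
  · have h1 : A (N+2) ⊆ A (N+1) := by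
      rw [h]
      have := Amin_subset (Mc_compl hc m2)
      intro z hz hz'
      exact this hz' hz
    exact (hlt (N+1) (N+2) (by omega)).2 h1

theorem EE_compl {A : Set V} (hA : A ∈ EE c) : Aᶜ ∈ EE c := by
  obtain ⟨u, v, huv, h⟩ := hA
  rcases h with rfl | rfl
  · exact ⟨v, u, huv.symm, Or.inr rfl⟩
  · exact ⟨v, u, huv.symm, Or.inl (compl_compl _)⟩

theorem EE_nested (hpos : ∀ u v, c u v ≠ 0) {A B : Set V} (hA : A ∈ EE c) (hB : B ∈ EE c) :
    A ⊆ B ∨ B ⊆ A ∨ A ⊆ Bᶜ ∨ Aᶜ ⊆ B := by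
  obtain ⟨u, v, -, h1, -⟩ := EE_spec hc hCt hW hA
  obtain ⟨u', v', -, h1', -⟩ := EE_spec hc hCt hW hB
  exact IsMin.nested hc hpos h1 h1'

theorem EE_discrete (hpos : ∀ u v, c u v ≠ 0) (x y : V) :
    {A | A ∈ EE c ∧ x ∈ A ∧ y ∉ A}.Finite := by
  by_contra hinf
  set S := {A | A ∈ EE c ∧ x ∈ A ∧ y ∉ A} with hS
  have hinf' : S.Infinite := hinf
  let f : ℕ → Set V := fun n => (hinf'.natEmbedding S n : Set V)
  have hf : ∀ n, f n ∈ S := fun n => (hinf'.natEmbedding S n).2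
  have hinj : Function.Injective f := by
    intro a b hab
    exact (hinf'.natEmbedding S).injective (Subtype.ext hab)
  have hcmp : ∀ A ∈ S, ∀ B ∈ S, A ⊆ B ∨ B ⊆ A := by
    rintro A ⟨hA, hxA, hyA⟩ B ⟨hB, hxB, hyB⟩
    rcases EE_nested hc hCt hW hpos hA hB with h | h | h | h
    · exact Or.inl h
    · exact Or.inr h
    · exact absurd hxB (h hxA)
    · exact absurd (h hyA) hyB
  obtain ⟨g, hg⟩ := exists_increasing_or_nonincreasing_subseq (fun A B : Set V => A ⊂ B) f
  rcases hg with hg | hg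
  · exact EE_no_chain hc hCt hW hpos (A := fun i => f (g i)) (fun i => (hf _).1)
      (fun i j hij => hg i j hij) (fun i => (hf _).2.1) (fun i => (hf _).2.2)
  · refine EE_no_chain hc hCt hW hpos (A := fun i => (f (g i))ᶜ)
      (fun i => EE_compl hc hCt hW (hf _).1) (fun i j hij => ?_) (x := y) (y := x)
      (fun i => (hf _).2.2) (fun i => not_not.2 (hf _).2.1)
    have h1 := hg i j hij
    have hne : f (g i) ≠ f (g j) := fun h => by
      have := g.injective (hinj h)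
      omega
    have h2 : f (g j) ⊆ f (g i) := by
      rcases hcmp _ (hf (g i)) _ (hf (g j)) with h | h
      · exact absurd (HasSubset.Subset.ssubset_of_ne h hne) h1
      · exact h
    exact compl_lt_compl_iff_lt.2 (HasSubset.Subset.ssubset_of_ne h2 hne.symm)

end

section act
variable {G : Type*} [Group G] [MulAction G V] {c : V → V → ℝ≥0∞}
  (hinv : ∀ (g : G) u v, c (g • u) (g • v) = c u v)
include hinv

theorem I_smul (g : G) (A B : Set V) : I c (g • A) (g • B) = I c A B := by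
  unfold I
  rw [← ((MulAction.toPerm g).prodCongr (MulAction.toPerm g)).tsum_eq]
  refine tsum_congr fun p => ?_
  have e : ((MulAction.toPerm g).prodCongr (MulAction.toPerm g)) p = (g • p.1, g • p.2) := rfl
  rw [e]
  by_cases h : p ∈ A ×ˢ B
  · rw [Set.indicator_of_mem h, Set.indicator_of_mem]
    · exact hinv g _ _
    · exact ⟨Set.smul_mem_smul_set h.1, Set.smul_mem_smul_set h.2⟩
  · rw [Set.indicator_of_notMem h, Set.indicator_of_notMem]
    rintro ⟨h1, h2⟩
    exact h ⟨(Set.smul_mem_smul_set_iff).1 h1, (Set.smul_mem_smul_set_iff).1 h2⟩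

theorem cap_smul (g : G) (A : Set V) : cap c (g • A) = cap c A := by
  unfold cap
  rw [← Set.smul_set_compl, I_smul hinv]

theorem Mc_smul (g : G) {u v : V} {A : Set V} (hA : A ∈ Mc c u v) :
    g • A ∈ Mc c (g • u) (g • v) := by
  rw [mem_Mc] at *
  obtain ⟨h1, h2, h3, h4⟩ := hA
  refine ⟨Set.smul_mem_smul_set h1, fun h => h2 (Set.smul_mem_smul_set_iff.1 h), ?_, ?_⟩
  · rwa [cap_smul hinv]
  · intro X h5 h6
    rw [cap_smul hinv]
    have := h4 (g⁻¹ • X) (by rwa [Set.mem_inv_smul_set_iff]) (by rwa [Set.mem_inv_smul_set_iff])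
    rwa [cap_smul hinv] at this

theorem Mc_smul_iff (g : G) {u v : V} {A : Set V} :
    g • A ∈ Mc c (g • u) (g • v) ↔ A ∈ Mc c u v := by
  constructor
  · intro h
    have := Mc_smul hinv g⁻¹ h
    simpa using this
  · exact Mc_smul hinv g

theorem Amin_smul (g : G) (u v : V) : Amin c (g • u) (g • v) = g • Amin c u v := by
  ext z
  unfold Amin
  rw [Set.mem_smul_set_iff_inv_smul_mem, Set.mem_sInter, Set.mem_sInter]
  constructor
  · intro h A hA
    have := h (g • A) (Mc_smul hinv g hA)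
    rwa [Set.mem_smul_set_iff_inv_smul_mem] at this
  · intro h A hA
    have h1 : g⁻¹ • A ∈ Mc c u v := by
      rw [← Mc_smul_iff hinv g]
      simpa using hA
    have := h _ h1
    rwa [Set.mem_inv_smul_set_iff, smul_inv_smul] at this

theorem EE_smul (g : G) {A : Set V} (hA : A ∈ EE c) : g • A ∈ EE c := by
  obtain ⟨u, v, huv, h⟩ := hA
  refine ⟨g • u, g • v, fun h' => huv (smul_left_cancel g h'), ?_⟩
  rcases h with rfl | rfl
  · left; rw [Amin_smul hinv]
  · right; rw [Amin_smul hinv, Set.smul_set_compl]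

end act

end Pool.Agent.Zk63.LR
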