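import Pool.Agent.Zk63.LR.Ext
import Pool.Agent.Zk63.LR.Weight
import Pool.Agent.Zk63.LR.FWall

set_option autoImplicit false
set_option linter.all false

/-!
# The countable relative extension theorem
-/

namespace Pool.Agent.Zk63.LR

open scoped Pointwise
open Set

theorem stab_finite {G V : Type*} [Group G] [MulAction G V] {A : Set V} (h1 : A.Nonempty)
    (h2 : Aᶜ.Nonempty)
    (hfin : ∀ p : V × V, {q | q ∈ MulAction.orbit G p ∧ q.1 ∈ A ∧ q.2 ∉ A}.Finite)
    (hpair : ∀ u v : V, u ≠ v → {g : G | g • u = u ∧ g • v = v}.Finite) :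
    {g : G | g • A = A}.Finite := by
  obtain ⟨x, hx⟩ := h1
  obtain ⟨y, hy⟩ := h2
  have hxy : x ≠ y := fun h => hy (h ▸ hx)
  have hsub : {g : G | g • A = A} ⊆
      ⋃ q ∈ {q | q ∈ MulAction.orbit G (x, y) ∧ q.1 ∈ A ∧ q.2 ∉ A}, {g : G | g • (x, y) = q} := by
    intro g hg
    have hg' : g • A = A := hg
    rw [Set.mem_iUnion₂]
    refine ⟨g • (x, y), ⟨⟨g, rfl⟩, ?_, ?_⟩, rfl⟩
    · show g • x ∈ A
      rw [← hg']
      exact Set.smul_mem_smul_set hx
    · show g • y ∉ A
      rw [← hg', Set.smul_mem_smul_set_iff]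
      exact hy
  refine Set.Finite.subset (Set.Finite.biUnion (hfin (x, y)) ?_) hsub
  intro q _
  by_cases hne : ∃ g₀ : G, g₀ • (x, y) = q
  · obtain ⟨g₀, hg₀⟩ := hne
    refine Set.Finite.subset ((hpair x y hxy).image (fun k => g₀ * k)) ?_
    intro g hg
    have hg' : g • (x, y) = q := hg
    refine ⟨g₀⁻¹ * g, ?_, by group⟩
    have h3 : (g₀⁻¹ * g) • (x, y) = (x, y) := by
      rw [mul_smul, hg', ← hg₀, inv_smul_smul]
    exact ⟨congrArg Prod.fst h3, congrArg Prod.snd h3⟩
  · convert Set.finite_empty (α := G)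
    rw [Set.eq_empty_iff_forall_notMem]
    intro g hg
    exact hne ⟨g, hg⟩

open Classical in
theorem encard_biUnion_le {α ι : Type*} (s : Finset ι) (f : ι → Set α) (M : ι → ℕ)
    (h : ∀ i ∈ s, (f i).encard ≤ M i) : (⋃ i ∈ s, f i).encard ≤ ((∑ i ∈ s, M i : ℕ) : ℕ∞) := by
  induction s using Finset.induction_on with
  | empty => simp
  | insert a s ha ih =>
    rw [Finset.sum_insert ha, Finset.set_biUnion_insert]
    refine le_trans (Set.encard_union_le _ _) ?_
    push_cast
    refine add_le_add (h a (Finset.mem_insert_self _ _)) ?_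
    have := ih (fun i hi => h i (Finset.mem_insert_of_mem hi))
    push_cast at this
    exact this

section
variable {G B W : Type*} [Group G] [Group W] (N H : Subgroup G) (ι : N →* FreeGroup B)

/-- `(f, b)` does not separate an element of `N` from its translates by `N ∩ H` -/
def NC (f : FreeGroup B) (b : B) : Prop :=
  ∀ n h : N, (h : G) ∈ H → (Ends b ((ι n)⁻¹ * f) ↔ Ends b ((ι (n * h))⁻¹ * f))

/-- the wall -/
def Wl (f : FreeGroup B) (b : B) : Set (G ⧸ H) :=
  {v | ∃ n : N, ((n : G) : G ⧸ H) = v ∧ Ends b ((ι n)⁻¹ * f)}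

variable {N H ι}

theorem mem_Wl {f : FreeGroup B} {b : B} (h : NC N H ι f b) (n : N) :
    ((n : G) : G ⧸ H) ∈ Wl N H ι f b ↔ Ends b ((ι n)⁻¹ * f) := by
  constructor
  · rintro ⟨n', hn', he⟩
    have h1 : ((n'⁻¹ * n : N) : G) ∈ H := by
      rw [QuotientGroup.eq] at hn'
      simpa using hn'
    have h2 := (h n' (n'⁻¹ * n) h1).1 he
    rwa [mul_inv_cancel_left] at h2
  · intro he
    exact ⟨n, rfl, he⟩

theorem NC.mul {f : FreeGroup B} {b : B} (h : NC N H ι f b) (k : N) : NC N H ι (ι k * f) b := by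
  intro n g hg
  have := h (k⁻¹ * n) g hg
  have e1 : (ι (k⁻¹ * n))⁻¹ * f = (ι n)⁻¹ * (ι k * f) := by
    rw [map_mul, map_inv]; group
  have e2 : (ι (k⁻¹ * n * g))⁻¹ * f = (ι (n * g))⁻¹ * (ι k * f) := by
    rw [map_mul, map_mul, map_mul, map_inv]; group
  rwa [e1, e2] at this

theorem rel_ext [Countable G] [N.Normal] [N.FiniteIndex]
    (hNH : ∀ g : G, ∃ n ∈ N, ∃ h ∈ H, g = n * h) (hι : Function.Injective ι)
    (hS : ∀ m : N, (m : G) ∉ H → ∃ (f : FreeGroup B) (b : B), NC N H ι f b ∧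
      ¬ (Ends b f ↔ Ends b ((ι m)⁻¹ * f)))
    (φ : G →* MulAut W)
    (hH1 : ∀ D : Subgroup G, Finite D → ∀ δ : G → W,
      (∀ g ∈ D, ∀ h ∈ D, δ (g * h) = δ g * φ g (δ h)) → ∃ r : W, ∀ g ∈ D, δ g * φ g r = r)
    (z₁ : G → W) (hz₁ : ∀ g ∈ H, ∀ h ∈ H, z₁ (g * h) = z₁ g * φ g (z₁ h)) :
    ∃ z : G → W, (∀ g h, z (g * h) = z g * φ g (z h)) ∧ ∀ g ∈ H, z g = z₁ g := by
  classical
  have hrepr : ∀ v : G ⧸ H, ∃ n : N, ((n : G) : G ⧸ H) = v := by
    intro v
    induction v using QuotientGroup.induction_on with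
    | H g =>
      obtain ⟨n, hn, h, hh, rfl⟩ := hNH g
      refine ⟨⟨n, hn⟩, ?_⟩
      rw [QuotientGroup.eq]
      simpa using hh
  have hact : ∀ (n : N) (m : N), (n : G) • ((m : G) : G ⧸ H) = (((n * m : N) : G) : G ⧸ H) :=
    fun n m => rfl
  set WW : Set (Set (G ⧸ H)) := {A | ∃ f b, NC N H ι f b ∧ (A = Wl N H ι f b ∨ A = (Wl N H ι f b)ᶜ)}
    with hWW
  have hsep : ∀ u v : G ⧸ H, u ≠ v → ∃ A ∈ WW, u ∈ A ∧ v ∉ A := by
    intro u v huv
    obtain ⟨n, rfl⟩ := hrepr u
    obtain ⟨m, rfl⟩ := hrepr v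
    have h1 : ((n⁻¹ * m : N) : G) ∉ H := by
      intro h
      apply huv
      rw [QuotientGroup.eq]
      simpa using h
    obtain ⟨f, b, hNC, hne⟩ := hS _ h1
    have hNC' := hNC.mul n
    have e1 : (ι n)⁻¹ * (ι n * f) = f := by group
    have e2 : (ι m)⁻¹ * (ι n * f) = (ι (n⁻¹ * m))⁻¹ * f := by
      rw [map_mul, map_inv]; group
    have m1 := mem_Wl hNC' n
    have m2 := mem_Wl hNC' m
    rw [e1] at m1
    rw [e2] at m2
    by_cases h : Ends b f
    · refine ⟨_, ⟨_, _, hNC', Or.inl rfl⟩, m1.2 h, fun h' => hne ?_⟩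
      exact ⟨fun _ => m2.1 h', fun _ => h⟩
    · refine ⟨_, ⟨_, _, hNC', Or.inr rfl⟩, fun h' => h (m1.1 h'), ?_⟩
      rw [Set.mem_compl_iff, not_not]
      apply m2.2
      by_contra h'
      exact hne ⟨fun h'' => absurd h'' h, fun h'' => absurd h'' h'⟩
  have hfin : ∀ p : (G ⧸ H) × (G ⧸ H), ∃ M : ℕ, ∀ A ∈ WW,
      {q | q ∈ MulAction.orbit G p ∧ ¬ (q.1 ∈ A ↔ q.2 ∈ A)}.encard ≤ M := by
    rintro ⟨u, v⟩
    choose a ha using fun c : G ⧸ N => hrepr (c.out • u)
    choose a' ha' using fun c : G ⧸ N => hrepr (c.out • v)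
    choose M hM using fun c : G ⧸ N => ends_finite (B := B) ((ι (a' c))⁻¹ * ι (a c))
    haveI : Fintype (G ⧸ N) := Fintype.ofFinite _
    refine ⟨∑ c : G ⧸ N, M c, ?_⟩
    -- reduce to the wall itself
    have key : ∀ f b, NC N H ι f b →
        {q | q ∈ MulAction.orbit G (u, v) ∧ ¬ (q.1 ∈ Wl N H ι f b ↔ q.2 ∈ Wl N H ι f b)}.encard ≤
          ((∑ c : G ⧸ N, M c : ℕ) : ℕ∞) := by
      intro f b hNC
      let T : G ⧸ N → Set N := fun c => {n | ¬ (Ends b ((ι (n * a c))⁻¹ * f) ↔
        Ends b ((ι (n * a' c))⁻¹ * f))}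
      let F : G ⧸ N → N → (G ⧸ H) × (G ⧸ H) := fun c n =>
        ((((n * a c : N) : G) : G ⧸ H), (((n * a' c : N) : G) : G ⧸ H))
      refine le_trans (Set.encard_le_encard (t := ⋃ c ∈ (Finset.univ : Finset (G ⧸ N)),
        F c '' T c) ?_) (encard_biUnion_le _ _ M ?_)
      · rintro q ⟨⟨g, hg⟩, hq⟩
        have hg' : g • (u, v) = q := hg
        rw [Set.mem_iUnion₂]
        set c : G ⧸ N := (g : G ⧸ N) with hc
        have h1 : g * (c.out)⁻¹ ∈ N := by
          have h2 : (c.out)⁻¹ * g ∈ N := by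
            rw [← QuotientGroup.eq, QuotientGroup.out_eq']
          have := (inferInstance : N.Normal).conj_mem _ h2 c.out
          simpa [mul_assoc] using this
        have h3 : g = (g * (c.out)⁻¹) * c.out := by group
        refine ⟨c, Finset.mem_univ _, ⟨g * (c.out)⁻¹, h1⟩, ?_, ?_⟩
        · show ¬ _
          rw [← mem_Wl hNC, ← mem_Wl hNC]
          have e1 : ((((⟨g * (c.out)⁻¹, h1⟩ * a c : N) : G)) : G ⧸ H) = q.1 := by
            rw [← hact, ha, ← mul_smul, ← h3, ← hg']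
            rfl
          have e2 : ((((⟨g * (c.out)⁻¹, h1⟩ * a' c : N) : G)) : G ⧸ H) = q.2 := by
            rw [← hact, ha', ← mul_smul, ← h3, ← hg']
            rfl
          rw [e1, e2]
          exact hq
        · apply Prod.ext
          · show ((((⟨g * (c.out)⁻¹, h1⟩ * a c : N) : G)) : G ⧸ H) = q.1
            rw [← hact, ha, ← mul_smul, ← h3, ← hg']
            rfl
          · show ((((⟨g * (c.out)⁻¹, h1⟩ * a' c : N) : G)) : G ⧸ H) = q.2
            rw [← hact, ha', ← mul_smul, ← h3, ← hg']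
            rfl
      · intro c _
        refine le_trans (Set.encard_image_le _ _) (le_trans ?_ (hM c b))
        refine Set.encard_le_encard_of_injOn (f := fun n : N => (ι (n * a c))⁻¹ * f) ?_ ?_
        · intro n hn
          have e : (ι (a' c))⁻¹ * ι (a c) * ((ι (n * a c))⁻¹ * f) = (ι (n * a' c))⁻¹ * f := by
            rw [map_mul, map_mul]; group
          show ¬ _
          rw [e]
          exact hn
        · intro n _ n' _ hnn
          have h4 : (ι (n * a c))⁻¹ * f = (ι (n' * a c))⁻¹ * f := hnn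
          have h5 : ι (n * a c) = ι (n' * a c) := inv_injective (mul_right_cancel h4)
          exact mul_right_cancel (hι h5)
    rintro A ⟨f, b, hNC, rfl | rfl⟩
    · exact key f b hNC
    · convert key f b hNC using 5
      simp only [Set.mem_compl_iff]
      tauto
  have hpair : ∀ u v : G ⧸ H, u ≠ v → {g : G | g • u = u ∧ g • v = v}.Finite := by
    intro u v huv
    -- `N` meets this set trivially
    have hN : ∀ k : N, (k : G) • u = u → (k : G) • v = v → k = 1 := by
      intro k hku hkv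
      by_contra hk
      obtain ⟨n, rfl⟩ := hrepr u
      obtain ⟨m, rfl⟩ := hrepr v
      obtain ⟨A, ⟨f, b, hNC, hA⟩, h1, h2⟩ := hsep _ _ huv
      have hne : ∀ j : ℤ, ¬ (Ends b ((ι (k ^ j * n))⁻¹ * f) ↔ Ends b ((ι (k ^ j * m))⁻¹ * f)) := by
        intro j
        rw [← mem_Wl hNC, ← mem_Wl hNC]
        have e1 : ((((k ^ j * n : N) : G)) : G ⧸ H) = ((n : G) : G ⧸ H) := by
          rw [← hact]
          have : ((k ^ j : N) : G) = (k : G) ^ j := by simp
          rw [this]
          have hs : (k : G) ∈ MulAction.stabilizer G ((n : G) : G ⧸ H) := hku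
          exact Subgroup.zpow_mem _ hs j
        have e2 : ((((k ^ j * m : N) : G)) : G ⧸ H) = ((m : G) : G ⧸ H) := by
          rw [← hact]
          have : ((k ^ j : N) : G) = (k : G) ^ j := by simp
          rw [this]
          have hs : (k : G) ∈ MulAction.stabilizer G ((m : G) : G ⧸ H) := hkv
          exact Subgroup.zpow_mem _ hs j
        rw [e1, e2]
        rcases hA with rfl | rfl
        · intro h; exact h2 (h.1 h1)
        · intro h; exact h2 (fun h3 => h1 (h.2 h3))
      obtain ⟨M, hM⟩ := ends_finite (B := B) ((ι m)⁻¹ * ι n)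
      have hfinset : {z : FreeGroup B | ¬ (Ends b z ↔ Ends b ((ι m)⁻¹ * ι n * z))}.Finite := by
        rw [← Set.encard_lt_top_iff]
        exact lt_of_le_of_lt (hM b) (ENat.coe_lt_top M)
      have hinj : Function.Injective (fun j : ℤ => (ι (k ^ j * n))⁻¹ * f) := by
        intro i j hij
        have h4 : (ι (k ^ i * n))⁻¹ * f = (ι (k ^ j * n))⁻¹ * f := hij
        have h5 : ι (k ^ i * n) = ι (k ^ j * n) := inv_injective (mul_right_cancel h4)
        have h6 : k ^ i = k ^ j := mul_right_cancel (hι h5)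
        have h7 : (ι k) ^ i = (ι k) ^ j := by rw [← map_zpow, ← map_zpow, h6]
        refine free_torsionfree (fun h => hk (hι (by rw [h, map_one]))) h7
      have hinf := Set.infinite_range_of_injective hinj
      apply hinf
      refine hfinset.subset ?_
      rintro _ ⟨j, rfl⟩
      have e : (ι m)⁻¹ * ι n * ((ι (k ^ j * n))⁻¹ * f) = (ι (k ^ j * m))⁻¹ * f := by
        rw [map_mul, map_mul]; group
      show ¬ _
      simp only
      rw [e]
      exact hne j
    have hinj : Set.InjOn (fun g : G => (g : G ⧸ N)) {g : G | g • u = u ∧ g • v = v} := by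
      intro g hg g' hg' he
      have h1 : g⁻¹ * g' ∈ N := by
        have : (g : G ⧸ N) = (g' : G ⧸ N) := he
        rwa [QuotientGroup.eq] at this
      have h2 := hN ⟨g⁻¹ * g', h1⟩ (by
        show (g⁻¹ * g') • u = u
        rw [mul_smul, hg'.1, inv_smul_eq_iff, hg.1]) (by
        show (g⁻¹ * g') • v = v
        rw [mul_smul, hg'.2, inv_smul_eq_iff, hg.2])
      have h3 : g⁻¹ * g' = 1 := congrArg Subtype.val h2
      exact (inv_mul_eq_one.1 h3)
    exact Set.Finite.of_finite_image (Set.toFinite _) hinj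
  have hcount : Countable (G ⧸ H) := Quotient.countable
  obtain ⟨E, hinv, hcompl, hnest, hdisc, hEsep, hEne, hEfin⟩ := rel_cuts (G := G) WW hsep hfin
  have hE : Nest E := ⟨hcompl, hnest, hdisc⟩
  have hst : MulAction.stabilizer G ((1 : G) : G ⧸ H) = H := MulAction.stabilizer_quotient H
  have := ext_crossed hE hinv hEsep φ ?_ ((1 : G) : G ⧸ H) ?_ z₁ ?_
  · rwa [hst] at this
  · intro A hA δ hδ
    have hf : {g : G | g • A = A}.Finite := stab_finite (hEne A hA).1 (hEne A hA).2 (hEfin A hA) hpair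
    haveI : Finite (MulAction.stabilizer G A) := hf
    exact hH1 _ this δ hδ
  · intro v
    induction v using QuotientGroup.induction_on with
    | H g => exact ⟨g, by show ((g * 1 : G) : G ⧸ H) = _; rw [mul_one]⟩
  · rw [hst]; exact hz₁

end

end Pool.Agent.Zk63.LR
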