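import Pool.Agent.Zk63.LR.RelExt
import Pool.Agent.Zk63.LR.Red

set_option autoImplicit false
set_option linter.all false

/-!
# The relative extension theorem inside an ambient group, and subgroups generated by letters
-/

namespace Pool.Agent.Zk63.LR

open scoped Pointwise
open Set

/-- `rel_ext` for subgroups of an ambient group -/
theorem rel_ext_sub {G B W : Type*} [Group G] [Group W] (G₂ N H : Subgroup G) (hc : Countable G₂)
    (hN : N ≤ G₂) (hH : H ≤ G₂) (hnorm : ∀ g ∈ G₂, ∀ n ∈ N, g * n * g⁻¹ ∈ N)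
    (hfin : (N.subgroupOf G₂).FiniteIndex)
    (hNH : ∀ g ∈ G₂, ∃ n ∈ N, ∃ h ∈ H, g = n * h)
    (ι : N →* FreeGroup B) (hι : Function.Injective ι)
    (hS : ∀ m : N, (m : G) ∉ H → ∃ (f : FreeGroup B) (b : B),
      (∀ n h : N, (h : G) ∈ H → (Ends b ((ι n)⁻¹ * f) ↔ Ends b ((ι (n * h))⁻¹ * f))) ∧
      ¬ (Ends b f ↔ Ends b ((ι m)⁻¹ * f)))
    (φ : G →* MulAut W)
    (hH1 : ∀ D : Subgroup G, Finite D → ∀ δ : G → W,
      (∀ g ∈ D, ∀ h ∈ D, δ (g * h) = δ g * φ g (δ h)) → ∃ r : W, ∀ g ∈ D, δ g * φ g r = r)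
    (z₁ : G → W) (hz₁ : ∀ g ∈ H, ∀ h ∈ H, z₁ (g * h) = z₁ g * φ g (z₁ h)) :
    ∃ z : G → W, (∀ g ∈ G₂, ∀ h ∈ G₂, z (g * h) = z g * φ g (z h)) ∧ ∀ g ∈ H, z g = z₁ g := by
  classical
  haveI hnormal : (N.subgroupOf G₂).Normal := by
    refine ⟨?_⟩
    intro n hn g
    rw [Subgroup.mem_subgroupOf] at hn ⊢
    exact hnorm g g.2 n hn
  let ι' : N.subgroupOf G₂ →* FreeGroup B := ι.comp (Subgroup.subgroupOfEquivOfLe hN).toMonoidHom
  have hι'app : ∀ n : N.subgroupOf G₂, ι' n = ι ⟨((n : G₂) : G), n.2⟩ := fun n => rfl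
  have hι' : Function.Injective ι' := hι.comp (Subgroup.subgroupOfEquivOfLe hN).injective
  have := rel_ext (G := G₂) (N := N.subgroupOf G₂) (H := H.subgroupOf G₂) (ι := ι') ?_ hι' ?_
    (φ.comp G₂.subtype) ?_ (fun g => z₁ g) ?_
  · obtain ⟨z, hz, hz'⟩ := this
    refine ⟨fun g => if h : g ∈ G₂ then z ⟨g, h⟩ else 1, ?_, ?_⟩
    · intro g hg h hh
      simp only [dif_pos hg, dif_pos hh, dif_pos (G₂.mul_mem hg hh)]
      exact hz ⟨g, hg⟩ ⟨h, hh⟩
    · intro g hg
      simp only [dif_pos (hH hg)]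
      exact hz' ⟨g, hH hg⟩ (Subgroup.mem_subgroupOf.2 hg)
  · intro g
    obtain ⟨n, hn, h, hh, e⟩ := hNH g g.2
    exact ⟨⟨n, hN hn⟩, Subgroup.mem_subgroupOf.2 hn, ⟨h, hH hh⟩, Subgroup.mem_subgroupOf.2 hh,
      Subtype.ext e⟩
  · intro m hm
    have hm' : (((m : G₂) : G)) ∉ H := fun h => hm (Subgroup.mem_subgroupOf.2 h)
    obtain ⟨f, b, h1, h2⟩ := hS ⟨((m : G₂) : G), m.2⟩ hm'
    refine ⟨f, b, ?_, h2⟩
    intro n h hh
    exact h1 ⟨((n : G₂) : G), n.2⟩ ⟨((h : G₂) : G), h.2⟩ (Subgroup.mem_subgroupOf.1 hh)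
  · intro D hD δ hδ
    haveI := hD
    have hfinD : Finite (D.map G₂.subtype) := by
      have : Function.Surjective (G₂.subtype.subgroupMap D) := G₂.subtype.subgroupMap_surjective D
      exact Finite.of_surjective _ this
    obtain ⟨r, hr⟩ := hH1 (D.map G₂.subtype) hfinD
      (fun g => if h : g ∈ G₂ then δ ⟨g, h⟩ else 1) (by
        rintro _ ⟨g, hg, rfl⟩ _ ⟨h, hh, rfl⟩
        have e1 : (G₂.subtype g) ∈ G₂ := g.2
        have e2 : (G₂.subtype h) ∈ G₂ := h.2
        simp only [dif_pos e1, dif_pos e2, dif_pos (G₂.mul_mem e1 e2)]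
        exact hδ g hg h hh)
    refine ⟨r, ?_⟩
    intro g hg
    have := hr (G₂.subtype g) ⟨g, hg, rfl⟩
    have e1 : (G₂.subtype g) ∈ G₂ := g.2
    simp only [dif_pos e1] at this
    exact this
  · intro g hg h hh
    exact hz₁ g (Subgroup.mem_subgroupOf.1 hg) h (Subgroup.mem_subgroupOf.1 hh)

section letters
variable {β : Type*}

open Classical in
theorem mem_closure_iff_letters (C : Set β) (x : FreeGroup β) :
    x ∈ Subgroup.closure (FreeGroup.of '' C) ↔ ∀ a ∈ x.toWord, a.1 ∈ C := by
  constructor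
  · intro hx
    induction hx using Subgroup.closure_induction with
    | mem x hx =>
      obtain ⟨c, hc, rfl⟩ := hx
      intro a ha
      rw [FreeGroup.toWord_of, List.mem_singleton] at ha
      rw [ha]; exact hc
    | one => intro a ha; simp at ha
    | mul x y hx hy ihx ihy =>
      intro a ha
      rw [FreeGroup.toWord_mul] at ha
      have hsub : (FreeGroup.reduce (x.toWord ++ y.toWord)).Sublist (x.toWord ++ y.toWord) :=
        (FreeGroup.reduce.red).sublist
      have := hsub.subset ha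
      rw [List.mem_append] at this
      rcases this with h | h
      · exact ihx a h
      · exact ihy a h
    | inv x hx ih =>
      intro a ha
      rw [FreeGroup.toWord_inv] at ha
      simp only [FreeGroup.invRev, List.mem_reverse, List.mem_map] at ha
      obtain ⟨b, hb, rfl⟩ := ha
      exact ih b hb
  · intro h
    have : ∀ L : List (β × Bool), (∀ a ∈ L, a.1 ∈ C) →
        FreeGroup.mk L ∈ Subgroup.closure (FreeGroup.of '' C) := by
      intro L
      induction L with
      | nil => intro _; exact Subgroup.one_mem _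
      | cons a L ih =>
        intro hL
        have e : FreeGroup.mk (a :: L) = FreeGroup.mk [a] * FreeGroup.mk L := by
          rw [FreeGroup.mul_mk]; rfl
        rw [e]
        refine Subgroup.mul_mem _ ?_ (ih fun b hb => hL b (List.mem_cons_of_mem _ hb))
        have ha : FreeGroup.of a.1 ∈ Subgroup.closure (FreeGroup.of '' C) :=
          Subgroup.subset_closure ⟨a.1, hL a (by simp), rfl⟩
        obtain ⟨a1, a2⟩ := a
        cases a2 with
        | true => exact ha
        | false =>
          have : FreeGroup.mk [(a1, false)] = (FreeGroup.of a1)⁻¹ := rfl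
          rw [this]
          exact Subgroup.inv_mem _ ha
    have h1 := this x.toWord h
    rwa [FreeGroup.mk_toWord] at h1

/-- multiplying on the left by letters different from `b` does not matter -/
theorem ends_letters {C : Set β} {b : β} (hb : b ∉ C) {x : FreeGroup β}
    (hx : x ∈ Subgroup.closure (FreeGroup.of '' C)) (z : FreeGroup β) :
    Ends b z ↔ Ends b (x * z) := by
  classical
  have : ∀ L : List (β × Bool), (∀ a ∈ L, a.1 ∈ C) → (Ends b z ↔ Ends b (FreeGroup.mk L * z)) := by
    intro L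
    induction L with
    | nil =>
      intro _
      have : (FreeGroup.mk [] : FreeGroup β) = 1 := rfl
      rw [this, one_mul]
    | cons a L ih =>
      intro hL
      have e : FreeGroup.mk (a :: L) = FreeGroup.mk [a] * FreeGroup.mk L := by
        rw [FreeGroup.mul_mk]; rfl
      rw [ih fun c hc => hL c (List.mem_cons_of_mem _ hc), e, mul_assoc]
      by_contra hne
      have ha : a.1 ∈ C := hL a (by simp)
      rcases ends_change hne with ⟨-, h⟩ | ⟨-, h⟩
      · rw [h] at ha; exact hb ha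
      · rw [h] at ha; exact hb ha
  have h1 := this x.toWord ((mem_closure_iff_letters C x).1 hx)
  rwa [FreeGroup.mk_toWord] at h1

/-- an element with a letter outside `C` is separated from `1` by a wall of such a letter -/
theorem sep_letters {C : Set β} {x : FreeGroup β}
    (hx : x ∉ Subgroup.closure (FreeGroup.of '' C)) :
    ∃ (b : β) (f : FreeGroup β), b ∉ C ∧ ¬ (Ends b f ↔ Ends b (x⁻¹ * f)) := by
  classical
  have hx' : ¬ ∀ a ∈ (x⁻¹).toWord, a.1 ∈ C := by
    intro h
    have := (mem_closure_iff_letters C x⁻¹).2 h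
    exact hx (by simpa using Subgroup.inv_mem _ this)
  -- the last letter outside `C`
  have hex : ∃ (p s : List (β × Bool)) (c : β × Bool), (x⁻¹).toWord = p ++ c :: s ∧ c.1 ∉ C ∧
      ∀ a ∈ s, a.1 ∈ C := by
    generalize (x⁻¹).toWord = L at hx'
    induction L with
    | nil => exact absurd (by simp) hx'
    | cons a L ih =>
      by_cases h : ∀ b ∈ L, b.1 ∈ C
      · refine ⟨[], L, a, rfl, ?_, h⟩
        intro ha
        apply hx'
        intro b hb
        rw [List.mem_cons] at hb
        rcases hb with rfl | hb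
        · exact ha
        · exact h b hb
      · obtain ⟨p, s, c, h1, h2, h3⟩ := ih h
        exact ⟨a :: p, s, c, by rw [h1]; rfl, h2, h3⟩
  obtain ⟨p, s, ⟨b, ε⟩, hword, hbC, hs⟩ := hex
  have hred : FreeGroup.IsReduced (p ++ (b, ε) :: s) := by
    rw [← hword]; exact FreeGroup.isReduced_toWord
  have hredpc : FreeGroup.IsReduced (p ++ [(b, ε)]) := Pool.Agent.Zk63.LR.red_sub hred ⟨[], s, by simp⟩
  have hredp : FreeGroup.IsReduced p := Pool.Agent.Zk63.LR.red_sub hred ⟨[], (b, ε) :: s, by simp⟩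
  have tw : ∀ L : List (β × Bool), FreeGroup.IsReduced L → (FreeGroup.mk L).toWord = L := by
    intro L hL
    rw [FreeGroup.toWord_mk, hL.reduce_eq]
  have hx1 : x⁻¹ = FreeGroup.mk (p ++ (b, ε) :: s) := by rw [← hword, FreeGroup.mk_toWord]
  have hsC : FreeGroup.mk s ∈ Subgroup.closure (FreeGroup.of '' C) := by
    rw [mem_closure_iff_letters]
    intro a ha
    apply hs
    rw [FreeGroup.toWord_mk] at ha
    exact (FreeGroup.reduce.red (L := s)).sublist.subset ha
  have hnot1 : ¬ Ends b (1 : FreeGroup β) := by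
    unfold Ends; simp
  cases ε with
  | true =>
    refine ⟨b, (FreeGroup.mk s)⁻¹, hbC, ?_⟩
    have e1 : ¬ Ends b (FreeGroup.mk s)⁻¹ := by
      have := ends_letters hbC (Subgroup.inv_mem _ hsC) 1
      rw [mul_one] at this
      exact fun h => hnot1 (this.2 h)
    have e2 : Ends b (x⁻¹ * (FreeGroup.mk s)⁻¹) := by
      have : x⁻¹ * (FreeGroup.mk s)⁻¹ = FreeGroup.mk (p ++ [(b, true)]) := by
        rw [hx1, mul_inv_eq_iff_eq_mul, FreeGroup.mul_mk]
        congr 1
        simp
      unfold Ends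
      rw [this, tw _ hredpc]
      simp
    exact fun h => e1 (h.2 e2)
  | false =>
    refine ⟨b, (FreeGroup.mk s)⁻¹ * FreeGroup.of b, hbC, ?_⟩
    have e1 : Ends b ((FreeGroup.mk s)⁻¹ * FreeGroup.of b) := by
      rw [← ends_letters hbC (Subgroup.inv_mem _ hsC)]
      unfold Ends
      simp
    have e2 : ¬ Ends b (x⁻¹ * ((FreeGroup.mk s)⁻¹ * FreeGroup.of b)) := by
      have hof : FreeGroup.mk [(b, false)] = (FreeGroup.of b)⁻¹ := rfl
      have : x⁻¹ * ((FreeGroup.mk s)⁻¹ * FreeGroup.of b) = FreeGroup.mk p := by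
        rw [hx1]
        have h1 : FreeGroup.mk (p ++ (b, false) :: s) =
            FreeGroup.mk p * (FreeGroup.of b)⁻¹ * FreeGroup.mk s := by
          rw [← hof, FreeGroup.mul_mk, FreeGroup.mul_mk]
          congr 1
          simp
        rw [h1]
        group
      unfold Ends
      rw [this, tw _ hredp]
      intro h
      obtain ⟨p', hp'⟩ : ∃ p', p = p' ++ [(b, true)] := by
        rcases List.eq_nil_or_concat p with h1 | ⟨p', a, h1⟩
        · rw [h1] at h; simp at h
        · rw [h1] at h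
          simp only [List.concat_eq_append, List.getLast?_append, List.getLast?_singleton,
            Option.some_or, Option.some.injEq] at h
          exact ⟨p', by rw [h1, h]; simp⟩
      have h4 : FreeGroup.IsReduced [(b, true), (b, false)] := Pool.Agent.Zk63.LR.red_sub hred ⟨p', s, by
        rw [hp']; simp⟩
      have := (FreeGroup.isReduced_cons_cons.1 h4).1 rfl
      simp at this
    exact fun h => e2 (h.1 e1)

end letters

end Pool.Agent.Zk63.LR
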