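import Pool.Agent.Zk63.LR.Path

set_option autoImplicit false
set_option linter.all false

/-!
# Telescoping along paths
-/

namespace Pool.Agent.Zk63.LR

open scoped Pointwise
open Set

variable {V : Type*} {E : Set (Set V)}

/-- `A` starts at the point `v` -/
def At (E : Set (Set V)) (v : V) (A : Set V) : Prop :=
  A ∈ E ∧ v ∈ A ∧ ∀ B ∈ E, v ∈ B → B ⊆ A → B = A

theorem At.unique (hE : Nest E) (hsep : ∀ u v : V, u ≠ v → ∃ A ∈ E, u ∈ A ∧ v ∉ A)
    {v v' : V} {A : Set V} (h : At E v A) (h' : At E v' A) : v = v' := by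
  by_contra hne
  obtain ⟨B, hB, h1, h2⟩ := hsep v v' hne
  rcases hE.nested A h.1 B hB with h3 | h3 | h3 | h3
  · exact h2 (h3 h'.2.1)
  · have := h.2.2 B hB h1 h3
    exact h2 (this ▸ h'.2.1)
  · exact h3 h.2.1 h1
  · have h4 : Bᶜ ⊆ A := fun z hz => by
      by_contra hzA
      exact hz (h3 hzA)
    have := h'.2.2 Bᶜ (hE.compl B hB) h2 h4
    have h5 : v ∈ Bᶜ := this ▸ h.2.1
    exact h5 h1

theorem At.smul {G : Type*} [Group G] [MulAction G V]
    (hinv : ∀ (g : G), ∀ A ∈ E, g • A ∈ E) (g : G) {v : V} {A : Set V} (h : At E v A) :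
    At E (g • v) (g • A) := by
  refine ⟨hinv g A h.1, Set.smul_mem_smul_set h.2.1, ?_⟩
  intro B hB hv hBA
  have h1 := h.2.2 (g⁻¹ • B) (hinv g⁻¹ B hB) (by rwa [Set.mem_inv_smul_set_iff])
    (by
      have := Set.smul_set_mono (a := g⁻¹) hBA
      simpa using this)
  rw [← h1, smul_inv_smul]

theorem at_head (hE : Nest E) {x y : V} {A : Set V} {l : List (Set V)}
    (h : hE.path x y = A :: l) : At E x A := by
  have hA : A ∈ hE.path x y := by rw [h]; exact List.mem_cons_self
  rw [hE.mem_path] at hA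
  refine ⟨hA.1, hA.2.1, ?_⟩
  intro B hB hx hBA
  have hBp : B ∈ hE.path x y := hE.mem_path.2 ⟨hB, hx, fun hy => hA.2.2 (hBA hy)⟩
  have hs := hE.path_sorted x y
  rw [h] at hBp hs
  rw [List.pairwise_cons] at hs
  rw [List.mem_cons] at hBp
  rcases hBp with h1 | h1
  · exact h1
  · exact absurd hBA (hs.1 B h1).2

theorem at_last (hE : Nest E) {x y : V} {A : Set V} {l : List (Set V)}
    (h : hE.path x y = l ++ [A]) : At E y Aᶜ := by
  have hA : A ∈ hE.path x y := by rw [h]; simp
  rw [hE.mem_path] at hA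
  refine ⟨hE.compl A hA.1, hA.2.2, ?_⟩
  intro B hB hy hBA
  have hBp : Bᶜ ∈ hE.path x y := hE.mem_path.2 ⟨hE.compl B hB, fun hx => hBA hx hA.2.1,
    not_not.2 hy⟩
  have hs := hE.path_sorted x y
  rw [h] at hBp hs
  rw [List.pairwise_append] at hs
  rw [List.mem_append] at hBp
  rcases hBp with h1 | h1
  · have h2 : Bᶜ ⊂ A := hs.2.2 _ h1 A (by simp)
    exfalso
    apply h2.2
    intro z hz hzB
    exact hBA hzB hz
  · rw [List.mem_singleton] at h1
    rw [← h1, compl_compl]

theorem consec (hE : Nest E) {x y : V} {A B : Set V} {l l' : List (Set V)}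
    (h : hE.path x y = l ++ A :: B :: l') {C : Set V} (hC : C ∈ E) (h1 : A ⊂ C) (h2 : C ⊂ B) :
    False := by
  have hA : A ∈ hE.path x y := by rw [h]; simp
  have hB : B ∈ hE.path x y := by rw [h]; simp
  rw [hE.mem_path] at hA hB
  have hCp : C ∈ hE.path x y := hE.mem_path.2 ⟨hC, h1.1 hA.2.1, fun hy => hB.2.2 (h2.1 hy)⟩
  have hs := hE.path_sorted x y
  rw [h] at hCp hs
  rw [List.pairwise_append, List.pairwise_cons, List.pairwise_cons] at hs
  rw [List.mem_append, List.mem_cons, List.mem_cons] at hCp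
  rcases hCp with h3 | h3 | h3 | h3
  · have h4 : C ⊂ A := hs.2.2 C h3 A (by simp)
    exact h4.2 h1.1
  · exact h1.2 (h3 ▸ le_refl _)
  · exact h2.2 (h3 ▸ le_refl _)
  · have h4 : B ⊂ C := hs.2.1.2.1 C h3
    exact h4.2 h2.1

theorem at_consec (hE : Nest E) {x y : V} {A B : Set V} {l l' : List (Set V)}
    (h : hE.path x y = l ++ A :: B :: l') (v : V) : At E v Aᶜ ↔ At E v B := by
  have hA : A ∈ hE.path x y := by rw [h]; simp
  have hB : B ∈ hE.path x y := by rw [h]; simp
  rw [hE.mem_path] at hA hB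
  have hs := hE.path_sorted x y
  rw [h] at hs
  rw [List.pairwise_append, List.pairwise_cons, List.pairwise_cons] at hs
  have hAB : A ⊂ B := hs.2.1.1 B (by simp)
  constructor
  · intro hv
    have hvA : v ∉ A := hv.2.1
    have hvB : v ∈ B := by
      by_contra hvB
      have := hv.2.2 Bᶜ (hE.compl B hB.1) hvB (Set.compl_subset_compl.2 hAB.1)
      rw [compl_inj_iff] at this
      exact hAB.2 (this ▸ le_refl _)
    refine ⟨hB.1, hvB, ?_⟩
    intro C hC hvC hCB
    by_contra hne
    have hCB' : C ⊂ B := HasSubset.Subset.ssubset_of_ne hCB hne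
    rcases hE.nested A hA.1 C hC with h3 | h3 | h3 | h3
    · have : A ⊂ C := HasSubset.Subset.ssubset_of_ne h3 (fun h' => hvA (h' ▸ hvC))
      exact consec hE h hC this hCB'
    · exact hvA (h3 hvC)
    · have h4 : C ⊆ Aᶜ := fun z hz hzA => h3 hzA hz
      have := hv.2.2 C hC hvC h4
      have h5 : (Set.univ : Set V) ⊆ B := by
        intro z _
        by_cases hz : z ∈ A
        · exact hAB.1 hz
        · exact hCB (this ▸ hz)
      exact hB.2.2 (h5 trivial)
    · have h5 : (Set.univ : Set V) ⊆ B := by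
        intro z _
        by_cases hz : z ∈ A
        · exact hAB.1 hz
        · exact hCB (h3 hz)
      exact hB.2.2 (h5 trivial)
  · intro hv
    have hvB : v ∈ B := hv.2.1
    have hvA : v ∉ A := by
      intro hvA
      have := hv.2.2 A hA.1 hvA hAB.1
      exact hAB.2 (this ▸ le_refl _)
    refine ⟨hE.compl A hA.1, hvA, ?_⟩
    intro C hC hvC hCA
    -- C ⊆ Aᶜ, v ∈ C; compare with B
    by_contra hne
    have hCA' : C ⊂ Aᶜ := HasSubset.Subset.ssubset_of_ne hCA hne
    have hAC : A ⊂ Cᶜ := by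
      have := compl_lt_compl_iff_lt.2 hCA'
      rwa [compl_compl] at this
    rcases hE.nested B hB.1 C hC with h3 | h3 | h3 | h3
    · -- B ⊆ C ⊆ Aᶜ but x ∈ A ∩ B
      exact hCA (h3 hB.2.1) hA.2.1
    · -- C ⊆ B
      have := hv.2.2 C hC hvC h3
      exact hCA (this ▸ hB.2.1) hA.2.1
    · exact h3 hvB hvC
    · -- Bᶜ ⊆ C so Cᶜ ⊆ B
      have h4 : Cᶜ ⊆ B := fun z hz => by
        by_contra hzB
        exact hz (h3 hzB)
      have h5 : Cᶜ ⊂ B := HasSubset.Subset.ssubset_of_ne h4 (fun h' => by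
        have : v ∈ Cᶜ := h' ▸ hvB
        exact this hvC)
      exact consec hE h (hE.compl C hC) hAC h5

theorem isChain_of {α : Type*} {R : α → α → Prop} {L : List α}
    (h : ∀ l A B l', L = l ++ A :: B :: l' → R A B) : L.IsChain R := by
  induction L with
  | nil => exact List.IsChain.nil
  | cons a L ih =>
    cases L with
    | nil => exact List.IsChain.singleton a
    | cons b L =>
      refine List.IsChain.cons_cons (h [] a b L rfl) ?_
      exact ih (fun l A B l' hl => h (a :: l) A B l' (by rw [hl]; rfl))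

section tele
variable {W : Type*} [Group W] (φ : W →* W) (d d' k : Set V → W)

theorem tele_list : ∀ (L : List (Set V)), (∀ A ∈ L, d' A = k A * φ (d A) * (k Aᶜ)⁻¹) →
    L.IsChain (fun A B => k Aᶜ = k B) → ∀ a b : W, (∀ A ∈ L.head?, k A = a) →
    (∀ A ∈ L.getLast?, k Aᶜ = b) → (L = [] → a = b) →
    (L.map d').prod = a * φ ((L.map d).prod) * b⁻¹ := by
  intro L
  induction L with
  | nil =>
    intro _ _ a b _ _ h
    rw [h rfl]
    simp
  | cons A l ih =>
    intro hd hch a b h1 h2 _
    have ha : k A = a := h1 A (by simp)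
    have hd' : ∀ B ∈ l, d' B = k B * φ (d B) * (k Bᶜ)⁻¹ :=
      fun B hB => hd B (List.mem_cons_of_mem _ hB)
    rw [List.map_cons, List.prod_cons, List.map_cons, List.prod_cons, hd A (by simp), map_mul]
    cases l with
    | nil =>
      have hb : k Aᶜ = b := h2 A (by simp)
      simp [ha, hb]
    | cons B l =>
      rw [List.isChain_cons_cons] at hch
      have := ih hd' hch.2 (k Aᶜ) b (by
        intro C hC
        simp only [List.head?_cons, Option.mem_def, Option.some.injEq] at hC
        rw [← hC, hch.1]) (by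
        intro C hC
        apply h2
        rwa [List.getLast?_cons_cons]) (by simp)
      rw [this, ha]
      group

/-- equivariance up to a gauge -/
theorem Nest.tp_gauge (hE : Nest E) (κ : V → W)
    (hd : ∀ A ∈ E, d' A = k A * φ (d A) * (k Aᶜ)⁻¹)
    (hk : ∀ A ∈ E, ∀ B ∈ E, (∀ v, At E v A ↔ At E v B) → k A = k B)
    (hκ : ∀ v A, At E v A → k A = κ v)
    (hsep : ∀ u v : V, u ≠ v → ∃ A ∈ E, u ∈ A ∧ v ∉ A) (x y : V) :
    ((hE.path x y).map d').prod = κ x * φ (hE.tp d x y) * (κ y)⁻¹ := by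
  refine tele_list φ d d' k _ ?_ ?_ _ _ ?_ ?_ ?_
  · intro A hA
    exact hd A (hE.mem_path.1 hA).1
  · apply isChain_of
    intro l A B l' h
    have hA : A ∈ hE.path x y := by rw [h]; simp
    have hB : B ∈ hE.path x y := by rw [h]; simp
    exact hk _ (hE.compl A (hE.mem_path.1 hA).1) _ (hE.mem_path.1 hB).1 (at_consec hE h)
  · intro A hA
    apply hκ
    rcases hl : hE.path x y with _ | ⟨B, l⟩
    · rw [hl] at hA; simp at hA
    · rw [hl] at hA
      simp only [List.head?_cons, Option.mem_def, Option.some.injEq] at hA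
      rw [← hA]
      exact at_head hE hl
  · intro A hA
    apply hκ
    have hne : hE.path x y ≠ [] := by
      intro h
      rw [h] at hA; simp at hA
    have h1 : hE.path x y = (hE.path x y).dropLast ++ [(hE.path x y).getLast hne] :=
      (List.dropLast_append_getLast hne).symm
    rw [List.getLast?_eq_some_getLast hne] at hA
    simp only [Option.mem_def, Option.some.injEq] at hA
    rw [← hA]
    exact at_last hE h1
  · intro h
    by_contra hne
    have hxy : x ≠ y := fun h' => hne (by rw [h'])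
    obtain ⟨A, hA, h1, h2⟩ := hsep x y hxy
    have : A ∈ hE.path x y := hE.mem_path.2 ⟨hA, h1, h2⟩
    rw [h] at this
    simp at this

end tele

end Pool.Agent.Zk63.LR
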