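import Pool.Agent.Zk63.LR.Sub

set_option autoImplicit false
set_option linter.all false

/-!
# Crossed homomorphisms given by their values on a basis
-/

namespace Pool.Agent.Zk63.LR

open scoped Pointwise
open Set

section
variable {G W β : Type*} [Group G] [Group W] (N H : Subgroup G) (e : N ≃* FreeGroup β)

/-- the subgroup generated by the basis elements in `C` -/
def NN (C : Set β) : Subgroup G :=
  ((Subgroup.closure (FreeGroup.of '' C)).comap e.toMonoidHom).map N.subtype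

variable {N e}

theorem mem_NN {C : Set β} {x : G} :
    x ∈ NN N e C ↔ ∃ h : x ∈ N, e ⟨x, h⟩ ∈ Subgroup.closure (FreeGroup.of '' C) := by
  unfold NN
  rw [Subgroup.mem_map]
  constructor
  · rintro ⟨y, hy, rfl⟩
    exact ⟨y.2, hy⟩
  · rintro ⟨h, hx⟩
    exact ⟨⟨x, h⟩, hx, rfl⟩

theorem NN_le {C : Set β} : NN N e C ≤ N := fun x hx => (mem_NN.1 hx).1

theorem NN_mono {C D : Set β} (h : C ⊆ D) : NN N e C ≤ NN N e D := by
  intro x hx
  obtain ⟨hN, hx⟩ := mem_NN.1 hx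
  exact mem_NN.2 ⟨hN, Subgroup.closure_mono (Set.image_mono h) hx⟩

theorem NN_inter {C D : Set β} : NN N e (C ∩ D) = NN N e C ⊓ NN N e D := by
  ext x
  rw [Subgroup.mem_inf, mem_NN, mem_NN, mem_NN]
  constructor
  · rintro ⟨h, hx⟩
    rw [mem_closure_iff_letters] at hx
    exact ⟨⟨h, (mem_closure_iff_letters _ _).2 fun a ha => (hx a ha).1⟩,
      ⟨h, (mem_closure_iff_letters _ _).2 fun a ha => (hx a ha).2⟩⟩
  · rintro ⟨⟨h, h1⟩, ⟨_, h2⟩⟩
    rw [mem_closure_iff_letters] at h1 h2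
    exact ⟨h, (mem_closure_iff_letters _ _).2 fun a ha => ⟨h1 a ha, h2 a ha⟩⟩

variable (N e) in
/-- the basis element of the ambient group -/
def be (b : β) : G := ((e.symm (FreeGroup.of b) : N) : G)

theorem be_mem (b : β) : be N e b ∈ N := (e.symm (FreeGroup.of b)).2

theorem e_be (b : β) (h : be N e b ∈ N) : e ⟨be N e b, h⟩ = FreeGroup.of b := by
  have : (⟨be N e b, h⟩ : N) = e.symm (FreeGroup.of b) := rfl
  rw [this, MulEquiv.apply_symm_apply]

theorem be_mem_NN {C : Set β} {b : β} (hb : b ∈ C) : be N e b ∈ NN N e C := by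
  refine mem_NN.2 ⟨be_mem b, ?_⟩
  rw [e_be]
  exact Subgroup.subset_closure ⟨b, hb, rfl⟩

variable (N e) in
/-- `C` is invariant under `H` -/
def Cl (C : Set β) : Prop := ∀ c ∈ C, ∀ h ∈ H, h * be N e c * h⁻¹ ∈ NN N e C

variable {H}

/-- induction over `NN C` -/
theorem NN_induction {C : Set β} {P : G → Prop} (h1 : P 1) (hb : ∀ c ∈ C, P (be N e c))
    (hm : ∀ x ∈ NN N e C, ∀ y ∈ NN N e C, P x → P y → P (x * y))
    (hi : ∀ x ∈ NN N e C, P x → P x⁻¹) {x : G} (hx : x ∈ NN N e C) : P x := by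
  have key : ∀ y ∈ Subgroup.closure (FreeGroup.of '' C), P ((e.symm y : N) : G) := by
    intro y hy
    have hmem : ∀ y ∈ Subgroup.closure (FreeGroup.of '' C), ((e.symm y : N) : G) ∈ NN N e C := by
      intro y hy
      refine mem_NN.2 ⟨(e.symm y).2, ?_⟩
      have : (⟨((e.symm y : N) : G), (e.symm y).2⟩ : N) = e.symm y := rfl
      rw [this, MulEquiv.apply_symm_apply]
      exact hy
    induction hy using Subgroup.closure_induction with
    | mem y hy =>
      obtain ⟨c, hc, rfl⟩ := hy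
      exact hb c hc
    | one => rw [map_one]; exact h1
    | mul x y hx hy ihx ihy =>
      rw [map_mul]
      exact hm _ (hmem x hx) _ (hmem y hy) ihx ihy
    | inv x hx ih =>
      rw [map_inv]
      exact hi _ (hmem x hx) ih
  obtain ⟨hN, hx'⟩ := mem_NN.1 hx
  have := key _ hx'
  rwa [MulEquiv.symm_apply_apply] at this

theorem Cl.conj {C : Set β} (hC : Cl N H e C) {h : G} (hh : h ∈ H) {x : G} (hx : x ∈ NN N e C) :
    h * x * h⁻¹ ∈ NN N e C := by
  refine NN_induction (P := fun x => h * x * h⁻¹ ∈ NN N e C) ?_ ?_ ?_ ?_ hx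
  · simp only [mul_one, mul_inv_cancel]; exact Subgroup.one_mem _
  · intro c hc; exact hC c hc h hh
  · intro x _ y _ h1 h2
    have := Subgroup.mul_mem _ h1 h2
    have e1 : h * x * h⁻¹ * (h * y * h⁻¹) = h * (x * y) * h⁻¹ := by group
    rwa [e1] at this
  · intro x _ h1
    have := Subgroup.inv_mem _ h1
    have e1 : (h * x * h⁻¹)⁻¹ = h * x⁻¹ * h⁻¹ := by group
    rwa [e1] at this

theorem Cl.inter {C D : Set β} (hC : Cl N H e C) (hD : Cl N H e D) : Cl N H e (C ∩ D) := by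
  intro c hc h hh
  rw [NN_inter]
  exact ⟨hC c hc.1 h hh, hD c hc.2 h hh⟩

theorem Cl.union {C D : Set β} (hC : Cl N H e C) (hD : Cl N H e D) : Cl N H e (C ∪ D) := by
  rintro c (hc | hc) h hh
  · exact NN_mono subset_union_left (hC c hc h hh)
  · exact NN_mono subset_union_right (hD c hc h hh)

/-- the group `NN C * H` -/
def GG {C : Set β} (hC : Cl N H e C) : Subgroup G where
  carrier := {x | ∃ n ∈ NN N e C, ∃ h ∈ H, x = n * h}
  mul_mem' := by
    rintro _ _ ⟨n, hn, h, hh, rfl⟩ ⟨n', hn', h', hh', rfl⟩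
    exact ⟨n * (h * n' * h⁻¹), Subgroup.mul_mem _ hn (hC.conj hh hn'), h * h', H.mul_mem hh hh',
      by group⟩
  one_mem' := ⟨1, Subgroup.one_mem _, 1, H.one_mem, by simp⟩
  inv_mem' := by
    rintro _ ⟨n, hn, h, hh, rfl⟩
    refine ⟨h⁻¹ * n⁻¹ * h⁻¹⁻¹, hC.conj (H.inv_mem hh) (Subgroup.inv_mem _ hn), h⁻¹, H.inv_mem hh,
      by group⟩

theorem mem_GG {C : Set β} {hC : Cl N H e C} {x : G} :
    x ∈ GG hC ↔ ∃ n ∈ NN N e C, ∃ h ∈ H, x = n * h := Iff.rfl

theorem NN_le_GG {C : Set β} (hC : Cl N H e C) : NN N e C ≤ GG hC :=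
  fun x hx => ⟨x, hx, 1, H.one_mem, by simp⟩

theorem H_le_GG {C : Set β} (hC : Cl N H e C) : H ≤ GG hC :=
  fun x hx => ⟨1, Subgroup.one_mem _, x, hx, by simp⟩

theorem GG_mono {C D : Set β} (hC : Cl N H e C) (hD : Cl N H e D) (h : C ⊆ D) :
    GG hC ≤ GG hD := by
  rintro _ ⟨n, hn, h', hh, rfl⟩
  exact ⟨n, NN_mono h hn, h', hh, rfl⟩

theorem GG_inf {C : Set β} (hC : Cl N H e C) (hNH : ∀ x ∈ N, x ∈ H → x ∈ NN N e C) {x : G}
    (hx : x ∈ N) (hx' : x ∈ GG hC) : x ∈ NN N e C := by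
  obtain ⟨n, hn, h, hh, rfl⟩ := hx'
  have h1 : h ∈ N := by
    have := N.mul_mem (N.inv_mem (NN_le hn)) hx
    rwa [inv_mul_cancel_left] at this
  exact Subgroup.mul_mem _ hn (hNH h h1 hh)

open Classical in
variable (N e) in
/-- the homomorphism given by values on the basis -/
noncomputable def Th (f : β → W) (x : G) : W := if h : x ∈ N then FreeGroup.lift f (e ⟨x, h⟩) else 1

theorem Th_mul (f : β → W) {x y : G} (hx : x ∈ N) (hy : y ∈ N) :
    Th N e f (x * y) = Th N e f x * Th N e f y := by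
  unfold Th
  rw [dif_pos hx, dif_pos hy, dif_pos (N.mul_mem hx hy), ← map_mul, ← map_mul]
  rfl

theorem Th_one (f : β → W) : Th N e f 1 = 1 := by
  unfold Th
  rw [dif_pos N.one_mem]
  have : (⟨1, N.one_mem⟩ : N) = 1 := rfl
  rw [this, map_one, map_one]

theorem Th_inv (f : β → W) {x : G} (hx : x ∈ N) : Th N e f x⁻¹ = (Th N e f x)⁻¹ := by
  have := Th_mul (e := e) f (N.inv_mem hx) hx
  rw [inv_mul_cancel, Th_one] at this
  exact eq_inv_of_mul_eq_one_left this.symm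

theorem Th_be (f : β → W) (b : β) : Th N e f (be N e b) = f b := by
  unfold Th
  rw [dif_pos (be_mem b), e_be, FreeGroup.lift_apply_of]

theorem Th_congr {f f' : β → W} {C : Set β} (h : ∀ c ∈ C, f c = f' c) {x : G} (hx : x ∈ NN N e C) :
    Th N e f x = Th N e f' x := by
  refine NN_induction (P := fun x => Th N e f x = Th N e f' x) ?_ ?_ ?_ ?_ hx
  · rw [Th_one, Th_one]
  · intro c hc; rw [Th_be, Th_be, h c hc]
  · intro x hx y hy h1 h2
    rw [Th_mul f (NN_le hx) (NN_le hy), Th_mul f' (NN_le hx) (NN_le hy), h1, h2]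
  · intro x hx h1
    rw [Th_inv f (NN_le hx), Th_inv f' (NN_le hx), h1]

variable (φ : G →* MulAut W) (z₁ : G → W)

variable (N H e) in
/-- `f` is equivariant on `C` and compatible with `z₁` -/
structure Good (C : Set β) (f : β → W) : Prop where
  cl : Cl N H e C
  inf : ∀ x ∈ N, x ∈ H → x ∈ NN N e C
  eqv : ∀ c ∈ C, ∀ h ∈ H, Th N e f (h * be N e c * h⁻¹) = z₁ h * φ h (f c) * (z₁ h)⁻¹
  compat : ∀ x ∈ N, x ∈ H → Th N e f x = z₁ x

variable {φ z₁}

theorem Good.conj [N.Normal] {C : Set β} {f : β → W} (hg : Good N H e φ z₁ C f) {h : G} (hh : h ∈ H)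
    {x : G} (hx : x ∈ NN N e C) :
    Th N e f (h * x * h⁻¹) = z₁ h * φ h (Th N e f x) * (z₁ h)⁻¹ := by
  have hconj : ∀ {y}, y ∈ NN N e C → h * y * h⁻¹ ∈ N := fun hy =>
    (inferInstance : N.Normal).conj_mem _ (NN_le hy) h
  refine NN_induction (P := fun x => Th N e f (h * x * h⁻¹) =
    z₁ h * φ h (Th N e f x) * (z₁ h)⁻¹) ?_ ?_ ?_ ?_ hx
  · simp only [mul_one, mul_inv_cancel, Th_one, map_one]
  · intro c hc
    rw [Th_be]
    exact hg.eqv c hc h hh
  · intro x hx y hy h1 h2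
    have e1 : h * (x * y) * h⁻¹ = (h * x * h⁻¹) * (h * y * h⁻¹) := by group
    rw [e1, Th_mul f (hconj hx) (hconj hy), h1, h2, Th_mul f (NN_le hx) (NN_le hy), map_mul]
    group
  · intro x hx h1
    have e1 : h * x⁻¹ * h⁻¹ = (h * x * h⁻¹)⁻¹ := by group
    rw [e1, Th_inv f (hconj hx), h1, Th_inv f (NN_le hx), map_inv]
    group

open Classical in
/-- the crossed homomorphism defined by a good family of values -/
theorem Good.crossed [N.Normal] (hφN : ∀ n ∈ N, φ n = 1)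
    (hz₁ : ∀ g ∈ H, ∀ h ∈ H, z₁ (g * h) = z₁ g * φ g (z₁ h))
    {C : Set β} {f : β → W} (hg : Good N H e φ z₁ C f) :
    ∃ z : G → W, (∀ x ∈ GG hg.cl, ∀ y ∈ GG hg.cl, z (x * y) = z x * φ x (z y)) ∧
      (∀ h ∈ H, z h = z₁ h) ∧ ∀ x ∈ NN N e C, z x = Th N e f x := by
  have hz1 : z₁ 1 = 1 := by
    have := hz₁ 1 H.one_mem 1 H.one_mem
    rw [map_one, mul_one] at this
    have h2 : z₁ 1 = z₁ 1 * z₁ 1 := this
    exact (mul_eq_left.1 h2.symm)
  have hact : ∀ n ∈ N, ∀ w : W, φ n w = w := by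
    intro n hn w; rw [hφN n hn]; rfl
  -- well defined
  have hwd : ∀ n ∈ NN N e C, ∀ h ∈ H, ∀ n' ∈ NN N e C, ∀ h' ∈ H, n * h = n' * h' →
      Th N e f n * z₁ h = Th N e f n' * z₁ h' := by
    intro n hn h hh n' hn' h' hh' heq
    have h1 : n'⁻¹ * n = h' * h⁻¹ := by
      rw [inv_mul_eq_iff_eq_mul, ← mul_assoc, ← heq]; group
    have hkN : h' * h⁻¹ ∈ N := by
      rw [← h1]; exact N.mul_mem (N.inv_mem (NN_le hn')) (NN_le hn)
    have hkH : h' * h⁻¹ ∈ H := H.mul_mem hh' (H.inv_mem hh)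
    have h2 : Th N e f (n'⁻¹ * n) = z₁ (h' * h⁻¹) := by
      rw [h1]; exact hg.compat _ hkN hkH
    have h3 : z₁ h' = z₁ (h' * h⁻¹) * z₁ h := by
      have := hz₁ (h' * h⁻¹) hkH h hh
      rw [inv_mul_cancel_right, hact _ hkN] at this
      exact this
    rw [h3, ← h2, Th_mul f (N.inv_mem (NN_le hn')) (NN_le hn), Th_inv f (NN_le hn')]
    group
  let z : G → W := fun x => if hx : ∃ p : G × G, p.1 ∈ NN N e C ∧ p.2 ∈ H ∧ x = p.1 * p.2 then
    Th N e f hx.choose.1 * z₁ hx.choose.2 else 1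
  have hz : ∀ n ∈ NN N e C, ∀ h ∈ H, z (n * h) = Th N e f n * z₁ h := by
    intro n hn h hh
    have hx : ∃ p : G × G, p.1 ∈ NN N e C ∧ p.2 ∈ H ∧ n * h = p.1 * p.2 := ⟨(n, h), hn, hh, rfl⟩
    have hs := hx.choose_spec
    simp only [z, dif_pos hx]
    exact (hwd n hn h hh _ hs.1 _ hs.2.1 hs.2.2).symm
  refine ⟨z, ?_, ?_, ?_⟩
  · rintro _ ⟨n, hn, h, hh, rfl⟩ _ ⟨n', hn', h', hh', rfl⟩
    have e1 : n * h * (n' * h') = (n * (h * n' * h⁻¹)) * (h * h') := by group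
    have hconj := hg.cl.conj hh hn'
    rw [e1, hz _ (Subgroup.mul_mem _ hn hconj) _ (H.mul_mem hh hh'), hz n hn h hh,
      hz n' hn' h' hh', Th_mul f (NN_le hn) (NN_le hconj), hg.conj hh hn', hz₁ h hh h' hh']
    have e2 : ∀ w : W, φ (n * h) w = φ h w := by
      intro w
      rw [map_mul]
      show φ n (φ h w) = _
      rw [hact n (NN_le hn)]
    rw [e2, map_mul]
    group
  · intro h hh
    have := hz 1 (Subgroup.one_mem _) h hh
    rwa [one_mul, Th_one, one_mul] at this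
  · intro x hx
    have := hz x hx 1 H.one_mem
    rwa [mul_one, hz1, mul_one] at this

end

end Pool.Agent.Zk63.LR
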