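import Pool.Agent.Zk63.LR.ZornA

set_option autoImplicit false
set_option linter.all false

/-!
# Extension to groups of arbitrary rank
-/

namespace Pool.Agent.Zk63.LR

open scoped Pointwise
open Set

section
variable {G W β : Type*} [Group G] [Group W] {N H : Subgroup G} {e : N ≃* FreeGroup β}
  {φ : G →* MulAut W} {z₁ : G → W}

theorem NN_countable {C : Set β} (hC : C.Countable) : Countable (NN N e C) := by
  classical
  haveI : Countable C := hC
  let F : NN N e C → List (C × Bool) := fun x =>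
    (e ⟨x.1, NN_le x.2⟩).toWord.attach.map (fun a => (⟨a.1.1, by
      have h := (mem_NN.1 x.2).2
      rw [mem_closure_iff_letters] at h
      exact h a.1 a.2⟩, a.1.2))
  have hF : Function.Injective F := by
    intro x y hxy
    have h1 : (F x).map (fun p => ((p.1 : β), p.2)) = (e ⟨x.1, NN_le x.2⟩).toWord := by
      simp only [F, List.map_map]
      exact List.attach_map_subtype_val _
    have h2 : (F y).map (fun p => ((p.1 : β), p.2)) = (e ⟨y.1, NN_le y.2⟩).toWord := by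
      simp only [F, List.map_map]
      exact List.attach_map_subtype_val _
    rw [hxy, h2] at h1
    have h3 := e.injective (FreeGroup.toWord_injective h1)
    exact Subtype.ext (congrArg Subtype.val h3).symm
  exact hF.countable

theorem GG_countable [Countable H] {C : Set β} (hC : C.Countable) (hcl : Cl N H e C) :
    Countable (GG hcl) := by
  haveI := NN_countable (N := N) (e := e) hC
  let F : (NN N e C) × H → GG hcl := fun p => ⟨(p.1 : G) * (p.2 : G), p.1, p.1.2, p.2, p.2.2, rfl⟩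
  have hF : Function.Surjective F := by
    rintro ⟨_, n, hn, h, hh, rfl⟩
    exact ⟨(⟨n, hn⟩, ⟨h, hh⟩), rfl⟩
  exact hF.countable

/-- every countable set is contained in a countable invariant set -/
theorem exists_countable_cl [N.Normal] [Countable H] {C : Set β} (hC : C.Countable) :
    ∃ D : Set β, C ⊆ D ∧ D.Countable ∧ Cl N H e D := by
  classical
  let st : Set β → Set β := fun C => C ∪ ⋃ c ∈ C, ⋃ h : H,
    {b | ∃ hx : (h : G) * be N e c * (h : G)⁻¹ ∈ N, ∃ a ∈ (e ⟨_, hx⟩).toWord, a.1 = b}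
  have hst : ∀ C : Set β, C.Countable → (st C).Countable := by
    intro C hC
    refine hC.union (hC.biUnion fun c _ => Set.countable_iUnion fun h => ?_)
    by_cases hx : (h : G) * be N e c * (h : G)⁻¹ ∈ N
    · refine Set.Countable.mono (s₂ := (fun a => a.1) '' {a | a ∈ (e ⟨_, hx⟩).toWord}) ?_ ?_
      · rintro b ⟨_, a, ha, rfl⟩
        exact ⟨a, ha, rfl⟩
      · exact (List.finite_toSet _).countable.image _
    · convert Set.countable_empty (α := β)
      rw [Set.eq_empty_iff_forall_notMem]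
      rintro b ⟨h', _⟩
      exact hx h'
  let seq : ℕ → Set β := fun n => st^[n] C
  have hseq : ∀ n, (seq n).Countable := by
    intro n
    induction n with
    | zero => exact hC
    | succ n ih =>
      simp only [seq, Function.iterate_succ_apply']
      exact hst _ ih
  refine ⟨⋃ n, seq n, Set.subset_iUnion_of_subset 0 (fun x hx => hx), Set.countable_iUnion hseq, ?_⟩
  intro c hc h hh
  obtain ⟨n, hn⟩ := Set.mem_iUnion.1 hc
  have hx : h * be N e c * h⁻¹ ∈ N := (inferInstance : N.Normal).conj_mem _ (be_mem c) h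
  refine mem_NN.2 ⟨hx, ?_⟩
  rw [mem_closure_iff_letters]
  intro a ha
  refine Set.mem_iUnion.2 ⟨n + 1, ?_⟩
  simp only [seq, Function.iterate_succ_apply']
  right
  rw [Set.mem_iUnion₂]
  refine ⟨c, hn, Set.mem_iUnion.2 ⟨⟨h, hh⟩, hx, a, ha, rfl⟩⟩

variable (hφN : ∀ n ∈ N, φ n = 1)
  (hz₁ : ∀ g ∈ H, ∀ h ∈ H, z₁ (g * h) = z₁ g * φ g (z₁ h))
  (hH1 : ∀ D : Subgroup G, Finite D → ∀ δ : G → W,
      (∀ g ∈ D, ∀ h ∈ D, δ (g * h) = δ g * φ g (δ h)) → ∃ r : W, ∀ g ∈ D, δ g * φ g r = r)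
include hφN hz₁ hH1

open Classical in
/-- one step -/
theorem Good.step [N.Normal] [N.FiniteIndex] [Countable H] {C₁ C : Set β} {f : β → W}
    (hg : Good N H e φ z₁ C₁ f) (hCc : C.Countable) (hC : Cl N H e C)
    (hinf : ∀ x ∈ N, x ∈ H → x ∈ NN N e C) :
    ∃ f' : β → W, (∀ c ∈ C₁, f' c = f c) ∧ Good N H e φ z₁ (C₁ ∪ C) f' := by
  -- the intersection
  have hD : Cl N H e (C ∩ C₁) := hC.inter hg.cl
  have hgD : Good N H e φ z₁ (C ∩ C₁) f := by
    refine ⟨hD, ?_, ?_, hg.compat⟩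
    · intro x hx hx'
      rw [NN_inter]
      exact ⟨hinf x hx hx', hg.inf x hx hx'⟩
    · intro c hc h hh
      exact hg.eqv c hc.2 h hh
  obtain ⟨zD, hzD1, hzD2, hzD3⟩ := hgD.crossed hφN hz₁
  have hext : ∃ z : G → W, (∀ g ∈ GG hC, ∀ h ∈ GG hC, z (g * h) = z g * φ g (z h)) ∧
      ∀ g ∈ GG hD, z g = zD g := by
    refine rel_ext_sub (B := β) (GG hC) (NN N e C) (GG hD) (GG_countable hCc hC) (NN_le_GG hC)
      (GG_mono hD hC inter_subset_left) ?_ ?_ ?_
      (e.toMonoidHom.comp (Subgroup.inclusion (NN_le (N := N) (e := e) (C := C)))) ?_ ?_ φ hH1 zD hzD1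
    · rintro _ ⟨n, hn, h, hh, rfl⟩ x hx
      have h1 := hC.conj hh hx
      have h2 : n * h * x * (n * h)⁻¹ = n * (h * x * h⁻¹) * n⁻¹ := by group
      rw [h2]
      exact Subgroup.mul_mem _ (Subgroup.mul_mem _ hn h1) (Subgroup.inv_mem _ hn)
    · have : (NN N e C).subgroupOf (GG hC) = N.subgroupOf (GG hC) := by
        ext x
        rw [Subgroup.mem_subgroupOf, Subgroup.mem_subgroupOf]
        exact ⟨fun h => NN_le h, fun h => GG_inf hC hinf h x.2⟩
      rw [this]
      infer_instance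
    · rintro _ ⟨n, hn, h, hh, rfl⟩
      exact ⟨n, hn, h, H_le_GG hD hh, rfl⟩
    · exact e.injective.comp (Subgroup.inclusion_injective _)
    · intro m hm
      have hm' : e ⟨(m : G), NN_le m.2⟩ ∉ Subgroup.closure (FreeGroup.of '' (C ∩ C₁)) := by
        intro h
        exact hm (NN_le_GG hD (mem_NN.2 ⟨NN_le m.2, h⟩))
      obtain ⟨b, ff, hb, hne⟩ := sep_letters hm'
      refine ⟨ff, b, ?_, hne⟩
      intro n h hh
      have hh' : (h : G) ∈ NN N e (C ∩ C₁) := GG_inf hD hgD.inf (NN_le h.2) hh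
      have h1 := (mem_NN.1 hh').2
      have h2 : (e ⟨(h : G), NN_le h.2⟩)⁻¹ ∈ Subgroup.closure (FreeGroup.of '' (C ∩ C₁)) :=
        Subgroup.inv_mem _ h1
      have h3 := ends_letters hb h2 ((e ⟨(n : G), NN_le n.2⟩)⁻¹ * ff)
      have e1 : (e.toMonoidHom.comp (Subgroup.inclusion (NN_le (N := N) (e := e) (C := C)))) n =
        e ⟨(n : G), NN_le n.2⟩ := rfl
      have e2 : (e.toMonoidHom.comp (Subgroup.inclusion (NN_le (N := N) (e := e) (C := C)))) h =
        e ⟨(h : G), NN_le h.2⟩ := rfl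
      rw [map_mul, e1, e2]
      rw [h3]
      have e3 : (e ⟨(h : G), NN_le h.2⟩)⁻¹ * ((e ⟨(n : G), NN_le n.2⟩)⁻¹ * ff) =
        (e ⟨(n : G), NN_le n.2⟩ * e ⟨(h : G), NN_le h.2⟩)⁻¹ * ff := by group
      rw [e3]
  obtain ⟨z, hz, hz'⟩ := hext
  have hact : ∀ n ∈ N, ∀ w : W, φ n w = w := by
    intro n hn w; rw [hφN n hn]; rfl
  have hzH : ∀ h ∈ H, z h = z₁ h := by
    intro h hh
    rw [hz' h (H_le_GG hD hh), hzD2 h hh]
  have hzmul : ∀ x ∈ NN N e C, ∀ y ∈ GG hC, z (x * y) = z x * z y := by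
    intro x hx y hy
    rw [hz x (NN_le_GG hC hx) y hy, hact x (NN_le hx)]
  have hz1 : z 1 = 1 := by
    have := hzmul 1 (Subgroup.one_mem _) 1 (Subgroup.one_mem _)
    rw [mul_one] at this
    exact mul_eq_left.1 this.symm
  have hzinv : ∀ x ∈ NN N e C, z x⁻¹ = (z x)⁻¹ := by
    intro x hx
    have := hzmul x⁻¹ (Subgroup.inv_mem _ hx) x (NN_le_GG hC hx)
    rw [inv_mul_cancel, hz1] at this
    exact eq_inv_of_mul_eq_one_left this.symm
  set f' : β → W := fun c => if c ∈ C₁ then f c else z (be N e c) with hf'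
  have hf1 : ∀ c ∈ C₁, f' c = f c := by
    intro c hc
    simp only [hf', if_pos hc]
  have hf2 : ∀ c ∈ C, f' c = z (be N e c) := by
    intro c hc
    by_cases h : c ∈ C₁
    · rw [hf1 c h]
      have hcD : c ∈ C ∩ C₁ := ⟨hc, h⟩
      rw [hz' _ (NN_le_GG hD (be_mem_NN hcD)), hzD3 _ (be_mem_NN hcD), Th_be]
    · simp only [hf', if_neg h]
  have hTh1 : ∀ x ∈ NN N e C₁, Th N e f' x = Th N e f x := fun x hx => Th_congr hf1 hx
  have hTh2 : ∀ x ∈ NN N e C, Th N e f' x = z x := by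
    intro x hx
    refine NN_induction (P := fun x => Th N e f' x = z x) ?_ ?_ ?_ ?_ hx
    · rw [Th_one, hz1]
    · intro c hc; rw [Th_be, hf2 c hc]
    · intro x hx y hy h1 h2
      rw [Th_mul f' (NN_le hx) (NN_le hy), h1, h2, hzmul x hx y (NN_le_GG hC hy)]
    · intro x hx h1
      rw [Th_inv f' (NN_le hx), h1, hzinv x hx]
  refine ⟨f', hf1, ⟨hg.cl.union hC, ?_, ?_, ?_⟩⟩
  · intro x hx hx'
    exact NN_mono subset_union_left (hg.inf x hx hx')
  · rintro c (hc | hc) h hh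
    · rw [hTh1 _ (hg.cl c hc h hh), hf1 c hc]
      exact hg.eqv c hc h hh
    · rw [hTh2 _ (hC c hc h hh), hf2 c hc]
      have hbc := be_mem_NN (N := N) (e := e) hc
      have h1 : z (h * be N e c) = z h * φ h (z (be N e c)) :=
        hz h (H_le_GG hC hh) _ (NN_le_GG hC hbc)
      have h2 : z (h * be N e c * h⁻¹ * h) = z (h * be N e c * h⁻¹) * z h :=
        hzmul _ (hC c hc h hh) h (H_le_GG hC hh)
      rw [inv_mul_cancel_right, h1, hzH h hh] at h2
      rw [← mul_inv_eq_iff_eq_mul.2 h2]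
  · intro x hx hx'
    rw [hTh1 _ (hg.inf x hx hx')]
    exact hg.compat x hx hx'

open Classical in
/-- Zorn's lemma -/
theorem Good.univ [N.Normal] [N.FiniteIndex] [Countable H] {C₀ : Set β} {f₀ : β → W}
    (hg : Good N H e φ z₁ C₀ f₀) (hC₀ : C₀.Countable) :
    ∃ f : β → W, Good N H e φ z₁ Set.univ f := by
  let P := {p : Set β × (β → W) // C₀ ⊆ p.1 ∧ Good N H e φ z₁ p.1 p.2}
  let r : P → P → Prop := fun p q => p.1.1 ⊆ q.1.1 ∧ ∀ c ∈ p.1.1, q.1.2 c = p.1.2 c
  haveI : Nonempty P := ⟨⟨(C₀, f₀), subset_rfl, hg⟩⟩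
  have hchain : ∀ c : Set P, IsChain r c → c.Nonempty → ∃ ub, ∀ a ∈ c, r a ub := by
    intro c hc hne
    obtain ⟨p₀, hp₀⟩ := hne
    let C : Set β := ⋃ p ∈ c, p.1.1
    let f : β → W := fun b => if h : ∃ p ∈ c, b ∈ p.1.1 then h.choose.1.2 b else 1
    have hf : ∀ p ∈ c, ∀ b ∈ p.1.1, f b = p.1.2 b := by
      intro p hp b hb
      have h : ∃ p ∈ c, b ∈ p.1.1 := ⟨p, hp, hb⟩
      simp only [f, dif_pos h]
      obtain ⟨h1, h2⟩ := h.choose_spec
      by_cases heq : h.choose = p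
      · rw [heq]
      · rcases hc h1 hp heq with h3 | h3
        · exact (h3.2 b h2).symm
        · exact h3.2 b hb
    have hmemC : ∀ p ∈ c, p.1.1 ⊆ C := fun p hp => Set.subset_biUnion_of_mem (u := fun p : P => p.1.1) hp
    have hgood : Good N H e φ z₁ C f := by
      refine ⟨?_, ?_, ?_, ?_⟩
      · intro b hb h hh
        obtain ⟨p, hp, hbp⟩ := Set.mem_iUnion₂.1 hb
        exact NN_mono (hmemC p hp) (p.2.2.cl b hbp h hh)
      · intro x hx hx'
        exact NN_mono (hmemC p₀ hp₀) (p₀.2.2.inf x hx hx')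
      · intro b hb h hh
        obtain ⟨p, hp, hbp⟩ := Set.mem_iUnion₂.1 hb
        rw [hf p hp b hbp, Th_congr (hf p hp) (p.2.2.cl b hbp h hh)]
        exact p.2.2.eqv b hbp h hh
      · intro x hx hx'
        rw [Th_congr (hf p₀ hp₀) (p₀.2.2.inf x hx hx')]
        exact p₀.2.2.compat x hx hx'
    refine ⟨⟨(C, f), p₀.2.1.trans (hmemC p₀ hp₀), hgood⟩, ?_⟩
    intro p hp
    exact ⟨hmemC p hp, hf p hp⟩
  obtain ⟨m, hm⟩ := exists_maximal_of_nonempty_chains_bounded hchain (by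
    intro a b c hab hbc
    refine ⟨hab.1.trans hbc.1, fun x hx => ?_⟩
    rw [hbc.2 x (hab.1 hx), hab.2 x hx])
  have huniv : m.1.1 = Set.univ := by
    by_contra hne
    obtain ⟨b, hb⟩ : ∃ b, b ∉ m.1.1 := by
      by_contra h
      push Not at h
      exact hne (Set.eq_univ_of_forall h)
    obtain ⟨D, hD1, hD2, hD3⟩ := exists_countable_cl (N := N) (H := H) (e := e)
      (hC₀.insert b)
    have hinf : ∀ x ∈ N, x ∈ H → x ∈ NN N e D := by
      intro x hx hx'
      exact NN_mono ((Set.subset_insert b C₀).trans hD1) (hg.inf x hx hx')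
    obtain ⟨f', hf', hgf'⟩ := m.2.2.step hφN hz₁ hH1 hD2 hD3 hinf
    have := hm ⟨(m.1.1 ∪ D, f'), m.2.1.trans subset_union_left, hgf'⟩
      ⟨subset_union_left, hf'⟩
    exact hb (this.1 (Or.inr (hD1 (Set.mem_insert _ _))))
  refine ⟨m.1.2, ?_⟩
  have := m.2.2
  rwa [huniv] at this

end

end Pool.Agent.Zk63.LR
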